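import Mathlib

set_option autoImplicit false

/-! The numbers `sin (k π / m) / sin (π / m)` and `2 cos (π / m)`. -/

namespace Pool.Agent.AR

/-- `sin (k π / m) / sin (π / m)` -/
noncomputable def sn (m : ℕ) (k : ℤ) : ℝ :=
  Real.sin (k * (Real.pi / m)) / Real.sin (Real.pi / m)

/-- `2 cos (π / m)` (the value for `m = 0`, that is `∞`, is `2`) -/
noncomputable def cc (m : ℕ) : ℝ := 2 * Real.cos (Real.pi / m)

variable {m : ℕ}

theorem sin_pos' (hm : 2 ≤ m) : 0 < Real.sin (Real.pi / m) := by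
  have h1 : (2 : ℝ) ≤ m := by exact_mod_cast hm
  apply Real.sin_pos_of_pos_of_lt_pi
  · positivity
  · rw [div_lt_iff₀ (by linarith)]
    nlinarith [Real.pi_pos]

theorem sn_zero : sn m 0 = 0 := by simp [sn]

theorem sn_one (hm : 2 ≤ m) : sn m 1 = 1 := by
  unfold sn
  rw [Int.cast_one, one_mul, div_self (sin_pos' hm).ne']

theorem sn_neg (k : ℤ) : sn m (-k) = - sn m k := by
  unfold sn
  rw [Int.cast_neg, neg_mul, Real.sin_neg, neg_div]

theorem sn_rec (k : ℤ) : sn m (k + 1) = cc m * sn m k - sn m (k - 1) := by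
  unfold sn cc
  have h1 : Real.sin (((k + 1 : ℤ) : ℝ) * (Real.pi / m)) + Real.sin (((k - 1 : ℤ) : ℝ) * (Real.pi / m)) =
      2 * Real.cos (Real.pi / m) * Real.sin (k * (Real.pi / m)) := by
    push_cast
    rw [add_mul, sub_mul, one_mul, Real.sin_add, Real.sin_sub]
    ring
  have h2 : 2 * Real.cos (Real.pi / m) * (Real.sin (k * (Real.pi / m)) / Real.sin (Real.pi / m)) =
      (2 * Real.cos (Real.pi / m) * Real.sin (k * (Real.pi / m))) / Real.sin (Real.pi / m) := by ring
  rw [h2, ← h1, add_div]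
  ring

theorem sn_add (hm : 2 ≤ m) (k i : ℤ) :
    sn m (k + 1) * sn m (i + 1) - sn m k * sn m i = sn m (k + i + 1) := by
  unfold sn
  have h0 := (sin_pos' hm).ne'
  set x := Real.pi / m with hx
  have h1 : Real.sin ((k + 1 : ℤ) * x) * Real.sin ((i + 1 : ℤ) * x) -
      Real.sin (k * x) * Real.sin (i * x) = Real.sin ((k + i + 1 : ℤ) * x) * Real.sin x := by
    push_cast
    have e1 : ((k : ℝ) + 1) * x = k * x + x := by ring
    have e2 : ((i : ℝ) + 1) * x = i * x + x := by ring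
    have e3 : ((k : ℝ) + i + 1) * x = (k * x + i * x) + x := by ring
    rw [e1, e2, e3, Real.sin_add, Real.sin_add, Real.sin_add, Real.sin_add, Real.cos_add]
    linear_combination (Real.sin (k * x) * Real.sin (i * x)) * Real.cos_sq_add_sin_sq x
  rw [div_mul_div_comm, div_mul_div_comm, ← sub_div, h1, mul_div_mul_right _ _ h0]

theorem sn_eq_zero (hm : 2 ≤ m) {k : ℤ} : sn m k = 0 ↔ (m : ℤ) ∣ k := by
  unfold sn
  have h0 := (sin_pos' hm).ne'
  have hm0 : (m : ℝ) ≠ 0 := by
    have : m ≠ 0 := by omega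
    exact_mod_cast this
  rw [div_eq_zero_iff, or_iff_left h0, Real.sin_eq_zero_iff]
  constructor
  · rintro ⟨n, hn⟩
    refine ⟨n, ?_⟩
    have h1 : (n : ℝ) * m = k := by
      have h2 : (n : ℝ) * Real.pi * m = k * Real.pi := by
        rw [hn]; field_simp
      have h3 : ((n : ℝ) * m) * Real.pi = k * Real.pi := by rw [← h2]; ring
      exact mul_right_cancel₀ Real.pi_ne_zero h3
    have h2 : n * (m : ℤ) = k := by exact_mod_cast h1
    rw [← h2, mul_comm]
  · rintro ⟨n, rfl⟩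
    refine ⟨n, ?_⟩
    push_cast
    field_simp

theorem sn_m (hm : 2 ≤ m) : sn m m = 0 := (sn_eq_zero hm).2 (dvd_refl _)

theorem sn_m_sub (hm : 2 ≤ m) (k : ℤ) : sn m (m - k) = sn m k := by
  have hm0 : (m : ℝ) ≠ 0 := by
    have : m ≠ 0 := by omega
    exact_mod_cast this
  unfold sn
  have h1 : (((m : ℤ) - k : ℤ) : ℝ) * (Real.pi / m) = Real.pi - k * (Real.pi / m) := by
    push_cast; field_simp
  rw [h1, Real.sin_pi_sub]

theorem sn_m_add (hm : 2 ≤ m) (k : ℤ) : sn m (m + k) = - sn m k := by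
  rw [← sub_neg_eq_add, sn_m_sub hm, sn_neg]

theorem cc_pos (hm : 3 ≤ m) : 0 < cc m := by
  unfold cc
  have h1 : (3 : ℝ) ≤ m := by exact_mod_cast hm
  have h2 : 0 < Real.cos (Real.pi / m) := by
    apply Real.cos_pos_of_mem_Ioo
    constructor
    · have : 0 < Real.pi / m := by positivity
      linarith [Real.pi_pos]
    · rw [div_lt_div_iff₀ (by linarith) (by norm_num)]
      nlinarith [Real.pi_pos]
  linarith

theorem cc_two : cc 2 = 0 := by
  unfold cc
  rw [Nat.cast_ofNat, Real.cos_pi_div_two, mul_zero]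

theorem sn_two (hm : 2 ≤ m) : sn m 2 = cc m := by
  have := sn_rec (m := m) 1
  rw [show (1 : ℤ) + 1 = 2 by norm_num, show (1 : ℤ) - 1 = 0 by norm_num, sn_zero, sn_one hm] at this
  linarith

end Pool.Agent.AR
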