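import Pool.Agent.Lib.MP_d24c19_al.Grp
import Pool.Agent.Lib.MP_d24c19_al.Sn

set_option autoImplicit false

/-! The generalised Burau representation with sources: definitions. -/

namespace Pool.Agent.AR

open Polynomial

/-- the field `ℝ(q)` -/
abbrev KK : Type := FractionRing (Polynomial ℝ)

/-- real polynomials in `q` -/
noncomputable def tK : Polynomial ℝ →+* KK := algebraMap (Polynomial ℝ) KK

/-- the variable -/
noncomputable def qq : KK := tK X

theorem tK_inj : Function.Injective tK := IsFractionRing.injective (Polynomial ℝ) KK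

theorem qq_ne : qq ≠ 0 := by
  unfold qq
  rw [Ne, map_eq_zero_iff _ tK_inj]
  exact X_ne_zero

/-- the index set `α_s, ω_s` -/
abbrev I0 (n : ℕ) : Type := Fin n ⊕ Fin n

section
variable {n : ℕ} (M : CoxeterMatrix (Fin n))

/-- `β_rs`, with `β_rs β_sr = q` -/
noncomputable def bet (r s : Fin n) : KK := if r < s then 1 else qq

theorem bet_mul {r s : Fin n} (h : r ≠ s) : bet r s * bet s r = qq := by
  unfold bet
  rcases lt_or_gt_of_ne h with h | h
  · rw [if_pos h, if_neg (not_lt.2 h.le), one_mul]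
  · rw [if_neg (not_lt.2 h.le), if_pos h, mul_one]

theorem bet_ne (r s : Fin n) : bet r s ≠ 0 := by
  unfold bet
  split_ifs
  · exact one_ne_zero
  · exact qq_ne

/-- `c_st = 2 cos (π / m_st)` -/
noncomputable def cf (s t : Fin n) : KK := tK (C (cc (M.M s t)))

/-- `α_s` (also the coordinate `w_s`, as a row) -/
noncomputable def al (s : Fin n) : I0 n → KK := Pi.single (Sum.inl s) 1

/-- `ω_a` -/
noncomputable def om (a : Fin n) : I0 n → KK := Pi.single (Sum.inr a) 1

/-- the form `f_s` -/
noncomputable def fv (s : Fin n) : I0 n → KK :=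
  Sum.elim (fun t => if t = s then 1 + qq else -(cf M s t * bet s t))
    (fun a => if a = s then -1 else 0)

/-- `x_s v = v - f_s(v) α_s` -/
noncomputable def xm (s : Fin n) : Matrix (I0 n) (I0 n) KK := 1 - Matrix.vecMulVec (al s) (fv M s)

/-- the inverse -/
noncomputable def xm' (s : Fin n) : Matrix (I0 n) (I0 n) KK :=
  1 - qq⁻¹ • Matrix.vecMulVec (al s) (fv M s)

theorem fv_al_self (s : Fin n) : fv M s ⬝ᵥ al s = 1 + qq := by
  unfold al
  rw [dotProduct_single, mul_one]
  simp [fv]

theorem fv_al {s t : Fin n} (h : s ≠ t) : fv M s ⬝ᵥ al t = -(cf M s t * bet s t) := by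
  unfold al
  rw [dotProduct_single, mul_one]
  simp [fv, h.symm]

theorem fv_om (s a : Fin n) : fv M s ⬝ᵥ om a = if a = s then -1 else 0 := by
  unfold om
  rw [dotProduct_single, mul_one]
  simp [fv]

theorem xm_mulVec (s : Fin n) (v : I0 n → KK) :
    (xm M s).mulVec v = v - (fv M s ⬝ᵥ v) • al s := by
  unfold xm
  rw [Matrix.sub_mulVec, Matrix.one_mulVec, Matrix.vecMulVec_mulVec, op_smul_eq_smul]

theorem xm'_mulVec (s : Fin n) (v : I0 n → KK) :
    (xm' M s).mulVec v = v - (qq⁻¹ * (fv M s ⬝ᵥ v)) • al s := by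
  unfold xm'
  rw [Matrix.sub_mulVec, Matrix.one_mulVec, Matrix.smul_mulVec, Matrix.vecMulVec_mulVec,
    op_smul_eq_smul, mul_smul]

theorem xm_mul (s : Fin n) : xm M s * xm' M s = 1 := by
  apply Matrix.ext_of_mulVec_single
  intro i
  rw [← Matrix.mulVec_mulVec, xm_mulVec, xm'_mulVec, Matrix.one_mulVec]
  rw [dotProduct_sub, dotProduct_smul, fv_al_self, sub_sub, ← add_smul]
  rw [sub_eq_self, smul_eq_zero]
  left
  have := qq_ne
  simp only [smul_eq_mul]
  field_simp
  ring

theorem xm_mul' (s : Fin n) : xm' M s * xm M s = 1 := by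
  apply Matrix.ext_of_mulVec_single
  intro i
  rw [← Matrix.mulVec_mulVec, xm'_mulVec, xm_mulVec, Matrix.one_mulVec]
  rw [dotProduct_sub, dotProduct_smul, fv_al_self, sub_sub, ← add_smul]
  rw [sub_eq_self, smul_eq_zero]
  left
  have := qq_ne
  simp only [smul_eq_mul]
  field_simp
  ring

/-- the matrix of `x_s` as a unit -/
noncomputable def xu (s : Fin n) : (Matrix (I0 n) (I0 n) KK)ˣ :=
  ⟨xm M s, xm' M s, xm_mul M s, xm_mul' M s⟩

end

end Pool.Agent.AR
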