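import Pool.Agent.Lib.MP_d24c19_al.Grp
import Pool.Agent.Lib.MP_d24c19_al.Sn

set_option autoImplicit false

/-! The braid relation of length `m` for the `2 × 2` matrices. -/

namespace Pool.Agent.AR

section
variable {K : Type*} [Field K] (f : ℝ →+* K) (q b b' : K) (c : K)

/-- the matrix of `s` -/
def S2 : Matrix (Fin 2) (Fin 2) K := !![-q, c * b; 0, 1]

/-- the matrix of `t` -/
def T2 : Matrix (Fin 2) (Fin 2) K := !![1, 0; c * b', -q]

/-- the matrix of `(st)^k`, up to `q^k` -/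
noncomputable def M2 (m : ℕ) (k : ℤ) : Matrix (Fin 2) (Fin 2) K :=
  !![f (sn m (2 * k + 1)), -(b * f (sn m (2 * k))); b⁻¹ * f (sn m (2 * k)), - f (sn m (2 * k - 1))]

variable {f q b b' c}

theorem ST_pow {m : ℕ} (hm : 2 ≤ m) (hc : c = f (cc m)) (hb : b * b' = q) (hb0 : b ≠ 0) (k : ℕ) :
    (S2 q b c * T2 q b' c) ^ k = q ^ k • M2 f b m k := by
  induction k with
  | zero =>
    rw [pow_zero, pow_zero, one_smul]
    unfold M2
    have h1 : sn m (2 * ((0 : ℕ) : ℤ) + 1) = 1 := by rw [Nat.cast_zero, mul_zero, zero_add, sn_one hm]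
    have h2 : sn m (2 * ((0 : ℕ) : ℤ)) = 0 := by rw [Nat.cast_zero, mul_zero, sn_zero]
    have h3 : sn m (2 * ((0 : ℕ) : ℤ) - 1) = -1 := by
      rw [Nat.cast_zero, mul_zero, zero_sub, sn_neg, sn_one hm]
    rw [h1, h2, h3]
    ext i j
    fin_cases i <;> fin_cases j <;> simp
  | succ k ih =>
    have e1 : sn m (2 * ((k + 1 : ℕ) : ℤ)) = cc m * sn m (2 * k + 1) - sn m (2 * k) := by
      rw [show 2 * ((k + 1 : ℕ) : ℤ) = (2 * k + 1) + 1 by push_cast; ring, sn_rec,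
        show 2 * (k : ℤ) + 1 - 1 = 2 * k by ring]
    have e2 : sn m (2 * ((k + 1 : ℕ) : ℤ) + 1) = cc m * sn m (2 * ((k + 1 : ℕ) : ℤ)) - sn m (2 * k + 1) := by
      rw [sn_rec, show 2 * ((k + 1 : ℕ) : ℤ) - 1 = 2 * k + 1 by push_cast; ring]
    have e3 : sn m (2 * ((k + 1 : ℕ) : ℤ) - 1) = sn m (2 * k + 1) := by
      rw [show 2 * ((k + 1 : ℕ) : ℤ) - 1 = 2 * k + 1 by push_cast; ring]
    have e4 : sn m (2 * (k : ℤ) - 1) = cc m * sn m (2 * k) - sn m (2 * k + 1) := by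
      have := sn_rec (m := m) (2 * k)
      linarith
    rw [pow_succ, ih]
    unfold M2 S2 T2
    rw [e3, e2, e1, e4]
    simp only [map_sub, map_mul]
    rw [← hc, ← hb]
    ext i j
    fin_cases i <;> fin_cases j <;>
      simp [Matrix.mul_apply, Fin.sum_univ_two, pow_succ] <;> field_simp <;> ring

theorem TS_pow {m : ℕ} (hm : 2 ≤ m) (hc : c = f (cc m)) (hb : b * b' = q) (hb0 : b' ≠ 0) (k : ℕ) :
    (T2 q b' c * S2 q b c) ^ k = q ^ k • !![-f (sn m (2 * k - 1)), b'⁻¹ * f (sn m (2 * k));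
      -(b' * f (sn m (2 * k))), f (sn m (2 * k + 1))] := by
  induction k with
  | zero =>
    rw [pow_zero, pow_zero, one_smul]
    have h1 : sn m (2 * ((0 : ℕ) : ℤ) + 1) = 1 := by rw [Nat.cast_zero, mul_zero, zero_add, sn_one hm]
    have h2 : sn m (2 * ((0 : ℕ) : ℤ)) = 0 := by rw [Nat.cast_zero, mul_zero, sn_zero]
    have h3 : sn m (2 * ((0 : ℕ) : ℤ) - 1) = -1 := by
      rw [Nat.cast_zero, mul_zero, zero_sub, sn_neg, sn_one hm]
    rw [h1, h2, h3]
    ext i j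
    fin_cases i <;> fin_cases j <;> simp
  | succ k ih =>
    have e1 : sn m (2 * ((k + 1 : ℕ) : ℤ)) = cc m * sn m (2 * k + 1) - sn m (2 * k) := by
      rw [show 2 * ((k + 1 : ℕ) : ℤ) = (2 * k + 1) + 1 by push_cast; ring, sn_rec,
        show 2 * (k : ℤ) + 1 - 1 = 2 * k by ring]
    have e2 : sn m (2 * ((k + 1 : ℕ) : ℤ) + 1) = cc m * sn m (2 * ((k + 1 : ℕ) : ℤ)) - sn m (2 * k + 1) := by
      rw [sn_rec, show 2 * ((k + 1 : ℕ) : ℤ) - 1 = 2 * k + 1 by push_cast; ring]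
    have e3 : sn m (2 * ((k + 1 : ℕ) : ℤ) - 1) = sn m (2 * k + 1) := by
      rw [show 2 * ((k + 1 : ℕ) : ℤ) - 1 = 2 * k + 1 by push_cast; ring]
    have e4 : sn m (2 * (k : ℤ) - 1) = cc m * sn m (2 * k) - sn m (2 * k + 1) := by
      have := sn_rec (m := m) (2 * k)
      linarith
    rw [pow_succ, ih]
    unfold S2 T2
    rw [e3, e2, e1, e4]
    simp only [map_sub, map_mul]
    rw [← hc, ← hb]
    ext i j
    fin_cases i <;> fin_cases j <;>
      simp [Matrix.mul_apply, Fin.sum_univ_two, pow_succ] <;> field_simp <;> ring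

/-- the braid relation of length `m` -/
theorem rel2 {m : ℕ} (hm : 2 ≤ m) (hc : c = f (cc m)) (hb : b * b' = q) (hb0 : b ≠ 0) (hb0' : b' ≠ 0) :
    alt m (S2 q b c) (T2 q b' c) = alt m (T2 q b' c) (S2 q b c) := by
  rcases Nat.even_or_odd' m with ⟨h, hh | hh⟩
  · have e1 : sn m (2 * (h : ℤ)) = 0 := by
      rw [show 2 * (h : ℤ) = (m : ℤ) by rw [hh]; push_cast; ring, sn_m hm]
    have e2 : sn m (2 * (h : ℤ) + 1) = -1 := by
      rw [show 2 * (h : ℤ) = (m : ℤ) by rw [hh]; push_cast; ring, sn_m_add hm, sn_one hm]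
    have e3 : sn m (2 * (h : ℤ) - 1) = 1 := by
      rw [show 2 * (h : ℤ) = (m : ℤ) by rw [hh]; push_cast; ring, sn_m_sub hm, sn_one hm]
    have h1 := ST_pow hm hc hb hb0 h
    have h2 := TS_pow hm hc hb hb0' h
    unfold M2 at h1
    rw [e1, e2, e3] at h1 h2
    have h3 : ∀ x y : Matrix (Fin 2) (Fin 2) K, alt m x y = (x * y) ^ h := by
      intro x y
      rw [show alt m x y = alt (2 * h) x y by rw [← hh], alt_even]
    rw [h3, h3, h1, h2]
    simp
  · have e1 : sn m (2 * (h : ℤ) + 1) = 0 := by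
      rw [show 2 * (h : ℤ) + 1 = (m : ℤ) by rw [hh]; push_cast; ring, sn_m hm]
    have e2 : sn m (2 * (h : ℤ)) = 1 := by
      rw [show 2 * (h : ℤ) = (m : ℤ) - 1 by rw [hh]; push_cast; ring, sn_m_sub hm, sn_one hm]
    have e3 : sn m (2 * (h : ℤ) - 1) = cc m := by
      rw [show 2 * (h : ℤ) - 1 = (m : ℤ) - 2 by rw [hh]; push_cast; ring, sn_m_sub hm, sn_two hm]
    have h1 := ST_pow hm hc hb hb0 h
    unfold M2 at h1
    rw [e1, e2, e3] at h1
    have h3 : ∀ x y : Matrix (Fin 2) (Fin 2) K, alt m x y = (x * y) ^ h * x := by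
      intro x y
      rw [show alt m x y = alt (2 * h + 1) x y by rw [← hh], alt_odd]
    have h4 : ∀ x y : Matrix (Fin 2) (Fin 2) K, alt m x y = x * (y * x) ^ h := by
      intro x y
      rw [show alt m x y = alt (2 * h + 1) x y by rw [← hh], alt_odd']
    rw [h3, h4 (T2 q b' c), h1, ← hc]
    unfold S2 T2
    rw [← hb]
    ext i j
    fin_cases i <;> fin_cases j <;>
      simp [Matrix.mul_apply, Fin.sum_univ_two] <;> field_simp <;> ring

end

end Pool.Agent.AR
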