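import Pool.Agent.Lib.MP_d24c19_al.Bdef
import Pool.Agent.Lib.MP_d24c19_al.Two

set_option autoImplicit false

/-! The generalised Burau representation with sources. -/

namespace Pool.Agent.AR

open Polynomial

section theta
variable {K : Type*} [Field K] {ι : Type*} [Fintype ι] [DecidableEq ι]
  (P : Matrix ι (Fin 2) K) (F : Matrix (Fin 2) ι K) (Φ Φi : Matrix (Fin 2) (Fin 2) K)

/-- `2 × 2` matrices act -/
noncomputable def theta (h : F * P = Φ) (hi : Φi * Φ = 1) :
    Matrix (Fin 2) (Fin 2) K →* Matrix ι ι K where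
  toFun X := 1 + P * (X - 1) * Φi * F
  map_one' := by rw [sub_self, Matrix.mul_zero, Matrix.zero_mul, Matrix.zero_mul, add_zero]
  map_mul' X Y := by
    have h1 : P * (X - 1) * Φi * F * (P * (Y - 1) * Φi * F) = P * ((X - 1) * (Y - 1)) * Φi * F := by
      calc P * (X - 1) * Φi * F * (P * (Y - 1) * Φi * F)
          = P * (X - 1) * (Φi * (F * P)) * (Y - 1) * Φi * F := by simp only [Matrix.mul_assoc]
        _ = _ := by rw [h, hi, Matrix.mul_one]; simp only [Matrix.mul_assoc]
    have h2 : X * Y - 1 = (X - 1) + (Y - 1) + (X - 1) * (Y - 1) := by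
      rw [Matrix.sub_mul, Matrix.mul_sub, Matrix.mul_one, Matrix.one_mul]
      abel
    rw [Matrix.mul_add, Matrix.add_mul, Matrix.one_mul, Matrix.add_mul, Matrix.one_mul,
      Matrix.mul_one, h1, h2]
    simp only [Matrix.mul_add, Matrix.add_mul, Matrix.mul_one, Matrix.one_mul]
    abel

end theta

section
variable {n : ℕ} (M : CoxeterMatrix (Fin n))

theorem cf_symm (s t : Fin n) : cf M s t = cf M t s := by
  unfold cf
  have : M.M s t = M.M t s := M.isSymm.apply t s
  rw [this]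

/-- the determinant `(1+q)^2 - c^2 q` -/
noncomputable def DD (s t : Fin n) : KK := (1 + qq) ^ 2 - cf M s t ^ 2 * qq

theorem DD_ne (s t : Fin n) : DD M s t ≠ 0 := by
  have h1 : DD M s t = tK ((1 + X) ^ 2 - C (cc (M.M s t)) ^ 2 * X) := by
    unfold DD cf qq
    simp only [map_sub, map_pow, map_add, map_one, map_mul]
  rw [h1, Ne, map_eq_zero_iff _ tK_inj]
  intro h0
  have h2 := congrArg (Polynomial.eval 0) h0
  simp at h2

/-- the two columns `α_s, α_t` -/
noncomputable def PP (s t : Fin n) : Matrix (I0 n) (Fin 2) KK := Matrix.of fun i j => ![al s i, al t i] j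

/-- the two rows `f_s, f_t` -/
noncomputable def FF (s t : Fin n) : Matrix (Fin 2) (I0 n) KK := Matrix.of ![fv M s, fv M t]

/-- the Gram matrix -/
noncomputable def Ph (s t : Fin n) : Matrix (Fin 2) (Fin 2) KK :=
  !![1 + qq, -(cf M s t * bet s t); -(cf M s t * bet t s), 1 + qq]

/-- its inverse -/
noncomputable def Phi' (s t : Fin n) : Matrix (Fin 2) (Fin 2) KK :=
  (DD M s t)⁻¹ • !![1 + qq, cf M s t * bet s t; cf M s t * bet t s, 1 + qq]

theorem FP (s t : Fin n) (h : s ≠ t) : FF M s t * PP s t = Ph M s t := by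
  have e : ∀ (i j : Fin 2), (FF M s t * PP s t) i j = (![fv M s, fv M t] i) ⬝ᵥ (![al s, al t] j) := by
    intro i j
    rw [Matrix.mul_apply]
    unfold dotProduct
    apply Finset.sum_congr rfl
    intro x _
    fin_cases i <;> fin_cases j <;> rfl
  ext i j
  rw [e]
  fin_cases i <;> fin_cases j
  · exact fv_al_self M s
  · exact fv_al M h
  · change fv M t ⬝ᵥ al s = _
    rw [fv_al M h.symm, cf_symm]
    rfl
  · exact fv_al_self M t

theorem Ph_inv (s t : Fin n) (h : s ≠ t) : Phi' M s t * Ph M s t = 1 := by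
  unfold Phi' Ph
  rw [Matrix.smul_mul]
  have h1 : (!![1 + qq, cf M s t * bet s t; cf M s t * bet t s, 1 + qq] : Matrix (Fin 2) (Fin 2) KK) *
      !![1 + qq, -(cf M s t * bet s t); -(cf M s t * bet t s), 1 + qq] = DD M s t • 1 := by
    unfold DD
    rw [← bet_mul h]
    ext i j
    fin_cases i <;> fin_cases j <;> simp [Matrix.mul_apply, Fin.sum_univ_two] <;> ring
  rw [h1, smul_smul, inv_mul_cancel₀ (DD_ne M s t), one_smul]

theorem Ph_inv' (s t : Fin n) (h : s ≠ t) : Ph M s t * Phi' M s t = 1 :=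
  mul_eq_one_comm.1 (Ph_inv M s t h)

/-- the homomorphism from the `2 × 2` matrices -/
noncomputable def th (s t : Fin n) (h : s ≠ t) : Matrix (Fin 2) (Fin 2) KK →* Matrix (I0 n) (I0 n) KK :=
  theta (PP s t) (FF M s t) (Ph M s t) (Phi' M s t) (FP M s t h) (Ph_inv M s t h)

theorem th_apply (s t : Fin n) (h : s ≠ t) (X : Matrix (Fin 2) (Fin 2) KK) :
    th M s t h X = 1 + PP s t * (X - 1) * Phi' M s t * FF M s t := rfl

theorem th_S (s t : Fin n) (h : s ≠ t) : th M s t h (S2 qq (bet s t) (cf M s t)) = xm M s := by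
  rw [th_apply]
  have h1 : S2 qq (bet s t) (cf M s t) - 1 = -(!![1, 0; 0, 0] * Ph M s t) := by
    unfold S2 Ph
    ext i j
    fin_cases i <;> fin_cases j <;> simp [Matrix.mul_apply, Fin.sum_univ_two]
    ring
  rw [h1, Matrix.mul_neg, Matrix.neg_mul, Matrix.mul_assoc (PP s t), Matrix.mul_assoc _ (Ph M s t),
    Ph_inv' M s t h, Matrix.mul_one, Matrix.neg_mul, ← sub_eq_add_neg]
  unfold xm
  congr 1
  ext i j
  simp [Matrix.mul_apply, Fin.sum_univ_two, PP, FF, Matrix.vecMulVec_apply]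

theorem th_T (s t : Fin n) (h : s ≠ t) : th M s t h (T2 qq (bet t s) (cf M s t)) = xm M t := by
  rw [th_apply]
  have h1 : T2 qq (bet t s) (cf M s t) - 1 = -(!![0, 0; 0, 1] * Ph M s t) := by
    unfold T2 Ph
    ext i j
    fin_cases i <;> fin_cases j <;> simp [Matrix.mul_apply, Fin.sum_univ_two]
    ring
  rw [h1, Matrix.mul_neg, Matrix.neg_mul, Matrix.mul_assoc (PP s t), Matrix.mul_assoc _ (Ph M s t),
    Ph_inv' M s t h, Matrix.mul_one, Matrix.neg_mul, ← sub_eq_add_neg]
  unfold xm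
  congr 1
  ext i j
  simp [Matrix.mul_apply, Fin.sum_univ_two, PP, FF, Matrix.vecMulVec_apply]

theorem xm_rel (s t : Fin n) (h : s ≠ t) (h2 : 2 ≤ M.M s t) :
    alt (M.M s t) (xm M s) (xm M t) = alt (M.M s t) (xm M t) (xm M s) := by
  have h3 := rel2 (f := tK.comp C) (q := qq) (c := cf M s t) h2 rfl (bet_mul h) (bet_ne s t) (bet_ne t s)
  have h4 := congrArg (th M s t h) h3
  rwa [alt_map, alt_map, th_S, th_T] at h4

theorem xu_rel (i j : Fin n) (hij : M.M i j ≠ 0) :
    alt (M.M i j) (xu M i) (xu M j) = alt (M.M i j) (xu M j) (xu M i) := by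
  by_cases h : i = j
  · rw [h]
  · have h1 : M.M i j ≠ 1 := M.off_diagonal i j h
    apply Units.ext
    have e : ∀ x y : (Matrix (I0 n) (I0 n) KK)ˣ,
        ((alt (M.M i j) x y : (Matrix (I0 n) (I0 n) KK)ˣ) : Matrix (I0 n) (I0 n) KK) =
          alt (M.M i j) (x : Matrix (I0 n) (I0 n) KK) (y : Matrix (I0 n) (I0 n) KK) :=
      fun x y => alt_map (Units.coeHom _) _ x y
    rw [e, e]
    exact xm_rel M i j h (by omega)

/-- the generalised Burau representation with sources -/
noncomputable def rB : Art M →* (Matrix (I0 n) (I0 n) KK)ˣ := artLift (xu M) (xu_rel M)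

theorem rB_gen (s : Fin n) : (rB M (gen M s) : Matrix (I0 n) (I0 n) KK) = xm M s := by
  unfold rB
  rw [artLift_gen]
  rfl

theorem rB_gen_inv (s : Fin n) : (rB M (gen M s)⁻¹ : Matrix (I0 n) (I0 n) KK) = xm' M s := by
  unfold rB
  rw [map_inv, artLift_gen]
  rfl

/-- the matrix coefficient `w_b (g ω_a)` -/
noncomputable def Psi (g : Art M) (b a : Fin n) : KK :=
  (rB M g : Matrix (I0 n) (I0 n) KK) (Sum.inl b) (Sum.inr a)

theorem om_fix {r a : Fin n} (h : r ≠ a) : (rB M (gen M r) : Matrix (I0 n) (I0 n) KK).mulVec (om a) = om a := by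
  rw [rB_gen, xm_mulVec, fv_om, if_neg h.symm, zero_smul, sub_zero]

theorem w_fix {r b : Fin n} (h : r ≠ b) :
    Matrix.vecMul (al b) (rB M (gen M r) : Matrix (I0 n) (I0 n) KK) = al b := by
  rw [rB_gen]
  unfold xm
  rw [Matrix.vecMul_sub, Matrix.vecMul_one, Matrix.vecMul_vecMulVec]
  have h1 : al b ⬝ᵥ al r = 0 := by
    unfold al
    rw [dotProduct_single, mul_one, Pi.single_apply, if_neg]
    intro h2
    exact h (Sum.inl_injective h2)
  rw [h1, zero_smul, sub_zero]

end

end Pool.Agent.AR
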