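import Pool.Agent.Lib.MP_d24c19_al.Cdef

set_option autoImplicit false

/-!
ROW C1: top coefficients.  Everything is a finite sum of products; natDegree bounds by
natDegree_sum_le / natDegree_mul_le, coefficients of `X * p` by coeff_X_mul.
hatM ea ea' B *ᵥ u = B u - X (ea'.u) B ea + X (ea' . B u) ea - X^2 (ea'.u)(ea' . B ea) ea.
-/

namespace Pool.Agent.AR


open Polynomial

variable {ι R : Type} [Fintype ι] [DecidableEq ι] [CommRing R]

private theorem C1_mul (ea ea' : ι → R) (u : ι → R[X]) :
    ((Polynomial.X : Polynomial R) • (Matrix.vecMulVec ea ea').map Polynomial.C).mulVec u =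
      fun i => X * (C (ea i) * dotProduct (cvec ea') u) := by
  funext i
  simp only [Matrix.mulVec, dotProduct, Matrix.smul_apply, Matrix.map_apply, Matrix.vecMulVec_apply,
    smul_eq_mul, cvec, Finset.mul_sum, C_mul]
  refine Finset.sum_congr rfl fun j _ => ?_
  ring

private theorem C1_dot (w' : ι → R) (u : ι → R[X]) (d : ℕ) (w : ι → R) (h : Top u d w) :
    (dotProduct (cvec w') u).natDegree ≤ d ∧ (dotProduct (cvec w') u).coeff d = dotProduct w' w := by
  constructor
  · simp only [dotProduct, cvec]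
    refine Polynomial.natDegree_sum_le_of_forall_le _ _ fun i _ => ?_
    exact (Polynomial.natDegree_C_mul_le _ _).trans (h.1 i)
  · simp only [dotProduct, cvec, Polynomial.finsetSum_coeff, Polynomial.coeff_C_mul, h.2]

private theorem C1_X (p : R[X]) (d : ℕ) (c : R) (h : p.natDegree ≤ d) (h' : p.coeff d = c)
    (e : R) : (X * (C e * p)).natDegree ≤ d + 1 ∧ (X * (C e * p)).coeff (d + 1) = e * c := by
  constructor
  · refine Polynomial.natDegree_mul_le.trans ?_
    have h1 : (X : R[X]).natDegree ≤ 1 := Polynomial.natDegree_X_le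
    have h2 := (Polynomial.natDegree_C_mul_le e p).trans h
    omega
  · rw [Polynomial.coeff_X_mul, Polynomial.coeff_C_mul, h']

private theorem C1_coeff0 (p : R[X]) (d : ℕ) (h : p.natDegree ≤ d) : p.coeff (d + 1) = 0 :=
  Polynomial.coeff_eq_zero_of_natDegree_lt (by omega)

private theorem C1_plus (ea ea' : ι → R) (u : ι → R[X]) (d : ℕ) (w : ι → R) (h : Top u d w) :
    Top (((1 : Matrix ι ι R[X]) +
      (Polynomial.X : Polynomial R) • (Matrix.vecMulVec ea ea').map Polynomial.C).mulVec u) (d + 1)
      (dotProduct ea' w • ea) := by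
  rw [Matrix.add_mulVec, Matrix.one_mulVec, C1_mul]
  have hd := C1_dot ea' u d w h
  constructor
  · intro i
    have hx := C1_X _ d _ hd.1 hd.2 (ea i)
    refine Polynomial.natDegree_add_le_of_degree_le ((h.1 i).trans (by omega)) hx.1
  · intro i
    have hx := C1_X _ d _ hd.1 hd.2 (ea i)
    rw [Pi.add_apply, Polynomial.coeff_add, C1_coeff0 _ d (h.1 i), hx.2, Pi.smul_apply, smul_eq_mul]
    ring

private theorem C1_minus (ea ea' : ι → R) (u : ι → R[X]) (d : ℕ) (w : ι → R) (h : Top u d w) :
    Top (((1 : Matrix ι ι R[X]) -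
      (Polynomial.X : Polynomial R) • (Matrix.vecMulVec ea ea').map Polynomial.C).mulVec u) (d + 1)
      ((-dotProduct ea' w) • ea) := by
  rw [Matrix.sub_mulVec, Matrix.one_mulVec, C1_mul]
  have hd := C1_dot ea' u d w h
  constructor
  · intro i
    have hx := C1_X _ d _ hd.1 hd.2 (ea i)
    refine (Polynomial.natDegree_sub_le _ _).trans (max_le ?_ hx.1)
    exact (h.1 i).trans (by omega)
  · intro i
    have hx := C1_X _ d _ hd.1 hd.2 (ea i)
    rw [Pi.sub_apply, Polynomial.coeff_sub, C1_coeff0 _ d (h.1 i), hx.2, Pi.smul_apply, smul_eq_mul]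
    ring

theorem top_cvec (w : ι → R) : Top (cvec w) 0 w := by
  constructor
  · intro i
    simp [cvec]
  · intro i
    simp [cvec]

theorem top_map (A : Matrix ι ι R) (u : ι → R[X]) (d : ℕ) (w : ι → R) (h : Top u d w) :
    Top ((A.map Polynomial.C).mulVec u) d (A.mulVec w) :=
  ⟨fun i => (C1_dot (A i) u d w h).1, fun i => (C1_dot (A i) u d w h).2⟩

theorem top_hat (ea ea' : ι → R) (B : Matrix ι ι R) (u : ι → R[X]) (d : ℕ) (w : ι → R)
    (h : Top u d w) :
    Top ((hatM ea ea' B).mulVec u) (d + 2)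
      ((-(dotProduct ea' (B.mulVec ea) * dotProduct ea' w)) • ea) := by
  have h1 := C1_minus ea ea' u d w h
  have h2 := top_map B _ _ _ h1
  have h3 := C1_plus ea ea' _ _ _ h2
  rw [Matrix.mulVec_mulVec, Matrix.mulVec_mulVec] at h3
  have e : dotProduct ea' (B.mulVec ((-dotProduct ea' w) • ea)) =
      -(dotProduct ea' (B.mulVec ea) * dotProduct ea' w) := by
    rw [Matrix.mulVec_smul, dotProduct_smul, smul_eq_mul]
    ring
  rw [e] at h3
  exact h3

theorem top_hat0 (ea ea' : ι → R) (B : Matrix ι ι R) (w : ι → R) (h : dotProduct ea' w = 0) :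
    Top ((hatM ea ea' B).mulVec (cvec w)) 1 ((dotProduct ea' (B.mulVec w)) • ea) := by
  have h0 : dotProduct (cvec ea') (cvec w) = 0 := by
    have : dotProduct (cvec ea') (cvec w) = C (dotProduct ea' w) := by
      simp only [dotProduct, cvec, map_sum, map_mul]
    rw [this, h, map_zero]
  have h1 : ((1 : Matrix ι ι R[X]) -
      (Polynomial.X : Polynomial R) • (Matrix.vecMulVec ea ea').map Polynomial.C).mulVec (cvec w) =
      cvec w := by
    rw [Matrix.sub_mulVec, Matrix.one_mulVec, C1_mul, h0]
    funext i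
    simp
  have h2 := top_map B _ _ _ (top_cvec w)
  have h3 := C1_plus ea ea' _ _ _ h2
  rw [← h1, Matrix.mulVec_mulVec, Matrix.mulVec_mulVec] at h3
  exact h3

theorem top_dot (w' : ι → R) (u : ι → R[X]) (d : ℕ) (w : ι → R) (h : Top u d w) :
    (dotProduct (cvec w') u).coeff d = dotProduct w' w :=
  (C1_dot w' u d w h).2

theorem top_left (ea ea' w' : ι → R) (B : Matrix ι ι R) (u : ι → R[X]) (d : ℕ) (w : ι → R)
    (h : Top u d w) (h0 : dotProduct w' ea = 0) :
    (dotProduct (cvec w') ((hatM ea ea' B).mulVec u)).coeff (d + 1) =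
      -(dotProduct w' (B.mulVec ea) * dotProduct ea' w) := by
  have h1 := C1_minus ea ea' u d w h
  have h2 := top_map B _ _ _ h1
  have h3 : dotProduct (cvec w') ((hatM ea ea' B).mulVec u) = dotProduct (cvec w')
      ((B.map Polynomial.C).mulVec (((1 : Matrix ι ι R[X]) -
      (Polynomial.X : Polynomial R) • (Matrix.vecMulVec ea ea').map Polynomial.C).mulVec u)) := by
    rw [hatM, ← Matrix.mulVec_mulVec, ← Matrix.mulVec_mulVec, Matrix.add_mulVec, Matrix.one_mulVec,
      C1_mul, dotProduct_add]
    have h4 : ∀ p : R[X], dotProduct (cvec w') (fun i => X * (C (ea i) * p)) = 0 := by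
      intro p
      have h5 : dotProduct (cvec w') (fun i => X * (C (ea i) * p)) =
          C (dotProduct w' ea) * (X * p) := by
        simp only [dotProduct, cvec, map_sum, map_mul, Finset.sum_mul]
        refine Finset.sum_congr rfl fun j _ => ?_
        ring
      rw [h5, h0, map_zero, zero_mul]
    rw [h4, add_zero]
  rw [h3, top_dot w' _ _ _ h2, Matrix.mulVec_smul, dotProduct_smul, smul_eq_mul]
  ring

end Pool.Agent.AR
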