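import Pool.Agent.Lib.MP_d24c19_al.Cdef

set_option autoImplicit false

/-!
ROW C2: every element of `P ⊔ Q` is in some `(PQ)^k P`.  The set {g | ∃ k, Alt k g} contains 1, P, Q
(b = 1 * b * 1), is closed under multiplication (Alt k g, Alt l h → Alt (k+l) (g h): induction on k; base: a * h, absorb
a in the first P factor of h) and inverses (Alt k g → Alt k g⁻¹: reverse; or: closed under right multiplication by P and Q elements and use
Subgroup.closure_induction on generators and inverses).
-/

namespace Pool.Agent.AR


variable {G : Type} [Group G] (P Q : Subgroup G)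

theorem Alt.mul_left {P Q : Subgroup G} {k : ℕ} {g : G} (h : Alt P Q k g) (a : G) (ha : a ∈ P) :
    Alt P Q k (a * g) := by
  cases h with
  | base b hb => exact Alt.base _ (P.mul_mem ha hb)
  | step k b c g hb hc hg =>
    have : a * (b * c * g) = (a * b) * c * g := by group
    rw [this]
    exact Alt.step k _ _ _ (P.mul_mem ha hb) hc hg

theorem Alt.mul_right {P Q : Subgroup G} {k : ℕ} {g : G} (h : Alt P Q k g) (a : G) (ha : a ∈ P) :
    Alt P Q k (g * a) := by
  induction h with
  | base b hb => exact Alt.base _ (P.mul_mem hb ha)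
  | step k b c g hb hc hg ih =>
    have : (b * c * g) * a = b * c * (g * a) := by group
    rw [this]
    exact Alt.step k _ _ _ hb hc ih

theorem C2_right {P Q : Subgroup G} {k : ℕ} {g : G} (h : Alt P Q k g) (b : G) (hb : b ∈ Q) :
    Alt P Q (k + 1) (g * b) := by
  induction h with
  | base a ha =>
    have : a * b = a * b * 1 := by group
    rw [this]
    exact Alt.step 0 _ _ _ ha hb (Alt.base _ P.one_mem)
  | step k a c g ha hc hg ih =>
    have : (a * c * g) * b = a * c * (g * b) := by group
    rw [this]
    exact Alt.step (k + 1) _ _ _ ha hc ih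

theorem exists_alt (g : G) (hg : g ∈ P ⊔ Q) : ∃ k, Alt P Q k g := by
  rw [Subgroup.sup_eq_closure] at hg
  induction hg using Subgroup.closure_induction_right with
  | one => exact ⟨0, Alt.base _ P.one_mem⟩
  | mul_right x hx y hy ih =>
    obtain ⟨k, hk⟩ := ih
    rcases hy with hy | hy
    · exact ⟨k, hk.mul_right y hy⟩
    · exact ⟨k + 1, C2_right hk y hy⟩
  | mul_inv_cancel x hx y hy ih =>
    obtain ⟨k, hk⟩ := ih
    rcases hy with hy | hy
    · exact ⟨k, hk.mul_right _ (P.inv_mem hy)⟩
    · exact ⟨k + 1, C2_right hk _ (Q.inv_mem hy)⟩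

end Pool.Agent.AR
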