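import Pool.Agent.Lib.MP_d24c19_al.Cdef
import Pool.Agent.Lib.MP_d24c19_al.C1
import Pool.Agent.Lib.MP_d24c19_al.C2

set_option autoImplicit false

/-!
ROW C3: the key induction (paper: Claim(X), X not a clique).  `D : StepData G ι R`, R a domain.
RMin k g: some g v (v in Ls) is in (PQ)^k P and no g v is in (PQ)^k' P with k' < k.
THEOREM: if k ≥ 1 and RMin k g then there are d ≥ 1, c ≠ 0, a in P, h with g = a h, h in Q (PQ)^(k-1) P Ls, and
Φ g *ᵥ w has top coefficient c • A(a) ea in degree d.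
Proof by induction on k.  Take Alt k (g v) = a * b * g1', set g1 = g1' v^-1; g = a (b g1); Φ g w = Φ (g v) w (hLs).
* b not in N (else a b in P and g v in (PQ)^(k-1) P: Alt.mul_left).
* k = 1: g1' in P.  If ea' . A(g1') w ≠ 0: top_cvec, top_map, top_hat: d = 2, c = -(ea'.B(b)ea)(ea'.A(g1')w) ≠ 0 by ha; then top_map with A(a).
  If it is 0: hc: ea'.w = 0, g1' = n v'; Φ(g1') w = Φ(n) w; b n in Q; top_hat0 with B(b n): d = 1, c = ea' . B(b n) w, non zero by hd
  (else b n = n' v'': g v = a n' v'' v', so g (v v'^-1 v''^-1) = a n' in P: Alt 0, contradiction).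
* k ≥ 2: RMin (k-1) g1; induction: g1 = a1 h1, h1 = b2 g2 with b2 in Q, Alt (k-2) (g2 v2), top coefficient c A(a1) ea.  ea' . A(a1) ea ≠ 0 by hb: else a1 in N,
  b a1 b2 in Q, g = a (b a1 b2) g2, so Alt (k-1) (g v2), contradiction.  top_hat: d + 2, new c = -(ea'.B(b)ea)(ea'.A(a1)ea) c.
-/

namespace Pool.Agent.AR


variable {G ι R : Type} [Group G] [Fintype ι] [DecidableEq ι] [CommRing R] [IsDomain R]

/-- `k` is the minimal length of `g` modulo `Ls` on the right -/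
def RMin (D : StepData G ι R) (k : ℕ) (g : G) : Prop :=
  (∃ v ∈ D.Ls, Alt D.P D.Q k (g * v)) ∧ ∀ k' < k, ∀ v ∈ D.Ls, ¬ Alt D.P D.Q k' (g * v)

theorem C3_inv {P Q : Subgroup G} {n : ℕ} {x : G} (h : Alt P Q (n + 1) x) :
    ∃ a ∈ P, ∃ b ∈ Q, ∃ g, Alt P Q n g ∧ x = a * b * g := by
  cases h with
  | step k a b g ha hb hg => exact ⟨a, ha, b, hb, g, hg, rfl⟩

theorem C3_inv0 {P Q : Subgroup G} {x : G} (h : Alt P Q 0 x) : x ∈ P := by
  cases h with
  | base a ha => exact ha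

omit [IsDomain R] in
/-- one more pair of letters, generic case -/
theorem C3_gen (D : StepData G ι R) (g a b g1 : G) (hg : g = a * (b * g1)) (ha : a ∈ D.P) (hb : b ∈ D.Q)
    (d : ℕ) (x : ι → R) (hT : Top ((D.Φ g1).mulVec (cvec D.w)) d x) :
    Top ((D.Φ g).mulVec (cvec D.w)) (d + 2)
      ((-(dotProduct D.ea' ((D.B b).mulVec D.ea) * dotProduct D.ea' x)) • (D.A a).mulVec D.ea) := by
  have h1 : (D.Φ g).mulVec (cvec D.w) =
      ((D.A a).map Polynomial.C).mulVec ((hatM D.ea D.ea' (D.B b)).mulVec ((D.Φ g1).mulVec (cvec D.w))) := by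
    rw [hg, map_mul, map_mul, D.hP a ha, D.hQ b hb, Matrix.mulVec_mulVec, Matrix.mulVec_mulVec,
      Matrix.mul_assoc]
  rw [h1, ← Matrix.mulVec_smul]
  exact top_map _ _ _ _ (top_hat _ _ _ _ _ _ hT)

theorem step_top (D : StepData G ι R) (k : ℕ) (hk : 1 ≤ k) (g : G) (h : RMin D k g) :
    ∃ d : ℕ, 1 ≤ d ∧ ∃ c : R, c ≠ 0 ∧ ∃ a ∈ D.P, ∃ b ∈ D.Q, ∃ g1 : G, g = a * (b * g1) ∧
      (∃ v ∈ D.Ls, Alt D.P D.Q (k - 1) (g1 * v)) ∧
      Top ((D.Φ g).mulVec (cvec D.w)) d (c • (D.A a).mulVec D.ea) := by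
  induction k generalizing g with
  | zero => omega
  | succ n ih =>
    obtain ⟨⟨v, hv, hAlt⟩, hmin⟩ := h
    obtain ⟨a, ha, b, hb, g1', hg1', hgv⟩ := C3_inv hAlt
    set g1 : G := g1' * v⁻¹ with hg1
    have hg : g = a * (b * g1) := by
      have : g = (g * v) * v⁻¹ := by group
      rw [this, hgv, hg1]; group
    have hg1v : g1 * v = g1' := by rw [hg1]; group
    have hbN : b ∉ D.N := by
      intro hbN
      refine hmin n (Nat.lt_succ_self n) v hv ?_
      rw [hgv]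
      exact Alt.mul_left hg1' (a * b) (D.P.mul_mem ha (D.hNP hbN))
    have hb0 : dotProduct D.ea' ((D.B b).mulVec D.ea) ≠ 0 := fun h0 => hbN (D.ha b hb h0)
    rcases Nat.eq_zero_or_pos n with hn | hn
    · subst hn
      have hg1P : g1' ∈ D.P := C3_inv0 hg1'
      have hΦg1 : (D.Φ g1).mulVec (cvec D.w) = (D.Φ g1').mulVec (cvec D.w) := by
        rw [hg1, map_mul, ← Matrix.mulVec_mulVec, D.hLs _ (D.Ls.inv_mem hv)]
      by_cases hx : dotProduct D.ea' ((D.A g1').mulVec D.w) = 0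
      · obtain ⟨hew, n', hn', v', hv', hg1nv⟩ := D.hc g1' hg1P hx
        have hbn : b * n' ∈ D.Q := D.Q.mul_mem hb (D.hNQ hn')
        have hne : dotProduct D.ea' ((D.B (b * n')).mulVec D.w) ≠ 0 := by
          intro h0
          obtain ⟨m, hm, v'', hv'', hbnm⟩ := D.hd (b * n') hbn hew h0
          refine hmin 0 (Nat.succ_pos 0) (v * v'⁻¹ * v''⁻¹)
            (D.Ls.mul_mem (D.Ls.mul_mem hv (D.Ls.inv_mem hv')) (D.Ls.inv_mem hv'')) ?_
          have : g * (v * v'⁻¹ * v''⁻¹) = a * m := by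
            calc g * (v * v'⁻¹ * v''⁻¹) = (g * v) * v'⁻¹ * v''⁻¹ := by group
              _ = a * (b * n') * v''⁻¹ := by rw [hgv, hg1nv]; group
              _ = a * m := by rw [hbnm]; group
          rw [this]
          exact Alt.base _ (D.P.mul_mem ha (D.hNP hm))
        refine ⟨1, le_rfl, dotProduct D.ea' ((D.B (b * n')).mulVec D.w), hne, a, ha, b, hb, g1, hg,
          ⟨v, hv, by rw [hg1v]; exact hg1'⟩, ?_⟩
        have h1 : (D.Φ g).mulVec (cvec D.w) =
            ((D.A a).map Polynomial.C).mulVec ((hatM D.ea D.ea' (D.B (b * n'))).mulVec (cvec D.w)) := by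
          rw [hg, map_mul, map_mul, D.hP a ha, ← D.hQ (b * n') hbn, ← Matrix.mulVec_mulVec,
            ← Matrix.mulVec_mulVec, hΦg1, hg1nv, map_mul, ← Matrix.mulVec_mulVec, D.hLs _ hv', map_mul,
            ← Matrix.mulVec_mulVec]
        rw [h1, ← Matrix.mulVec_smul]
        exact top_map _ _ _ _ (top_hat0 _ _ _ _ hew)
      · refine ⟨2, by norm_num, -(dotProduct D.ea' ((D.B b).mulVec D.ea) *
          dotProduct D.ea' ((D.A g1').mulVec D.w)), neg_ne_zero.mpr (mul_ne_zero hb0 hx), a, ha, b, hb, g1, hg,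
          ⟨v, hv, by rw [hg1v]; exact hg1'⟩, ?_⟩
        have hT : Top ((D.Φ g1).mulVec (cvec D.w)) 0 ((D.A g1').mulVec D.w) := by
          rw [hΦg1, D.hP _ hg1P]
          exact top_map _ _ _ _ (top_cvec _)
        exact C3_gen D g a b g1 hg ha hb 0 _ hT
    · have hR : RMin D n g1 := by
        refine ⟨⟨v, hv, by rw [hg1v]; exact hg1'⟩, ?_⟩
        intro k' hk' v' hv' hA
        refine hmin (k' + 1) (by omega) v' hv' ?_
        have : g * v' = a * b * (g1 * v') := by rw [hg]; group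
        rw [this]
        exact Alt.step k' a b _ ha hb hA
      obtain ⟨d, hd, c, hc, a1, ha1, b2, hb2, g2, hg1e, ⟨v2, hv2, hA2⟩, hT⟩ := ih hn g1 hR
      have hne : dotProduct D.ea' ((D.A a1).mulVec D.ea) ≠ 0 := by
        intro h0
        have ha1N := D.hb a1 ha1 h0
        refine hmin n (Nat.lt_succ_self n) v2 hv2 ?_
        have : g * v2 = a * (b * a1 * b2) * (g2 * v2) := by rw [hg, hg1e]; group
        rw [this]
        have h3 := Alt.step (P := D.P) (Q := D.Q) (n - 1) a (b * a1 * b2) (g2 * v2) ha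
          (D.Q.mul_mem (D.Q.mul_mem hb (D.hNQ ha1N)) hb2) hA2
        have hn1 : n - 1 + 1 = n := by omega
        rwa [hn1] at h3
      refine ⟨d + 2, by omega, -(dotProduct D.ea' ((D.B b).mulVec D.ea) *
          dotProduct D.ea' (c • (D.A a1).mulVec D.ea)), ?_, a, ha, b, hb, g1, hg,
          ⟨v, hv, by rw [hg1v]; exact hg1'⟩, C3_gen D g a b g1 hg ha hb d _ hT⟩
      rw [dotProduct_smul, smul_eq_mul]
      exact neg_ne_zero.mpr (mul_ne_zero hb0 (mul_ne_zero hc hne))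

end Pool.Agent.AR
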