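import Pool.Agent.Lib.MP_d24c19_al.Cdef
import Pool.Agent.Lib.MP_d24c19_al.C1
import Pool.Agent.Lib.MP_d24c19_al.C2
import Pool.Agent.Lib.MP_d24c19_al.C3

set_option autoImplicit false

/-!
ROW C4: the abstract step.  Let g in P ⊔ Q with w' . Φ g w = 0.  By C2 choose k minimal such that
Alt k (u g v) for some u in Lr, v in Ls; the hypothesis and the conclusion are the same for g' := u g (v may be dropped: work with g' and RMin).
k = 0: u g v in P: heP.  k ≥ 1: RMin k g' holds (by minimality).  C3: g' = a (b g1), Φ g' w top c A(a) ea, degree d.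
If w' . A(a) ea ≠ 0: top_dot gives w' . Φ g' w ≠ 0, contradiction.  Else hc': w'.ea = 0, a = u' n: replace g' by g'' = u'^-1 g' = n b g1 = b' g1,
b' = n b in Q.  Still minimal; RMin k g''.  w' . B(b') ea ≠ 0: else by hd' b' = u'' n'', u''^-1 g'' = n'' g1, Alt (k-1) contradiction.
k = 1: g1 v in P for some v in Ls.  Let p = g1 v.  If ea' . A(p) w ≠ 0: top_left with u = Φ(p) w, d = 0: coefficient 1 is -(w'.B(b')ea)(ea'.A(p)w) ≠ 0.
 If = 0: hc: p = n v': g'' v v'^-1 = b' n in Q: heQ gives the conclusion.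
k ≥ 2: RMin (k-1) g1; C3 for g1: g1 = a1 (b2 g2), top c A(a1) ea in degree d; ea'.A(a1)ea ≠ 0 (else a1 in N, b' a1 b2 in Q: length drops);
 top_left: coefficient d+1 is -(w'.B(b')ea) (ea' . c A(a1) ea) ≠ 0, contradiction.
-/

namespace Pool.Agent.AR


variable {G ι R : Type} [Group G] [Fintype ι] [DecidableEq ι] [CommRing R] [IsDomain R]

omit [IsDomain R] in
private theorem C4_val (D : StepData G ι R) (x u v : G) (hu : u ∈ D.Lr) (hv : v ∈ D.Ls) :
    dotProduct (cvec D.w') ((D.Φ (u * x * v)).mulVec (cvec D.w)) =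
      dotProduct (cvec D.w') ((D.Φ x).mulVec (cvec D.w)) := by
  rw [map_mul, map_mul, ← Matrix.mulVec_mulVec, D.hLs v hv, ← Matrix.mulVec_mulVec,
    Matrix.dotProduct_mulVec, D.hLr u hu]

private theorem C4_core (D : StepData G ι R) (k : ℕ) (g : G)
    (h : dotProduct (cvec D.w') ((D.Φ g).mulVec (cvec D.w)) = 0)
    (hex : ∃ v ∈ D.Ls, Alt D.P D.Q k (g * v))
    (hmin : ∀ k' < k, ∀ u ∈ D.Lr, ∀ v ∈ D.Ls, ¬ Alt D.P D.Q k' (u * g * v)) :
    D.cond ∧ ∃ u ∈ D.Lr, ∃ v ∈ D.Ls, g = u * v := by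
  rcases Nat.eq_zero_or_pos k with rfl | hk
  · -- k = 0
    obtain ⟨v, hv, hA⟩ := hex
    have hP : g * v ∈ D.P := by
      cases hA with
      | base _ ha => exact ha
    have h1 := C4_val D g 1 v (one_mem _) hv
    rw [one_mul] at h1
    obtain ⟨hc, u1, hu1, v1, hv1, e⟩ := D.heP _ hP (h1.trans h)
    refine ⟨hc, u1, hu1, v1 * v⁻¹, D.Ls.mul_mem hv1 (D.Ls.inv_mem hv), ?_⟩
    rw [← mul_assoc, ← e, mul_inv_cancel_right]
  · -- k ≥ 1
    have hR : RMin D k g := by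
      refine ⟨hex, ?_⟩
      intro k' hk' v hv hA
      exact hmin k' hk' 1 (one_mem _) v hv (by rw [one_mul]; exact hA)
    obtain ⟨d, hd1, c, hc0, a, ha, b, hb, g1, eg, ⟨v, hv, hA⟩, hTop⟩ := step_top D k hk g hR
    have hz : dotProduct D.w' ((D.A a).mulVec D.ea) = 0 := by
      have h2 := top_dot D.w' _ _ _ hTop
      rw [h, Polynomial.coeff_zero, dotProduct_smul, smul_eq_mul] at h2
      rcases mul_eq_zero.1 h2.symm with h3 | h3
      · exact absurd h3 hc0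
      · exact h3
    obtain ⟨hw'ea, u', hu', n, hn, ea⟩ := D.hc' a ha hz
    -- g'' = b' * g1
    set b' : G := n * b with hb'
    have hb'Q : b' ∈ D.Q := D.Q.mul_mem (D.hNQ hn) hb
    have eg2 : u'⁻¹ * g = b' * g1 := by
      rw [eg, ea, hb']; group
    have hval2 : dotProduct (cvec D.w') ((D.Φ (b' * g1)).mulVec (cvec D.w)) = 0 := by
      have h3 := C4_val D g u'⁻¹ 1 (D.Lr.inv_mem hu') (one_mem _)
      rw [mul_one, eg2] at h3
      exact h3.trans h
    have hmin2 : ∀ k' < k, ∀ u ∈ D.Lr, ∀ v ∈ D.Ls, ¬ Alt D.P D.Q k' (u * (b' * g1) * v) := by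
      intro k' hk' u hu v hv hAlt
      apply hmin k' hk' (u * u'⁻¹) (D.Lr.mul_mem hu (D.Lr.inv_mem hu')) v hv
      have e : u * u'⁻¹ * g = u * (b' * g1) := by rw [← eg2, mul_assoc]
      rw [e]
      exact hAlt
    -- it is enough to treat b' * g1
    have hsuff : (D.cond ∧ ∃ u ∈ D.Lr, ∃ v ∈ D.Ls, b' * g1 = u * v) →
        D.cond ∧ ∃ u ∈ D.Lr, ∃ v ∈ D.Ls, g = u * v := by
      rintro ⟨hcd, u1, hu1, v1, hv1, e1⟩
      refine ⟨hcd, u' * u1, D.Lr.mul_mem hu' hu1, v1, hv1, ?_⟩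
      rw [mul_assoc, ← e1, ← eg2, mul_inv_cancel_left]
    apply hsuff
    have hBne : dotProduct D.w' ((D.B b').mulVec D.ea) ≠ 0 := by
      intro h0
      obtain ⟨u2, hu2, n2, hn2, e2⟩ := D.hd' b' hb'Q hw'ea h0
      apply hmin2 (k - 1) (by omega) u2⁻¹ (D.Lr.inv_mem hu2) v hv
      have e3 : u2⁻¹ * (b' * g1) * v = n2 * (g1 * v) := by rw [e2]; group
      rw [e3]
      exact hA.mul_left n2 (D.hNP hn2)
    have hΦb : D.Φ b' = hatM D.ea D.ea' (D.B b') := D.hQ b' hb'Q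
    rcases Nat.lt_or_ge k 2 with hk2 | hk2
    · -- k = 1
      have hk1 : k - 1 = 0 := by omega
      rw [hk1] at hA
      have hP : g1 * v ∈ D.P := by
        cases hA with
        | base _ ha => exact ha
      have ep : (D.Φ g1).mulVec (cvec D.w) = ((D.A (g1 * v)).map Polynomial.C).mulVec (cvec D.w) := by
        rw [← D.hP _ hP, map_mul, ← Matrix.mulVec_mulVec, D.hLs v hv]
      by_cases h0 : dotProduct D.ea' ((D.A (g1 * v)).mulVec D.w) = 0
      · obtain ⟨-, n3, hn3, v3, hv3, e3⟩ := D.hc _ hP h0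
        have hQ3 : b' * n3 ∈ D.Q := D.Q.mul_mem hb'Q (D.hNQ hn3)
        have e4 : b' * n3 = 1 * (b' * g1) * (v * v3⁻¹) := by
          have : n3 = g1 * v * v3⁻¹ := by rw [e3, mul_inv_cancel_right]
          rw [this]; group
        have h5 := C4_val D (b' * g1) 1 (v * v3⁻¹) (one_mem _) (D.Ls.mul_mem hv (D.Ls.inv_mem hv3))
        rw [← e4] at h5
        obtain ⟨hcd, u1, hu1, v1, hv1, e1⟩ := D.heQ _ hQ3 (h5.trans hval2)
        refine ⟨hcd, u1, hu1, v1 * (v3 * v⁻¹), D.Ls.mul_mem hv1 (D.Ls.mul_mem hv3 (D.Ls.inv_mem hv)), ?_⟩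
        rw [← mul_assoc, ← e1, e4]
        group
      · exfalso
        have hT0 := top_map (D.A (g1 * v)) _ _ _ (top_cvec D.w)
        rw [← ep] at hT0
        have h6 := top_left D.ea D.ea' D.w' (D.B b') _ _ _ hT0 hw'ea
        rw [← hΦb, Matrix.mulVec_mulVec, ← map_mul, hval2, Polynomial.coeff_zero] at h6
        have h7 := neg_eq_zero.1 h6.symm
        rcases mul_eq_zero.1 h7 with h8 | h8
        · exact hBne h8
        · exact h0 h8
    · -- k ≥ 2
      exfalso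
      have hR1 : RMin D (k - 1) g1 := by
        refine ⟨⟨v, hv, hA⟩, ?_⟩
        intro k' hk' v' hv' hAlt
        apply hmin2 (k' + 1) (by omega) 1 (one_mem _) v' hv'
        have e5 : 1 * (b' * g1) * v' = 1 * b' * (g1 * v') := by group
        rw [e5]
        exact Alt.step k' 1 b' (g1 * v') (one_mem _) hb'Q hAlt
      obtain ⟨d1, hd11, c1, hc1, a1, ha1, b2, hb2, g2, eg1, ⟨v2, hv2, hA2⟩, hTop1⟩ :=
        step_top D (k - 1) (by omega) g1 hR1
      have hane : dotProduct D.ea' ((D.A a1).mulVec D.ea) ≠ 0 := by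
        intro h0
        have ha1N := D.hb a1 ha1 h0
        have hbQ : b' * a1 * b2 ∈ D.Q := D.Q.mul_mem (D.Q.mul_mem hb'Q (D.hNQ ha1N)) hb2
        apply hmin2 (k - 1 - 1 + 1) (by omega) 1 (one_mem _) v2 hv2
        have e6 : 1 * (b' * g1) * v2 = 1 * (b' * a1 * b2) * (g2 * v2) := by rw [eg1]; group
        rw [e6]
        exact Alt.step _ 1 _ _ (one_mem _) hbQ hA2
      have h6 := top_left D.ea D.ea' D.w' (D.B b') _ _ _ hTop1 hw'ea
      rw [← hΦb, Matrix.mulVec_mulVec, ← map_mul, hval2, Polynomial.coeff_zero, dotProduct_smul,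
        smul_eq_mul] at h6
      have h7 := neg_eq_zero.1 h6.symm
      rcases mul_eq_zero.1 h7 with h8 | h8
      · exact hBne h8
      · rcases mul_eq_zero.1 h8 with h9 | h9
        · exact hc1 h9
        · exact hane h9

theorem step_final (D : StepData G ι R) (g : G) (hg : g ∈ D.P ⊔ D.Q)
    (h : dotProduct (cvec D.w') ((D.Φ g).mulVec (cvec D.w)) = 0) :
    D.cond ∧ ∃ u ∈ D.Lr, ∃ v ∈ D.Ls, g = u * v := by
  classical
  obtain ⟨k0, hk0⟩ := exists_alt D.P D.Q g hg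
  have hex : ∃ k, ∃ u ∈ D.Lr, ∃ v ∈ D.Ls, Alt D.P D.Q k (u * g * v) :=
    ⟨k0, 1, one_mem _, 1, one_mem _, by rw [one_mul, mul_one]; exact hk0⟩
  obtain ⟨u, hu, v, hv, hA⟩ := Nat.find_spec hex
  have hmin : ∀ k' < Nat.find hex, ∀ u ∈ D.Lr, ∀ v ∈ D.Ls, ¬ Alt D.P D.Q k' (u * g * v) := by
    intro k' hk' u' hu' v' hv' hA'
    exact Nat.find_min hex hk' ⟨u', hu', v', hv', hA'⟩
  have hval : dotProduct (cvec D.w') ((D.Φ (u * g)).mulVec (cvec D.w)) = 0 := by
    have h1 := C4_val D g u 1 hu (one_mem _)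
    rw [mul_one] at h1
    exact h1.trans h
  obtain ⟨hcd, u1, hu1, v1, hv1, e1⟩ := C4_core D (Nat.find hex) (u * g) hval ⟨v, hv, hA⟩ (by
    intro k' hk' u' hu' v' hv' hA'
    apply hmin k' hk' (u' * u) (D.Lr.mul_mem hu' hu) v' hv'
    rw [mul_assoc u' u g]
    exact hA')
  refine ⟨hcd, u⁻¹ * u1, D.Lr.mul_mem (D.Lr.inv_mem hu) hu1, v1, hv1, ?_⟩
  rw [mul_assoc, ← e1, inv_mul_cancel_left]

end Pool.Agent.AR
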