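import Pool.Agent.Lib.MP_d24c19_al.TwDef

set_option autoImplicit false

/-!
ROW C5: existence of the twisted representation.  T_s, T_s' are inverse (H2 with r = s).  T_r, T_s commute for
adjacent r, s (H2 both ways), T_r commutes with ρ₀(x_s) (H1, H1').  So for adjacent r, s: with A = ρ₀(x_r), B = ρ₀(x_s) (mapped),
T_r A T_r^-1 = (T_r T_s) A (T_r T_s)^-1, T_s B T_s^-1 = (T_r T_s) B (T_r T_s)^-1: the braid / commutation relation of A, B is conjugated.
Use `artLift` into the group of units.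
-/

namespace Pool.Agent.AR


variable {G S ι R₀ : Type} [Group G] [Fintype S] [DecidableEq S] [Fintype ι] [DecidableEq ι]
    [CommRing R₀] (D : TwData G S ι R₀)

omit [Fintype S] [DecidableEq S] [DecidableEq ι] in
private theorem C5_dot (a b : ι → R₀) :
    dotProduct (cv (S := S) a) (cv b) = MvPolynomial.C (dotProduct a b) := by
  simp [dotProduct, cv, map_sum]

private theorem C5_EE (r s : S) (h : dotProduct (D.e' r) (D.e s) = 0) :
    Matrix.vecMulVec (cv (S := S) (D.e r)) (cv (D.e' r)) * Matrix.vecMulVec (cv (D.e s)) (cv (D.e' s)) = 0 := by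
  rw [Matrix.vecMulVec_mul_vecMulVec, C5_dot, h]
  simp

theorem Tw_mul (s : S) : Tw D s * Tw' D s = 1 ∧ Tw' D s * Tw D s = 1 := by
  have h := C5_EE D s s (D.H2 s s (Or.inr rfl))
  constructor
  · rw [Tw, Tw', add_mul, one_mul, mul_sub, mul_one, Matrix.smul_mul, Matrix.mul_smul, h]
    simp
  · rw [Tw, Tw', sub_mul, one_mul, mul_add, mul_one, Matrix.smul_mul, Matrix.mul_smul, h]
    simp

private theorem C5_adj_symm {r s : S} (h : D.Adj r s) : D.Adj s r := D.symm r s h

/-- the unit `T_s` -/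
private noncomputable def C5_u (s : S) : (Matrix ι ι (MvPolynomial S R₀))ˣ :=
  ⟨Tw D s, Tw' D s, (Tw_mul D s).1, (Tw_mul D s).2⟩

/-- the unit `ρ₀(x_s)` over the polynomial ring -/
private noncomputable def C5_r (s : S) : (Matrix ι ι (MvPolynomial S R₀))ˣ :=
  Units.map (RingHom.mapMatrix (MvPolynomial.C : R₀ →+* MvPolynomial S R₀)).toMonoidHom
    (D.ρ₀ (D.gen s))

private theorem C5_uu {r s : S} (h : D.Adj r s) : C5_u D r * C5_u D s = C5_u D s * C5_u D r := by
  apply Units.ext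
  have h1 := C5_EE D r s (D.H2 r s (Or.inl h))
  have h2 := C5_EE D s r (D.H2 s r (Or.inl (C5_adj_symm D h)))
  show Tw D r * Tw D s = Tw D s * Tw D r
  rw [Tw, Tw, add_mul, one_mul, mul_add, mul_one, Matrix.smul_mul, Matrix.mul_smul, h1,
    add_mul, one_mul, mul_add, mul_one, Matrix.smul_mul, Matrix.mul_smul, h2]
  simp only [smul_zero, add_zero]
  abel

private theorem C5_ur {r s : S} (h : D.Adj r s) : C5_u D s * C5_r D r = C5_r D r * C5_u D s := by
  apply Units.ext
  have h1 : (D.ρ₀ (D.gen r) : Matrix ι ι R₀).map (MvPolynomial.C : R₀ →+* MvPolynomial S R₀) *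
      Matrix.vecMulVec (cv (S := S) (D.e s)) (cv (D.e' s)) =
      Matrix.vecMulVec (cv (S := S) (D.e s)) (cv (D.e' s)) := by
    rw [Matrix.mul_vecMulVec]
    congr 1
    have h3 := D.H1 r s h
    funext i
    have h4 := congrArg (MvPolynomial.C : R₀ →+* MvPolynomial S R₀) (congrFun h3 i)
    rw [RingHom.map_mulVec] at h4
    exact h4
  have h2 : Matrix.vecMulVec (cv (S := S) (D.e s)) (cv (D.e' s)) *
      (D.ρ₀ (D.gen r) : Matrix ι ι R₀).map (MvPolynomial.C : R₀ →+* MvPolynomial S R₀) =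
      Matrix.vecMulVec (cv (S := S) (D.e s)) (cv (D.e' s)) := by
    rw [Matrix.vecMulVec_mul]
    congr 1
    have h3 := D.H1' r s h
    funext i
    have h4 := congrArg (MvPolynomial.C : R₀ →+* MvPolynomial S R₀) (congrFun h3 i)
    rw [RingHom.map_vecMul] at h4
    exact h4
  show Tw D s * (D.ρ₀ (D.gen r) : Matrix ι ι R₀).map (MvPolynomial.C : R₀ →+* MvPolynomial S R₀) =
    (D.ρ₀ (D.gen r) : Matrix ι ι R₀).map (MvPolynomial.C : R₀ →+* MvPolynomial S R₀) * Tw D s
  rw [Tw, add_mul, one_mul, mul_add, mul_one, Matrix.smul_mul, Matrix.mul_smul, h1, h2]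

private theorem C5_conj {r s : S} (h : D.Adj r s) :
    C5_u D r * C5_r D r * (C5_u D r)⁻¹ =
      (C5_u D r * C5_u D s) * C5_r D r * (C5_u D r * C5_u D s)⁻¹ ∧
    C5_u D s * C5_r D s * (C5_u D s)⁻¹ =
      (C5_u D r * C5_u D s) * C5_r D s * (C5_u D r * C5_u D s)⁻¹ := by
  have h1 := C5_ur D h
  have h2 := C5_ur D (C5_adj_symm D h)
  have h3 := C5_uu D h
  constructor
  · have e : C5_u D s * C5_r D r * (C5_u D s)⁻¹ = C5_r D r := by rw [h1, mul_inv_cancel_right]
    rw [mul_inv_rev]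
    calc C5_u D r * C5_r D r * (C5_u D r)⁻¹
        = C5_u D r * (C5_u D s * C5_r D r * (C5_u D s)⁻¹) * (C5_u D r)⁻¹ := by rw [e]
      _ = _ := by group
  · have e : C5_u D r * C5_r D s * (C5_u D r)⁻¹ = C5_r D s := by rw [h2, mul_inv_cancel_right]
    rw [h3, mul_inv_rev]
    calc C5_u D s * C5_r D s * (C5_u D s)⁻¹
        = C5_u D s * (C5_u D r * C5_r D s * (C5_u D r)⁻¹) * (C5_u D s)⁻¹ := by rw [e]
      _ = _ := by group

/-- the unit `T_s ρ₀(x_s) T_s^-1` -/
noncomputable def twUnit (s : S) : (Matrix ι ι (MvPolynomial S R₀))ˣ := C5_u D s * C5_r D s * (C5_u D s)⁻¹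

/-- the unit `ρ₀(x_s)` over the polynomial ring -/
noncomputable def baseUnit (s : S) : (Matrix ι ι (MvPolynomial S R₀))ˣ :=
  Units.map (RingHom.mapMatrix (MvPolynomial.C : R₀ →+* MvPolynomial S R₀)).toMonoidHom
    (D.ρ₀ (D.gen s))

theorem twUnit_val (s : S) : (twUnit D s : Matrix ι ι (MvPolynomial S R₀)) =
    Tw D s * (D.ρ₀ (D.gen s) : Matrix ι ι R₀).map MvPolynomial.C * Tw' D s := rfl

/-- for adjacent `r, s` one unit conjugates both -/
theorem twUnit_conj {r s : S} (h : D.Adj r s) : ∃ w : (Matrix ι ι (MvPolynomial S R₀))ˣ,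
    twUnit D r = w * baseUnit D r * w⁻¹ ∧ twUnit D s = w * baseUnit D s * w⁻¹ :=
  ⟨C5_u D r * C5_u D s, (C5_conj D h).1, (C5_conj D h).2⟩

end Pool.Agent.AR
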