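import Pool.Agent.Lib.MP_d24c19_al.TwDef
import Pool.Agent.Lib.MP_d24c19_al.C5

set_option autoImplicit false
set_option linter.unusedSectionVars false

/-!
ROW C6: first consequences.  (1) ρ(g) e_s = e_s for g in Par {x | Adj s x}; (2) e'_s ρ(g) = e'_s;
(3) at X = 0: ρ becomes ρ₀ (Tw, Tw' become 1).  Generators first, then closure_induction (inverses: multiply by the inverse).
-/

namespace Pool.Agent.AR


section aux
variable {ι R : Type} [Fintype ι] [DecidableEq ι] [CommRing R]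

private theorem C6_vmv_mulVec (X : R) (a b v : ι → R) (h : dotProduct b v = 0) :
    (X • Matrix.vecMulVec a b).mulVec v = 0 := by
  rw [Matrix.smul_mulVec, Matrix.vecMulVec_mulVec, h]
  simp

private theorem C6_vecMul_vmv (X : R) (a b v : ι → R) (h : dotProduct v a = 0) :
    Matrix.vecMul v (X • Matrix.vecMulVec a b) = 0 := by
  rw [Matrix.vecMul_smul, Matrix.vecMul_vecMulVec, h]
  simp
end aux

variable {G S ι R₀ : Type} [Group G] [Fintype S] [DecidableEq S] [Fintype ι] [DecidableEq ι]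
    [CommRing R₀] (D : TwData G S ι R₀) (ρ : G →* (Matrix ι ι (MvPolynomial S R₀))ˣ)

private theorem C6_dot (a b : ι → R₀) (h : dotProduct a b = 0) :
    dotProduct (cv (S := S) a) (cv b) = 0 := by
  have : dotProduct (cv (S := S) a) (cv b) = MvPolynomial.C (dotProduct a b) := by
    simp [dotProduct, cv]
  rw [this, h, map_zero]

private theorem C6_mulVec (A : Matrix ι ι R₀) (w : ι → R₀) :
    (A.map MvPolynomial.C).mulVec (cv (S := S) w) = cv (A.mulVec w) := by
  funext i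
  simp [Matrix.mulVec, dotProduct, cv]

private theorem C6_vecMul (A : Matrix ι ι R₀) (w : ι → R₀) :
    Matrix.vecMul (cv (S := S) w) (A.map MvPolynomial.C) = cv (Matrix.vecMul w A) := by
  funext i
  simp [Matrix.vecMul, dotProduct, cv]

private theorem C6_adj_symm {r s : S} (h : D.Adj r s) : D.Adj s r := D.symm r s h

private theorem C6_gen_right (h : IsTw D ρ) (s r : S) (hr : D.Adj s r) :
    (ρ (D.gen r) : Matrix ι ι (MvPolynomial S R₀)).mulVec (cv (D.e s)) = cv (D.e s) := by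
  have hrs := C6_adj_symm D hr
  have hd := C6_dot (S := S) (D.e' r) (D.e s) (D.H2 r s (Or.inl hrs))
  rw [h r, ← Matrix.mulVec_mulVec, ← Matrix.mulVec_mulVec]
  have h1 : (Tw' D r).mulVec (cv (D.e s)) = cv (D.e s) := by
    rw [Tw', Matrix.sub_mulVec, Matrix.one_mulVec, C6_vmv_mulVec _ _ _ _ hd, sub_zero]
  have h2 : (Tw D r).mulVec (cv (D.e s)) = cv (D.e s) := by
    rw [Tw, Matrix.add_mulVec, Matrix.one_mulVec, C6_vmv_mulVec _ _ _ _ hd, add_zero]
  rw [h1, C6_mulVec, D.H1 r s hrs, h2]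

private theorem C6_gen_left (h : IsTw D ρ) (s r : S) (hr : D.Adj s r) :
    Matrix.vecMul (cv (D.e' s)) (ρ (D.gen r) : Matrix ι ι (MvPolynomial S R₀))
      = cv (D.e' s) := by
  have hrs := C6_adj_symm D hr
  have hd := C6_dot (S := S) (D.e' s) (D.e r) (D.H2 s r (Or.inl hr))
  rw [h r, ← Matrix.vecMul_vecMul, ← Matrix.vecMul_vecMul]
  have h1 : Matrix.vecMul (cv (D.e' s)) (Tw' D r) = cv (D.e' s) := by
    rw [Tw', Matrix.vecMul_sub, Matrix.vecMul_one, C6_vecMul_vmv _ _ _ _ hd, sub_zero]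
  have h2 : Matrix.vecMul (cv (D.e' s)) (Tw D r) = cv (D.e' s) := by
    rw [Tw, Matrix.vecMul_add, Matrix.vecMul_one, C6_vecMul_vmv _ _ _ _ hd, add_zero]
  rw [h2, C6_vecMul, D.H1' r s hrs, h1]

theorem tw_right (h : IsTw D ρ) (s : S) (g : G)
    (hg : g ∈ D.Par {x | D.Adj s x}) :
    (ρ g : Matrix ι ι (MvPolynomial S R₀)).mulVec (cv (D.e s)) = cv (D.e s) := by
  unfold TwData.Par at hg
  induction hg using Subgroup.closure_induction with
  | mem x hx =>
    obtain ⟨r, hr, rfl⟩ := hx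
    exact C6_gen_right D ρ h s r hr
  | one => simp
  | mul x y _ _ hx hy =>
    rw [map_mul, Units.val_mul, ← Matrix.mulVec_mulVec, hy, hx]
  | inv x _ hx =>
    have hi : ((ρ x⁻¹ : (Matrix ι ι (MvPolynomial S R₀))ˣ) : Matrix ι ι (MvPolynomial S R₀)) *
        (ρ x : Matrix ι ι (MvPolynomial S R₀)) = 1 := by
      rw [← Units.val_mul, ← map_mul, inv_mul_cancel, map_one, Units.val_one]
    calc (ρ x⁻¹ : Matrix ι ι (MvPolynomial S R₀)).mulVec (cv (D.e s))
        = (ρ x⁻¹ : Matrix ι ι (MvPolynomial S R₀)).mulVec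
          ((ρ x : Matrix ι ι (MvPolynomial S R₀)).mulVec (cv (D.e s))) := by rw [hx]
      _ = cv (D.e s) := by rw [Matrix.mulVec_mulVec, hi, Matrix.one_mulVec]

theorem tw_left (h : IsTw D ρ) (s : S) (g : G)
    (hg : g ∈ D.Par {x | D.Adj s x}) :
    Matrix.vecMul (cv (D.e' s)) (ρ g : Matrix ι ι (MvPolynomial S R₀)) = cv (D.e' s) := by
  unfold TwData.Par at hg
  induction hg using Subgroup.closure_induction with
  | mem x hx =>
    obtain ⟨r, hr, rfl⟩ := hx
    exact C6_gen_left D ρ h s r hr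
  | one => simp
  | mul x y _ _ hx hy =>
    rw [map_mul, Units.val_mul, ← Matrix.vecMul_vecMul, hx, hy]
  | inv x _ hx =>
    have hi : (ρ x : Matrix ι ι (MvPolynomial S R₀)) *
        ((ρ x⁻¹ : (Matrix ι ι (MvPolynomial S R₀))ˣ) : Matrix ι ι (MvPolynomial S R₀)) = 1 := by
      rw [← Units.val_mul, ← map_mul, mul_inv_cancel, map_one, Units.val_one]
    calc Matrix.vecMul (cv (D.e' s)) (ρ x⁻¹ : Matrix ι ι (MvPolynomial S R₀))
        = Matrix.vecMul (Matrix.vecMul (cv (D.e' s)) (ρ x : Matrix ι ι (MvPolynomial S R₀)))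
          (ρ x⁻¹ : Matrix ι ι (MvPolynomial S R₀)) := by rw [hx]
      _ = cv (D.e' s) := by rw [Matrix.vecMul_vecMul, hi, Matrix.vecMul_one]

private theorem C6_ev0_C (r : R₀) : ev0 (S := S) (MvPolynomial.C r) = r := by
  simp [ev0]

private theorem C6_ev0_X (s : S) : ev0 (S := S) (R₀ := R₀) (MvPolynomial.X s) = 0 := by
  simp [ev0]

private theorem C6_Tw_map (s : S) : (Tw D s).map ev0 = 1 := by
  ext i j
  simp [Tw, Matrix.one_apply, C6_ev0_X]

private theorem C6_Tw'_map (s : S) : (Tw' D s).map ev0 = 1 := by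
  ext i j
  simp [Tw', Matrix.one_apply, C6_ev0_X]

theorem tw_zero (h : IsTw D ρ) (g : G) :
    (ρ g : Matrix ι ι (MvPolynomial S R₀)).map ev0 = (D.ρ₀ g : Matrix ι ι R₀) := by
  have key : (Units.map (RingHom.mapMatrix (ev0 (S := S) (R₀ := R₀)) :
      Matrix ι ι (MvPolynomial S R₀) →+* Matrix ι ι R₀).toMonoidHom).comp ρ = D.ρ₀ := by
    refine MonoidHom.eq_of_eqOn_dense D.top ?_
    rintro _ ⟨s, rfl⟩
    refine Units.ext ?_
    show ((ρ (D.gen s) : Matrix ι ι (MvPolynomial S R₀)).map ev0) =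
      (D.ρ₀ (D.gen s) : Matrix ι ι R₀)
    rw [h s, Matrix.map_mul, Matrix.map_mul, C6_Tw_map, C6_Tw'_map, one_mul, mul_one,
      Matrix.map_map]
    ext i j
    simp [C6_ev0_C]
  have := congrArg (fun f => ((f g : (Matrix ι ι R₀)ˣ) : Matrix ι ι R₀)) key
  exact this

end Pool.Agent.AR
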