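import Mathlib

set_option autoImplicit false

/-!
Definitions for the generic twisting theorem (paper, section 2).
-/

namespace Pool.Agent.AR


section top
variable {ι R : Type} [Fintype ι] [DecidableEq ι] [CommRing R]

/-- `(1 + Y ea ea') B (1 - Y ea ea')` over `R[Y]` -/
noncomputable def hatM (ea ea' : ι → R) (B : Matrix ι ι R) : Matrix ι ι (Polynomial R) :=
  (1 + (Polynomial.X : Polynomial R) • (Matrix.vecMulVec ea ea').map Polynomial.C) *
    B.map Polynomial.C *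
    (1 - (Polynomial.X : Polynomial R) • (Matrix.vecMulVec ea ea').map Polynomial.C)

/-- constant vector -/
noncomputable def cvec (w : ι → R) : ι → Polynomial R := fun i => Polynomial.C (w i)

/-- all entries of `u` have degree ≤ d and the coefficient of degree `d` is `w` -/
def Top (u : ι → Polynomial R) (d : ℕ) (w : ι → R) : Prop :=
  (∀ i, (u i).natDegree ≤ d) ∧ ∀ i, (u i).coeff d = w i
end top

/-- `g` is in `(P Q)^k P` -/
inductive Alt {G : Type} [Group G] (P Q : Subgroup G) : ℕ → G → Prop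
  | base (a : G) (ha : a ∈ P) : Alt P Q 0 a
  | step (k : ℕ) (a b g : G) (ha : a ∈ P) (hb : b ∈ Q) (hg : Alt P Q k g) :
      Alt P Q (k + 1) (a * b * g)

/-- the data of the abstract step (paper, proof of Claim(X) for X not a clique) -/
structure StepData (G ι R : Type) [Group G] [Fintype ι] [DecidableEq ι] [CommRing R] where
  Φ : G →* Matrix ι ι (Polynomial R)
  P : Subgroup G
  Q : Subgroup G
  N : Subgroup G
  Lr : Subgroup G
  Ls : Subgroup G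
  A : G → Matrix ι ι R
  B : G → Matrix ι ι R
  ea : ι → R
  ea' : ι → R
  w : ι → R
  w' : ι → R
  cond : Prop
  hP : ∀ p ∈ P, Φ p = (A p).map Polynomial.C
  hQ : ∀ b ∈ Q, Φ b = hatM ea ea' (B b)
  hNP : N ≤ P
  hNQ : N ≤ Q
  hLs : ∀ v ∈ Ls, (Φ v).mulVec (cvec w) = cvec w
  hLr : ∀ u ∈ Lr, Matrix.vecMul (cvec w') (Φ u) = cvec w'
  ea0 : dotProduct ea' ea = 0
  ha : ∀ b ∈ Q, dotProduct ea' ((B b).mulVec ea) = 0 → b ∈ N
  hb : ∀ p ∈ P, dotProduct ea' ((A p).mulVec ea) = 0 → p ∈ N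
  hc : ∀ p ∈ P, dotProduct ea' ((A p).mulVec w) = 0 →
    dotProduct ea' w = 0 ∧ ∃ n ∈ N, ∃ v ∈ Ls, p = n * v
  hd : ∀ b ∈ Q, dotProduct ea' w = 0 → dotProduct ea' ((B b).mulVec w) = 0 →
    ∃ n ∈ N, ∃ v ∈ Ls, b = n * v
  hc' : ∀ p ∈ P, dotProduct w' ((A p).mulVec ea) = 0 →
    dotProduct w' ea = 0 ∧ ∃ u ∈ Lr, ∃ n ∈ N, p = u * n
  hd' : ∀ b ∈ Q, dotProduct w' ea = 0 → dotProduct w' ((B b).mulVec ea) = 0 →
    ∃ u ∈ Lr, ∃ n ∈ N, b = u * n
  heP : ∀ p ∈ P, dotProduct (cvec w') ((Φ p).mulVec (cvec w)) = 0 →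
    cond ∧ ∃ u ∈ Lr, ∃ v ∈ Ls, p = u * v
  heQ : ∀ b ∈ Q, dotProduct (cvec w') ((Φ b).mulVec (cvec w)) = 0 →
    cond ∧ ∃ u ∈ Lr, ∃ v ∈ Ls, b = u * v

end Pool.Agent.AR
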