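import Pool.Agent.Lib.MP_d24c19_al.TwDef
import Pool.Agent.Lib.MP_d24c19_al.Cdef
import Pool.Agent.Lib.MP_d24c19_al.C5
import Pool.Agent.Lib.MP_d24c19_al.C6

set_option autoImplicit false

/-!
ROW C7: dependence on the variable X_a.  phiA: X_a -> Y, psiA: X_a -> 0.
(1) g in Par {s ≠ a}: the entries of ρ(g) do not involve X_a: map phiA = map C.
(2) b in Par ({a} ∪ lk a): map phiA (ρ b) = hatM (e a) (e' a) (map psiA (ρ b)).  (T_a = 1 + X_a e_a e'_a commutes with ρ(x_s), s in lk a;
so with ρ'(b) := map psiA (ρ b): ρ(b) = T_a ρ'(b) T_a^-1 on generators, hence on the subgroup; apply phiA: phiA of psiA-image is C of it.)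
(3) phiA is injective (compose with evaluation Y := X_a).  (4) e'_a . psiA(ρ b) w = e'_a . ρ(b) w when w = e_s (constant vector) with
e'_a . e_s = 0; and the same on the left.  (ρ(b) = T_a ρ'(b) T_a^-1, e'_a T_a = e'_a, T_a^-1 e_s = e_s.)
-/

namespace Pool.Agent.AR


variable {G S ι R₀ : Type} [Group G] [Fintype S] [DecidableEq S] [Fintype ι] [DecidableEq ι]
    [CommRing R₀] (D : TwData G S ι R₀) (ρ : G →* (Matrix ι ι (MvPolynomial S R₀))ˣ)

section aux

omit [Fintype S] in
theorem C7_phi_C (a : S) (r : R₀) : phiA a (MvPolynomial.C r) = Polynomial.C (MvPolynomial.C r) := by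
  simp [phiA]

omit [Fintype S] in
theorem C7_phi_X (a s : S) : phiA (R₀ := R₀) a (MvPolynomial.X s) =
    if s = a then Polynomial.X else Polynomial.C (MvPolynomial.X s) := by
  simp [phiA]

omit [Fintype S] in
theorem C7_psi_C (a : S) (r : R₀) : psiA a (MvPolynomial.C r) = MvPolynomial.C r := by
  simp [psiA]

omit [Fintype S] in
theorem C7_psi_X (a s : S) : psiA (R₀ := R₀) a (MvPolynomial.X s) =
    if s = a then 0 else MvPolynomial.X s := by
  simp [psiA]

omit [Fintype S] [DecidableEq S] [DecidableEq ι] in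
theorem C7_dot (u v : ι → R₀) : dotProduct (cv (S := S) u) (cv v) = MvPolynomial.C (dotProduct u v) := by
  simp [dotProduct, cv, map_sum, map_mul]

theorem C7_left (a : S) (w : ι → R₀) (hw : dotProduct w (D.e a) = 0) :
    Matrix.vecMul (cv w) (Tw D a) = cv w := by
  unfold Tw
  rw [Matrix.vecMul_add, Matrix.vecMul_one, Matrix.vecMul_smul, Matrix.vecMul_vecMulVec, C7_dot, hw]
  simp

theorem C7_right (a : S) (w : ι → R₀) (hw : dotProduct (D.e' a) w = 0) :
    (Tw' D a).mulVec (cv w) = cv w := by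
  unfold Tw'
  rw [Matrix.sub_mulVec, Matrix.one_mulVec, Matrix.smul_mulVec, Matrix.vecMulVec_mulVec, C7_dot, hw]
  simp

/-- map of a twist by a ring homomorphism -/
theorem C7_map_Tw {T : Type} [CommRing T] (f : MvPolynomial S R₀ →+* T) (s : S) :
    (Tw D s).map f = 1 + f (MvPolynomial.X s) •
      Matrix.vecMulVec (fun i => f (MvPolynomial.C (D.e s i))) (fun i => f (MvPolynomial.C (D.e' s i))) := by
  ext i j
  simp [Tw, cv, Matrix.vecMulVec, Matrix.one_apply, apply_ite f]

theorem C7_map_Tw' {T : Type} [CommRing T] (f : MvPolynomial S R₀ →+* T) (s : S) :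
    (Tw' D s).map f = 1 - f (MvPolynomial.X s) •
      Matrix.vecMulVec (fun i => f (MvPolynomial.C (D.e s i))) (fun i => f (MvPolynomial.C (D.e' s i))) := by
  ext i j
  simp [Tw', cv, Matrix.vecMulVec, Matrix.one_apply, apply_ite f]

/-- two ring homomorphisms that agree on constants and on `X_s` agree on `ρ(x_s)` -/
theorem C7_gen {T : Type} [CommRing T] (f g : MvPolynomial S R₀ →+* T) (h : IsTw D ρ) (s : S)
    (hC : ∀ r, f (MvPolynomial.C r) = g (MvPolynomial.C r)) (hX : f (MvPolynomial.X s) = g (MvPolynomial.X s)) :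
    (ρ (D.gen s) : Matrix ι ι (MvPolynomial S R₀)).map f =
      (ρ (D.gen s) : Matrix ι ι (MvPolynomial S R₀)).map g := by
  rw [h s, Matrix.map_mul, Matrix.map_mul, Matrix.map_mul, Matrix.map_mul, C7_map_Tw, C7_map_Tw,
    C7_map_Tw', C7_map_Tw']
  simp only [hC, hX]
  congr 2
  ext i j
  simp [hC]

end aux

theorem phiA_injective (a : S) : Function.Injective (phiA (R₀ := R₀) a) := by
  have h : (Polynomial.evalRingHom (MvPolynomial.X a : MvPolynomial S R₀)).comp (phiA (R₀ := R₀) a) =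
      RingHom.id _ := by
    apply MvPolynomial.ringHom_ext
    · intro r
      simp [C7_phi_C]
    · intro s
      simp only [RingHom.comp_apply, C7_phi_X, RingHom.id_apply]
      split_ifs with hs
      · simp [hs]
      · simp
  intro x y hxy
  have := congrArg (Polynomial.evalRingHom (MvPolynomial.X a : MvPolynomial S R₀)) hxy
  have h1 : ∀ z, Polynomial.evalRingHom (MvPolynomial.X a : MvPolynomial S R₀) (phiA a z) = z := fun z =>
    congrFun (congrArg DFunLike.coe h) z
  rwa [h1, h1] at this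

theorem tw_free (h : IsTw D ρ) (a : S) (g : G)
    (hg : g ∈ D.Par {x | x ≠ a}) :
    (ρ g : Matrix ι ι (MvPolynomial S R₀)).map (phiA a) =
      (ρ g : Matrix ι ι (MvPolynomial S R₀)).map Polynomial.C := by
  have key : Set.EqOn ((Units.map (RingHom.mapMatrix (phiA (R₀ := R₀) a)).toMonoidHom).comp ρ)
      ((Units.map (RingHom.mapMatrix (Polynomial.C (R := MvPolynomial S R₀))).toMonoidHom).comp ρ)
      (Subgroup.closure (D.gen '' {x | x ≠ a}) : Set (G)) := by
    apply MonoidHom.eqOn_closure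
    rintro _ ⟨s, hs, rfl⟩
    apply Units.ext
    have hs' : s ≠ a := hs
    exact C7_gen D ρ (phiA a) Polynomial.C h s (fun r => C7_phi_C a r) (by rw [C7_phi_X, if_neg hs'])
  have := congrArg (fun u : (Matrix ι ι (Polynomial (MvPolynomial S R₀)))ˣ => u.val) (key hg)
  exact this

/-- the unit of a twist -/
noncomputable def C7_unit (a : S) : (Matrix ι ι (MvPolynomial S R₀))ˣ :=
  ⟨Tw D a, Tw' D a, (Tw_mul D a).1, (Tw_mul D a).2⟩

theorem C7_comm (h : IsTw D ρ) (a s : S) (hs : D.Adj a s) :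
    Tw D a * (ρ (D.gen s) : Matrix ι ι (MvPolynomial S R₀)) =
      (ρ (D.gen s) : Matrix ι ι (MvPolynomial S R₀)) * Tw D a := by
  have hmem : D.gen s ∈ D.Par {x | D.Adj a x} :=
    Subgroup.subset_closure ⟨s, hs, rfl⟩
  have h1 := tw_right D ρ h a _ hmem
  have h2 := tw_left D ρ h a _ hmem
  unfold Tw
  rw [add_mul, mul_add, one_mul, mul_one, smul_mul_assoc, mul_smul_comm, Matrix.vecMulVec_mul,
    Matrix.mul_vecMulVec, h1, h2]

theorem tw_star (h : IsTw D ρ) (a : S) (g : G)
    (hg : g ∈ D.Par {x | x = a ∨ D.Adj a x}) :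
    (ρ g : Matrix ι ι (MvPolynomial S R₀)) =
      Tw D a * (ρ g : Matrix ι ι (MvPolynomial S R₀)).map (psiA a) * Tw' D a := by
  have key : Set.EqOn ρ
      ((MulAut.conj (C7_unit D a)).toMonoidHom.comp
        ((Units.map (RingHom.mapMatrix (psiA (R₀ := R₀) a)).toMonoidHom).comp ρ))
      (Subgroup.closure (D.gen '' {x | x = a ∨ D.Adj a x}) : Set (G)) := by
    apply MonoidHom.eqOn_closure
    rintro _ ⟨s, hs, rfl⟩
    apply Units.ext
    change (ρ (D.gen s) : Matrix ι ι (MvPolynomial S R₀)) =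
      Tw D a * (ρ (D.gen s) : Matrix ι ι (MvPolynomial S R₀)).map (psiA a) * Tw' D a
    rcases hs with hs | hs
    · subst hs
      rw [h s, Matrix.map_mul, Matrix.map_mul, C7_map_Tw, C7_map_Tw', C7_psi_X]
      simp only [if_true, zero_smul, add_zero, sub_zero, one_mul, mul_one]
      congr 2
      ext i j
      simp [C7_psi_C]
    · have hne : s ≠ a := by
        rintro rfl
        exact D.irr _ hs
      have h1 : (ρ (D.gen s) : Matrix ι ι (MvPolynomial S R₀)).map (psiA a) =
          (ρ (D.gen s) : Matrix ι ι (MvPolynomial S R₀)) := by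
        have := C7_gen D ρ (psiA a) (RingHom.id _) h s (fun r => C7_psi_C a r)
          (by rw [C7_psi_X, if_neg hne]; rfl)
        rw [this]
        ext i j
        simp
      rw [h1, C7_comm D ρ h a s hs, mul_assoc, (Tw_mul D a).1, mul_one]
  have := congrArg (fun u : (Matrix ι ι (MvPolynomial S R₀))ˣ => u.val) (key hg)
  exact this

theorem tw_hat (h : IsTw D ρ) (a : S) (g : G)
    (hg : g ∈ D.Par {x | x = a ∨ D.Adj a x}) :
    (ρ g : Matrix ι ι (MvPolynomial S R₀)).map (phiA a) =
      hatM (cv (D.e a)) (cv (D.e' a)) ((ρ g : Matrix ι ι (MvPolynomial S R₀)).map (psiA a)) := by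
  have h1 := congrArg (fun M : Matrix ι ι (MvPolynomial S R₀) => M.map (phiA a)) (tw_star D ρ h a g hg)
  rw [h1, Matrix.map_mul, Matrix.map_mul, C7_map_Tw, C7_map_Tw', C7_phi_X, if_pos rfl]
  unfold hatM
  have h2 : ∀ p : MvPolynomial S R₀, phiA a (psiA a p) = Polynomial.C (psiA a p) := by
    have : (phiA (R₀ := R₀) a).comp (psiA a) = (Polynomial.C).comp (psiA a) := by
      apply MvPolynomial.ringHom_ext
      · intro r
        simp [C7_phi_C, C7_psi_C]
      · intro s
        simp only [RingHom.comp_apply, C7_psi_X]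
        split_ifs with hs
        · simp
        · rw [C7_phi_X, if_neg hs]
    intro p
    exact congrFun (congrArg DFunLike.coe this) p
  have h3 : (fun i => phiA a (MvPolynomial.C (D.e a i))) = fun i => Polynomial.C (cv (S := S) (D.e a) i) := by
    funext i; rw [C7_phi_C]; rfl
  have h4 : (fun i => phiA a (MvPolynomial.C (D.e' a i))) = fun i => Polynomial.C (cv (S := S) (D.e' a) i) := by
    funext i; rw [C7_phi_C]; rfl
  have h5 : Matrix.vecMulVec (fun i => Polynomial.C (cv (S := S) (D.e a) i)) (fun i => Polynomial.C (cv (S := S) (D.e' a) i)) =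
      (Matrix.vecMulVec (cv (S := S) (D.e a)) (cv (D.e' a))).map Polynomial.C := by
    ext i j
    simp [Matrix.vecMulVec]
  rw [h3, h4, h5]
  congr 2
  ext i j
  simp only [Matrix.map_apply]
  rw [h2]

theorem tw_psi_left (h : IsTw D ρ) (a s : S) (hs : dotProduct (D.e' a) (D.e s) = 0)
    (g : G) (hg : g ∈ D.Par {x | x = a ∨ D.Adj a x}) :
    dotProduct (cv (D.e' a)) (((ρ g : Matrix ι ι (MvPolynomial S R₀)).map (psiA a)).mulVec
      (cv (D.e s))) =
    dotProduct (cv (D.e' a)) ((ρ g : Matrix ι ι (MvPolynomial S R₀)).mulVec (cv (D.e s))) := by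
  conv_rhs => rw [tw_star D ρ h a g hg]
  rw [← Matrix.mulVec_mulVec, C7_right D a _ hs, ← Matrix.mulVec_mulVec, Matrix.dotProduct_mulVec _ (Tw D a),
    C7_left D a _ (D.H2 a a (Or.inr rfl))]

theorem tw_psi_right (h : IsTw D ρ) (a r : S) (hr : dotProduct (D.e' r) (D.e a) = 0)
    (g : G) (hg : g ∈ D.Par {x | x = a ∨ D.Adj a x}) :
    dotProduct (cv (D.e' r)) (((ρ g : Matrix ι ι (MvPolynomial S R₀)).map (psiA a)).mulVec
      (cv (D.e a))) =
    dotProduct (cv (D.e' r)) ((ρ g : Matrix ι ι (MvPolynomial S R₀)).mulVec (cv (D.e a))) := by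
  conv_rhs => rw [tw_star D ρ h a g hg]
  rw [← Matrix.mulVec_mulVec, C7_right D a _ (D.H2 a a (Or.inr rfl)), ← Matrix.mulVec_mulVec,
    Matrix.dotProduct_mulVec _ (Tw D a), C7_left D a _ hr]

end Pool.Agent.AR
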