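import Pool.Agent.Lib.MP_d24c19_al.TwDef
import Pool.Agent.Lib.MP_d24c19_al.C4
import Pool.Agent.Lib.MP_d24c19_al.C6
import Pool.Agent.Lib.MP_d24c19_al.C7

set_option autoImplicit false

/-!
ROW C8: Claim(X) by strong induction on the finite set X (paper, section 2).
X clique: apply ev0 to the equation (tw_zero): H3, H4.  X not a clique: a, b in X, a ≠ b, not Adj a b.  P = Par (X \ {a}),
Q = Par (X ∩ st a), N = Par (X ∩ lk a), Lr = Par (X ∩ lk r), Ls = Par (X ∩ lk s); b is in X but not in X ∩ st a, so both sets are proper.  Build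
`StepData` with Φ g = map (phiA a) (ρ g), A p = ρ p, B b = map (psiA a) (ρ b), ea = cv (e a), ea' = cv (e' a), w = cv (e s), w' = cv (e' r);
cond = (Adj r s ∨ r = s).  Fields from C6, C7 and the induction hypotheses (dotProduct over cvec = phiA of the dotProduct over MvPolynomial, phiA_injective; when the induction hypothesis gives Adj a s ∨ a = s
use H2 for dotProduct ea' w = 0).  hNP: X ∩ lk a ⊆ X \ {a} by irr.  (ii): ρ g = 1 gives e'_a . ρ(g) e_a = 0 (H2), so g in Par(X ∩ lk a) (product u * v of two such), contained in Par (X \ {a}).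
-/

namespace Pool.Agent.AR


variable {G S ι R₀ : Type} [Group G] [Fintype S] [DecidableEq S] [Fintype ι] [DecidableEq ι]
    [CommRing R₀] [IsDomain R₀] (D : TwData G S ι R₀)
    (ρ : G →* (Matrix ι ι (MvPolynomial S R₀))ˣ)

/-- the claim for the set `X` -/
def Claim (X : Finset S) : Prop :=
  (∀ g ∈ D.Par (X : Set S), ∀ r s,
    dotProduct (cv (D.e' r)) ((ρ g : Matrix ι ι (MvPolynomial S R₀)).mulVec (cv (D.e s))) = 0 →
      (D.Adj r s ∨ r = s) ∧ ∃ u ∈ D.Par ((X : Set S) ∩ {x | D.Adj r x}),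
        ∃ v ∈ D.Par ((X : Set S) ∩ {x | D.Adj s x}), g = u * v) ∧
  (∀ g ∈ D.Par (X : Set S), ρ g = 1 → g = 1)

theorem c8_mono {D : TwData G S ι R₀} {X Y : Set S} (h : X ⊆ Y) : D.Par X ≤ D.Par Y :=
  Subgroup.closure_mono (Set.image_mono h)

theorem c8_form {R R' : Type} [CommRing R] [CommRing R'] (f : R →+* R') (u v : ι → R)
    (M : Matrix ι ι R) :
    f (dotProduct u (M.mulVec v)) =
      dotProduct (fun i => f (u i)) ((M.map f).mulVec (fun i => f (v i))) := by
  simp [dotProduct, Matrix.mulVec, Matrix.map_apply, map_sum, map_mul]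

theorem c8_mulVec {R R' : Type} [CommRing R] [CommRing R'] (f : R →+* R') (v : ι → R)
    (M : Matrix ι ι R) :
    (M.map f).mulVec (fun i => f (v i)) = fun i => f (M.mulVec v i) := by
  ext i
  simp [dotProduct, Matrix.mulVec, Matrix.map_apply, map_sum, map_mul]

theorem c8_vecMul {R R' : Type} [CommRing R] [CommRing R'] (f : R →+* R') (v : ι → R)
    (M : Matrix ι ι R) :
    Matrix.vecMul (fun i => f (v i)) (M.map f) = fun i => f (Matrix.vecMul v M i) := by
  ext i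
  simp [dotProduct, Matrix.vecMul, Matrix.map_apply, map_sum, map_mul]

theorem c8_dot (u v : ι → R₀) :
    dotProduct (cv (S := S) u) (cv v) = MvPolynomial.C (dotProduct u v) := by
  simp [dotProduct, cv, map_sum, map_mul]

theorem c8_dot_zero {u v : ι → R₀} : dotProduct (cv (S := S) u) (cv v) = 0 ↔ dotProduct u v = 0 := by
  rw [c8_dot, MvPolynomial.C_eq_zero]

theorem c8_phi_cv (a : S) (w : ι → R₀) : (fun i => phiA a (cv (S := S) w i)) = cvec (cv w) := by
  ext i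
  simp [phiA, cv, cvec]

theorem c8_phi_dot (a : S) (u v : ι → R₀) (M : Matrix ι ι (MvPolynomial S R₀)) :
    dotProduct (cvec (cv u)) ((M.map (phiA a)).mulVec (cvec (cv v))) =
      phiA a (dotProduct (cv u) (M.mulVec (cv v))) := by
  rw [c8_form, c8_phi_cv, c8_phi_cv]

theorem claim_clique (h : IsTw D ρ) (X : Finset S) (hX : D.Clique (X : Set S)) :
    Claim D ρ X := by
  constructor
  · intro g hg r s h0
    apply D.H3 _ hX g hg r s
    have h1 := congrArg (ev0 (S := S) (R₀ := R₀)) h0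
    rw [c8_form, tw_zero D ρ h, map_zero] at h1
    have h2 : ∀ w : ι → R₀, (fun i => ev0 (cv (S := S) w i)) = w := by
      intro w
      ext i
      simp [ev0, cv]
    rwa [h2, h2] at h1
  · intro g hg h0
    apply D.H4 _ hX g hg
    apply Units.ext
    rw [← tw_zero D ρ h, h0, Units.val_one, Units.val_one]
    exact Matrix.map_one _ (map_zero _) (map_one _)

/-- the data of the abstract step -/
noncomputable def c8_data (h : IsTw D ρ) (X : Finset S) (a : S) (Y : Finset S)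
    (hY : ∀ x, x ∈ Y ↔ x ∈ X ∧ (x = a ∨ D.Adj a x))
    (c1 : Claim D ρ (X.erase a)) (c2 : Claim D ρ Y) (r s : S) :
    StepData (G) ι (MvPolynomial S R₀) where
  Φ := ((phiA (R₀ := R₀) a).mapMatrix.toMonoidHom.comp (Units.coeHom _)).comp ρ
  P := D.Par ((X.erase a : Finset S) : Set S)
  Q := D.Par (Y : Set S)
  N := D.Par ((X : Set S) ∩ {x | D.Adj a x})
  Lr := D.Par ((X : Set S) ∩ {x | D.Adj r x})
  Ls := D.Par ((X : Set S) ∩ {x | D.Adj s x})
  A := fun p => (ρ p : Matrix ι ι (MvPolynomial S R₀))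
  B := fun p => (ρ p : Matrix ι ι (MvPolynomial S R₀)).map (psiA a)
  ea := cv (D.e a)
  ea' := cv (D.e' a)
  w := cv (D.e s)
  w' := cv (D.e' r)
  cond := D.Adj r s ∨ r = s
  hP := by
    intro p hp
    exact tw_free D ρ h a p (c8_mono (by
      intro x hx
      simp only [Finset.coe_erase, Set.mem_diff, Set.mem_singleton_iff] at hx
      exact hx.2) hp)
  hQ := by
    intro b hb
    exact tw_hat D ρ h a b (c8_mono (by
      intro x hx
      exact ((hY x).1 hx).2) hb)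
  hNP := by
    apply c8_mono
    rintro x ⟨h1, h2⟩
    simp only [Finset.coe_erase, Set.mem_diff, Set.mem_singleton_iff]
    refine ⟨h1, ?_⟩
    rintro rfl
    exact D.irr _ h2
  hNQ := by
    apply c8_mono
    rintro x ⟨h1, h2⟩
    exact (hY x).2 ⟨h1, Or.inr h2⟩
  hLs := by
    intro v hv
    have h1 := tw_right D ρ h s v (c8_mono (by rintro x ⟨_, h2⟩; exact h2) hv)
    change ((ρ v : Matrix ι ι (MvPolynomial S R₀)).map (phiA a)).mulVec (cvec (cv (D.e s))) =
      cvec (cv (D.e s))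
    rw [← c8_phi_cv a, c8_mulVec, h1]
  hLr := by
    intro v hv
    have h1 := tw_left D ρ h r v (c8_mono (by rintro x ⟨_, h2⟩; exact h2) hv)
    change Matrix.vecMul (cvec (cv (D.e' r))) ((ρ v : Matrix ι ι (MvPolynomial S R₀)).map (phiA a)) =
      cvec (cv (D.e' r))
    rw [← c8_phi_cv a, c8_vecMul, h1]
  ea0 := c8_dot_zero.2 (D.H2 a a (Or.inr rfl))
  ha := by
    intro b hb h0
    have hb' : b ∈ D.Par {x | x = a ∨ D.Adj a x} :=
      c8_mono (by intro x hx; exact ((hY x).1 hx).2) hb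
    rw [tw_psi_left D ρ h a a (D.H2 a a (Or.inr rfl)) b hb'] at h0
    obtain ⟨_, u, hu, v, hv, rfl⟩ := c2.1 b hb a a h0
    have hm : D.Par ((Y : Set S) ∩ {x | D.Adj a x}) ≤
        D.Par ((X : Set S) ∩ {x | D.Adj a x}) :=
      c8_mono (by rintro x ⟨h1, h2⟩; exact ⟨((hY x).1 h1).1, h2⟩)
    exact mul_mem (hm hu) (hm hv)
  hb := by
    intro p hp h0
    obtain ⟨_, u, hu, v, hv, rfl⟩ := c1.1 p hp a a h0
    have hm : D.Par (((X.erase a : Finset S) : Set S) ∩ {x | D.Adj a x}) ≤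
        D.Par ((X : Set S) ∩ {x | D.Adj a x}) :=
      c8_mono (by rintro x ⟨h1, h2⟩; exact ⟨Finset.mem_of_mem_erase h1, h2⟩)
    exact mul_mem (hm hu) (hm hv)
  hc := by
    intro p hp h0
    obtain ⟨h1, u, hu, v, hv, rfl⟩ := c1.1 p hp a s h0
    exact ⟨c8_dot_zero.2 (D.H2 a s h1), u,
      c8_mono (by rintro x ⟨h1, h2⟩; exact ⟨Finset.mem_of_mem_erase h1, h2⟩) hu, v,
      c8_mono (by rintro x ⟨h1, h2⟩; exact ⟨Finset.mem_of_mem_erase h1, h2⟩) hv, rfl⟩
  hd := by
    intro b hb h1 h0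
    have hb' : b ∈ D.Par {x | x = a ∨ D.Adj a x} :=
      c8_mono (by intro x hx; exact ((hY x).1 hx).2) hb
    rw [tw_psi_left D ρ h a s (c8_dot_zero.1 h1) b hb'] at h0
    obtain ⟨_, u, hu, v, hv, rfl⟩ := c2.1 b hb a s h0
    exact ⟨u, c8_mono (by rintro x ⟨h1, h2⟩; exact ⟨((hY x).1 h1).1, h2⟩) hu, v,
      c8_mono (by rintro x ⟨h1, h2⟩; exact ⟨((hY x).1 h1).1, h2⟩) hv, rfl⟩
  hc' := by
    intro p hp h0
    obtain ⟨h1, u, hu, v, hv, rfl⟩ := c1.1 p hp r a h0
    exact ⟨c8_dot_zero.2 (D.H2 r a h1), u,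
      c8_mono (by rintro x ⟨h1, h2⟩; exact ⟨Finset.mem_of_mem_erase h1, h2⟩) hu, v,
      c8_mono (by rintro x ⟨h1, h2⟩; exact ⟨Finset.mem_of_mem_erase h1, h2⟩) hv, rfl⟩
  hd' := by
    intro b hb h1 h0
    have hb' : b ∈ D.Par {x | x = a ∨ D.Adj a x} :=
      c8_mono (by intro x hx; exact ((hY x).1 hx).2) hb
    rw [tw_psi_right D ρ h a r (c8_dot_zero.1 h1) b hb'] at h0
    obtain ⟨_, u, hu, v, hv, rfl⟩ := c2.1 b hb r a h0
    exact ⟨u, c8_mono (by rintro x ⟨h1, h2⟩; exact ⟨((hY x).1 h1).1, h2⟩) hu, v,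
      c8_mono (by rintro x ⟨h1, h2⟩; exact ⟨((hY x).1 h1).1, h2⟩) hv, rfl⟩
  heP := by
    intro p hp h0
    change dotProduct (cvec (cv (D.e' r)))
      (((ρ p : Matrix ι ι (MvPolynomial S R₀)).map (phiA a)).mulVec (cvec (cv (D.e s)))) = 0 at h0
    rw [c8_phi_dot, map_eq_zero_iff _ (phiA_injective a)] at h0
    obtain ⟨h1, u, hu, v, hv, rfl⟩ := c1.1 p hp r s h0
    exact ⟨h1, u, c8_mono (by rintro x ⟨h1, h2⟩; exact ⟨Finset.mem_of_mem_erase h1, h2⟩) hu, v,
      c8_mono (by rintro x ⟨h1, h2⟩; exact ⟨Finset.mem_of_mem_erase h1, h2⟩) hv, rfl⟩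
  heQ := by
    intro b hb h0
    change dotProduct (cvec (cv (D.e' r)))
      (((ρ b : Matrix ι ι (MvPolynomial S R₀)).map (phiA a)).mulVec (cvec (cv (D.e s)))) = 0 at h0
    rw [c8_phi_dot, map_eq_zero_iff _ (phiA_injective a)] at h0
    obtain ⟨h1, u, hu, v, hv, rfl⟩ := c2.1 b hb r s h0
    exact ⟨h1, u, c8_mono (by rintro x ⟨h1, h2⟩; exact ⟨((hY x).1 h1).1, h2⟩) hu, v,
      c8_mono (by rintro x ⟨h1, h2⟩; exact ⟨((hY x).1 h1).1, h2⟩) hv, rfl⟩

theorem claim_step (h : IsTw D ρ) (X : Finset S) (a b : S) (ha : a ∈ X) (hb : b ∈ X)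
    (hab : a ≠ b) (hadj : ¬ D.Adj a b) (ih : ∀ Y : Finset S, Y ⊂ X → Claim D ρ Y) :
    Claim D ρ X := by
  classical
  set Y : Finset S := X.filter (fun x => x = a ∨ D.Adj a x) with hYdef
  have hY : ∀ x, x ∈ Y ↔ x ∈ X ∧ (x = a ∨ D.Adj a x) := by
    intro x
    rw [hYdef, Finset.mem_filter]
  have hYX : Y ⊂ X := by
    refine ⟨fun x hx => ((hY x).1 hx).1, fun hc => ?_⟩
    rcases ((hY b).1 (hc hb)).2 with h1 | h1
    · exact hab h1.symm
    · exact hadj h1
  have c1 := ih (X.erase a) (Finset.erase_ssubset ha)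
  have c2 := ih Y hYX
  have hsup : D.Par (X : Set S) ≤
      D.Par ((X.erase a : Finset S) : Set S) ⊔ D.Par (Y : Set S) := by
    rw [TwData.Par, Subgroup.closure_le]
    rintro _ ⟨x, hx, rfl⟩
    by_cases hxa : x = a
    · exact Subgroup.mem_sup_right (Subgroup.subset_closure
        ⟨x, (hY x).2 ⟨hx, Or.inl hxa⟩, rfl⟩)
    · exact Subgroup.mem_sup_left (Subgroup.subset_closure
        ⟨x, Finset.mem_erase.2 ⟨hxa, hx⟩, rfl⟩)
  have key : ∀ g ∈ D.Par (X : Set S), ∀ r s,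
    dotProduct (cv (D.e' r)) ((ρ g : Matrix ι ι (MvPolynomial S R₀)).mulVec (cv (D.e s))) = 0 →
      (D.Adj r s ∨ r = s) ∧ ∃ u ∈ D.Par ((X : Set S) ∩ {x | D.Adj r x}),
        ∃ v ∈ D.Par ((X : Set S) ∩ {x | D.Adj s x}), g = u * v := by
    intro g hg r s h0
    have h1 := step_final (c8_data D ρ h X a Y hY c1 c2 r s) g (hsup hg)
    apply h1
    change dotProduct (cvec (cv (D.e' r)))
      (((ρ g : Matrix ι ι (MvPolynomial S R₀)).map (phiA a)).mulVec (cvec (cv (D.e s)))) = 0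
    rw [c8_phi_dot, h0, map_zero]
  refine ⟨key, ?_⟩
  intro g hg h0
  apply c1.2 g _ h0
  have h1 : dotProduct (cv (D.e' a))
      ((ρ g : Matrix ι ι (MvPolynomial S R₀)).mulVec (cv (D.e a))) = 0 := by
    rw [h0, Units.val_one, Matrix.one_mulVec]
    exact c8_dot_zero.2 (D.H2 a a (Or.inr rfl))
  obtain ⟨_, u, hu, v, hv, rfl⟩ := key g hg a a h1
  have hm : D.Par ((X : Set S) ∩ {x | D.Adj a x}) ≤
      D.Par ((X.erase a : Finset S) : Set S) := by
    apply c8_mono
    rintro x ⟨h1, h2⟩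
    refine Finset.mem_erase.2 ⟨?_, h1⟩
    rintro rfl
    exact D.irr _ h2
  exact mul_mem (hm hu) (hm hv)

theorem claim_all (h : IsTw D ρ) (X : Finset S) : Claim D ρ X := by
  induction X using Finset.strongInduction with
  | H X ih =>
    by_cases hX : D.Clique (X : Set S)
    · exact claim_clique D ρ h X hX
    · simp only [TwData.Clique, not_forall] at hX
      obtain ⟨a, ha, b, hb, hab, hadj⟩ := hX
      exact claim_step D ρ h X a b ha hb hab hadj ih

end Pool.Agent.AR
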