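import Pool.Agent.Lib.MP_d24c19_al.TwDef
import Pool.Agent.Lib.MP_d24c19_al.C5
import Pool.Agent.Lib.MP_d24c19_al.C8

set_option autoImplicit false

/-!
The generic twisting theorem: a twisted representation is injective (Claim for X = univ).
-/

namespace Pool.Agent.AR

variable {G S ι R₀ : Type} [Group G] [Fintype S] [DecidableEq S] [Fintype ι] [DecidableEq ι]
    [CommRing R₀] [IsDomain R₀] (D : TwData G S ι R₀)

theorem twisting_theorem (ρ : G →* (Matrix ι ι (MvPolynomial S R₀))ˣ) (h : IsTw D ρ) :
    Function.Injective ρ := by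
  refine (injective_iff_map_eq_one ρ).2 ?_
  intro g hg
  refine (claim_all D ρ h Finset.univ).2 g ?_ hg
  have h1 : D.Par ((Finset.univ : Finset S) : Set S) = ⊤ := by
    rw [TwData.Par, Finset.coe_univ, Set.image_univ]
    exact D.top
  rw [h1]
  exact Subgroup.mem_top g

end Pool.Agent.AR
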