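import Pool.Agent.Lib.MP_d24c19_al.Dih

set_option autoImplicit false

/-! The separation property (CL) for cliques. -/

namespace Pool.Agent.AR

open Polynomial

theorem comm_closure {G : Type*} [Group G] {S S' : Set G} (h : ∀ x ∈ S, ∀ y ∈ S', Commute x y) :
    ∀ a ∈ Subgroup.closure S, ∀ b ∈ Subgroup.closure S', Commute a b := by
  have h1 : ∀ a ∈ Subgroup.closure S, ∀ y ∈ S', Commute a y := by
    intro a ha y hy
    induction ha using Subgroup.closure_induction with
    | mem x hx => exact h x hx y hy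
    | one => exact Commute.one_left y
    | mul x z _ _ hx hz => exact hx.mul_left hz
    | inv x _ hx => exact hx.inv_left
  intro a ha b hb
  induction hb using Subgroup.closure_induction with
  | mem x hx => exact h1 a ha x hx
  | one => exact Commute.one_right a
  | mul x z _ _ hx hz => exact hx.mul_right hz
  | inv x _ hx => exact hx.inv_right

theorem prod_closure {G : Type*} [Group G] {S S' : Set G} (h : ∀ x ∈ S, ∀ y ∈ S', Commute x y) {g : G}
    (hg : g ∈ Subgroup.closure (S ∪ S')) :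
    ∃ a ∈ Subgroup.closure S, ∃ b ∈ Subgroup.closure S', g = a * b := by
  have hc := comm_closure h
  induction hg using Subgroup.closure_induction with
  | mem x hx =>
    rcases hx with hx | hx
    · exact ⟨x, Subgroup.subset_closure hx, 1, one_mem _, (mul_one x).symm⟩
    · exact ⟨1, one_mem _, x, Subgroup.subset_closure hx, (one_mul x).symm⟩
  | one => exact ⟨1, one_mem _, 1, one_mem _, (one_mul 1).symm⟩
  | mul x y _ _ hx hy =>
    obtain ⟨a, ha, b, hb, rfl⟩ := hx
    obtain ⟨a', ha', b', hb', rfl⟩ := hy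
    refine ⟨a * a', mul_mem ha ha', b * b', mul_mem hb hb', ?_⟩
    have := (hc a' ha' b hb).eq
    calc a * b * (a' * b') = a * (b * a') * b' := by group
      _ = _ := by rw [← this]; group
  | inv x _ hx =>
    obtain ⟨a, ha, b, hb, rfl⟩ := hx
    refine ⟨a⁻¹, inv_mem ha, b⁻¹, inv_mem hb, ?_⟩
    rw [(hc a ha b hb).eq, mul_inv_rev]

theorem qq_zpow_one {N : ℤ} (h : qq ^ N = 1) : N = 0 := by
  have h1 : ∀ k : ℕ, qq ^ k = 1 → k = 0 := by
    intro k hk
    unfold qq at hk
    rw [← map_pow, ← map_one tK] at hk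
    have h2 := congrArg natDegree (tK_inj hk)
    rw [natDegree_X_pow, natDegree_one] at h2
    exact h2
  obtain ⟨k, rfl | rfl⟩ := N.eq_nat_or_neg
  · rw [zpow_natCast] at h
    rw [h1 k h]; rfl
  · rw [zpow_neg, inv_eq_one, zpow_natCast] at h
    rw [h1 k h]; rfl

section
variable {n : ℕ} (M : CoxeterMatrix (Fin n))

/-- finite label, different generators -/
def AdjM (r s : Fin n) : Prop := r ≠ s ∧ M.M r s ≠ 0

/-- the condition (*) -/
def Star : Prop := ∀ r s t : Fin n, r ≠ s → s ≠ t → r ≠ t → 3 ≤ M.M r s → 3 ≤ M.M s t → M.M r t = 0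

/-- the separation property of a set of generators -/
def CLset (T : Set (Fin n)) : Prop :=
  ∀ T₁ T₂ : Set (Fin n), T₁ ⊆ T → T₂ ⊆ T → ∀ g ∈ Subgroup.closure (gen M '' T),
    (∀ b ∈ T₂, ∀ a ∈ T₁, Psi M g b a = 0) →
    ∃ u ∈ Subgroup.closure (gen M '' (T \ T₂)), ∃ v ∈ Subgroup.closure (gen M '' (T \ T₁)), g = u * v

theorem Psi_mul_right {X : Set (Fin n)} {a b : Fin n} (ha : a ∉ X) {g g' : Art M}
    (hg' : g' ∈ Subgroup.closure (gen M '' X)) : Psi M (g * g') b a = Psi M g b a := by
  have h1 : (rB M g' : Matrix (I0 n) (I0 n) KK).mulVec (om a) = om a := by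
    apply fix_closure M _ hg'
    rintro _ ⟨x, hx, rfl⟩
    apply om_fix
    rintro rfl
    exact ha hx
  rw [Psi_eq, Psi_eq, map_mul, Units.val_mul, ← Matrix.mulVec_mulVec, h1]

theorem par_mono {X Y : Set (Fin n)} (h : X ⊆ Y) :
    Subgroup.closure (gen M '' X) ≤ Subgroup.closure (gen M '' Y) :=
  Subgroup.closure_mono (Set.image_mono h)

theorem CLset_union {B T : Set (Fin n)} (hdis : ∀ x ∈ B, x ∉ T)
    (hcom : ∀ x ∈ B, ∀ y ∈ T, M.M x y = 2) (hB : CLset M B) (hT : CLset M T) : CLset M (B ∪ T) := by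
  have hc : ∀ x ∈ gen M '' B, ∀ y ∈ gen M '' T, Commute x y := by
    rintro _ ⟨x, hx, rfl⟩ _ ⟨y, hy, rfl⟩
    have h2 := hcom x hx y hy
    have h1 := gen_rel M x y (by omega)
    rw [h2] at h1
    have h3 : gen M x * gen M y = gen M y * gen M x := by simpa [alt] using h1
    exact h3
  have hcc := comm_closure hc
  intro T₁ T₂ h₁ h₂ g hg h
  rw [Set.image_union] at hg
  obtain ⟨gB, hgB, gT, hgT, rfl⟩ := prod_closure hc hg
  obtain ⟨u, hu, v, hv, e1⟩ := hB (T₁ ∩ B) (T₂ ∩ B) Set.inter_subset_right Set.inter_subset_right gB hgB (by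
    rintro b ⟨hb, _⟩ a ⟨ha, ha'⟩
    rw [← h b hb a ha]
    exact (Psi_mul_right M (hdis a ha') hgT).symm)
  obtain ⟨u', hu', v', hv', e2⟩ := hT (T₁ ∩ T) (T₂ ∩ T) Set.inter_subset_right Set.inter_subset_right gT hgT (by
    rintro b ⟨hb, _⟩ a ⟨ha, ha'⟩
    rw [← h b hb a ha, (hcc gB hgB gT hgT).eq]
    exact (Psi_mul_right M (fun h3 => hdis a h3 ha') hgB).symm)
  have m1 : ∀ X : Set (Fin n), B \ (X ∩ B) ⊆ (B ∪ T) \ X := by
    rintro X x ⟨h3, h4⟩
    exact ⟨Or.inl h3, fun h5 => h4 ⟨h5, h3⟩⟩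
  have m2 : ∀ X : Set (Fin n), T \ (X ∩ T) ⊆ (B ∪ T) \ X := by
    rintro X x ⟨h3, h4⟩
    exact ⟨Or.inr h3, fun h5 => h4 ⟨h5, h3⟩⟩
  refine ⟨u * u', mul_mem (par_mono M (m1 T₂) hu) (par_mono M (m2 T₂) hu'),
    v * v', mul_mem (par_mono M (m1 T₁) hv) (par_mono M (m2 T₁) hv'), ?_⟩
  have h3 := (hcc v (par_mono M Set.sdiff_subset hv) u' (par_mono M Set.sdiff_subset hu')).eq
  rw [e1, e2]
  calc u * v * (u' * v') = u * (v * u') * v' := by group
    _ = _ := by rw [h3]; group

/-- a single generator -/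
theorem single_one {s : Fin n} {g : Art M} (hg : g ∈ Subgroup.zpowers (gen M s)) (h : Psi M g s s = 0) :
    g = 1 := by
  have hq := qq_ne
  obtain ⟨k, rfl⟩ := hg
  have h1 : (rB M (gen M s) : Matrix (I0 n) (I0 n) KK).mulVec ((1 + qq) • om s + al s) =
      (1 + qq) • om s + al s := by
    rw [rB_gen, xm_mulVec, dotProduct_add, dotProduct_smul, fv_om, if_pos rfl, fv_al_self, smul_eq_mul,
      mul_neg_one, neg_add_cancel, zero_smul, sub_zero]
  have h2 := fix_zpow M h1 (g := gen M s ^ k) ⟨k, rfl⟩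
  have h3 : (rB M (gen M s) : Matrix (I0 n) (I0 n) KK).mulVec (al s) = (-qq) • al s := by
    rw [rB_gen, xm_mulVec, fv_al_self, add_smul, one_smul, neg_smul]
    abel
  have hinv : (rB M (gen M s)⁻¹ : Matrix (I0 n) (I0 n) KK).mulVec (al s) = (-qq)⁻¹ • al s := by
    have h5 : al s = (-qq)⁻¹ • (rB M (gen M s) : Matrix (I0 n) (I0 n) KK).mulVec (al s) := by
      rw [h3, smul_smul, inv_mul_cancel₀ (neg_ne_zero.2 hq), one_smul]
    conv_lhs => rw [h5]
    rw [Matrix.mulVec_smul, Matrix.mulVec_mulVec, ← Units.val_mul, ← map_mul, inv_mul_cancel, map_one,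
      Units.val_one, Matrix.one_mulVec]
  have h4 : ∀ k : ℤ, (rB M (gen M s ^ k) : Matrix (I0 n) (I0 n) KK).mulVec (al s) = (-qq) ^ k • al s := by
    intro k
    induction k using Int.induction_on with
    | zero => rw [zpow_zero, map_one, Units.val_one, Matrix.one_mulVec, zpow_zero, one_smul]
    | succ k ih =>
      rw [zpow_add_one, map_mul, Units.val_mul, ← Matrix.mulVec_mulVec, h3, Matrix.mulVec_smul, ih,
        smul_smul, zpow_add_one₀ (neg_ne_zero.2 hq), mul_comm]
    | pred k ih =>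
      rw [zpow_sub_one, map_mul, Units.val_mul, ← Matrix.mulVec_mulVec, hinv, Matrix.mulVec_smul, ih,
        smul_smul, zpow_sub_one₀ (neg_ne_zero.2 hq), mul_comm]
  rw [Matrix.mulVec_add, Matrix.mulVec_smul, h4] at h2
  have h5 := congrArg (fun v => al s ⬝ᵥ v) h2
  rw [dotProduct_add, dotProduct_smul, dotProduct_smul, dotProduct_add, dotProduct_smul, ← Psi_eq, h,
    al_om, al_al, smul_zero, zero_add, zero_add, smul_eq_mul, mul_one] at h5
  have h6 : qq ^ (2 * k) = 1 := by
    have h7 : ((-qq) ^ k) ^ 2 = 1 := by rw [h5, one_pow]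
    rw [← h7, ← zpow_natCast, ← zpow_mul, mul_comm k, zpow_mul, zpow_mul]
    congr 1
    rw [Nat.cast_ofNat, zpow_ofNat, zpow_ofNat, neg_sq]
  have h7 := qq_zpow_one h6
  have h8 : k = 0 := by omega
  rw [h8]
  exact zpow_zero _

theorem par_single (s : Fin n) : Subgroup.closure (gen M '' {s}) = Subgroup.zpowers (gen M s) := by
  rw [Set.image_singleton, Subgroup.zpowers_eq_closure]

theorem zpow_mem_par {s : Fin n} {X : Set (Fin n)} (h : s ∈ X) {g : Art M}
    (hg : g ∈ Subgroup.zpowers (gen M s)) : g ∈ Subgroup.closure (gen M '' X) := by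
  rw [← par_single] at hg
  exact par_mono M (Set.singleton_subset_iff.2 h) hg

theorem CLset_single (s : Fin n) : CLset M {s} := by
  intro T₁ T₂ h₁ h₂ g hg h
  rw [par_single] at hg
  by_cases c1 : s ∈ T₁
  · by_cases c2 : s ∈ T₂
    · have := single_one M hg (h s c2 s c1)
      exact ⟨1, one_mem _, 1, one_mem _, by rw [this, one_mul]⟩
    · exact ⟨g, zpow_mem_par M (by exact ⟨rfl, c2⟩) hg, 1, one_mem _, (mul_one g).symm⟩
  · exact ⟨1, one_mem _, g, zpow_mem_par M (by exact ⟨rfl, c1⟩) hg, (one_mul g).symm⟩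

theorem CLset_pair {s t : Fin n} (hst : s ≠ t) (hm : 3 ≤ M.M s t) : CLset M {s, t} := by
  have hm' : 3 ≤ M.M t s := by
    have : M.M t s = M.M s t := M.isSymm.apply s t
    omega
  intro T₁ T₂ h₁ h₂ g hg h
  have hg1 : g ∈ Subgroup.closure {gen M s, gen M t} := by rwa [Set.image_pair] at hg
  have hg2 : g ∈ Subgroup.closure {gen M t, gen M s} := by rwa [Set.pair_comm]
  by_cases c1 : s ∈ T₁ ∧ s ∈ T₂
  · have k1 := dih_i M hst hm hg1 (h s c1.2 s c1.1)
    by_cases c2 : t ∈ T₁
    · by_cases c3 : t ∈ T₂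
      · have := single_one M k1 (h t c3 t c2)
        exact ⟨1, one_mem _, 1, one_mem _, by rw [this, one_mul]⟩
      · exact ⟨g, zpow_mem_par M (by exact ⟨Or.inr rfl, c3⟩) k1, 1, one_mem _, (mul_one g).symm⟩
    · exact ⟨1, one_mem _, g, zpow_mem_par M (by exact ⟨Or.inr rfl, c2⟩) k1, (one_mul g).symm⟩
  · by_cases c2 : t ∈ T₁ ∧ t ∈ T₂
    · have k1 := dih_i M hst.symm hm' hg2 (h t c2.2 t c2.1)
      by_cases c3 : s ∈ T₁
      · have c4 : s ∉ T₂ := fun h3 => c1 ⟨c3, h3⟩
        exact ⟨g, zpow_mem_par M (by exact ⟨Or.inl rfl, c4⟩) k1, 1, one_mem _, (mul_one g).symm⟩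
      · exact ⟨1, one_mem _, g, zpow_mem_par M (by exact ⟨Or.inl rfl, c3⟩) k1, (one_mul g).symm⟩
    · by_cases c3 : s ∈ T₁
      · have c4 : s ∉ T₂ := fun h3 => c1 ⟨c3, h3⟩
        by_cases c5 : t ∈ T₂
        · have c6 : t ∉ T₁ := fun h3 => c2 ⟨h3, c5⟩
          obtain ⟨u, hu, v, hv, e⟩ := dih_ii M hst.symm hm' hg2 (h t c5 s c3)
          exact ⟨u, zpow_mem_par M (by exact ⟨Or.inl rfl, c4⟩) hu, v, zpow_mem_par M (by exact ⟨Or.inr rfl, c6⟩) hv, e⟩
        · refine ⟨g, ?_, 1, one_mem _, (mul_one g).symm⟩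
          refine par_mono M ?_ hg
          rintro x (rfl | hx)
          · exact ⟨Or.inl rfl, c4⟩
          · rw [Set.mem_singleton_iff.1 hx]
            exact ⟨Or.inr rfl, c5⟩
      · by_cases c5 : t ∈ T₁
        · have c6 : t ∉ T₂ := fun h3 => c2 ⟨c5, h3⟩
          by_cases c7 : s ∈ T₂
          · obtain ⟨u, hu, v, hv, e⟩ := dih_ii M hst hm hg1 (h s c7 t c5)
            exact ⟨u, zpow_mem_par M (by exact ⟨Or.inr rfl, c6⟩) hu, v, zpow_mem_par M (by exact ⟨Or.inl rfl, c3⟩) hv, e⟩
          · refine ⟨g, ?_, 1, one_mem _, (mul_one g).symm⟩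
            refine par_mono M ?_ hg
            rintro x (rfl | hx)
            · exact ⟨Or.inl rfl, c7⟩
            · rw [Set.mem_singleton_iff.1 hx]
              exact ⟨Or.inr rfl, c6⟩
        · refine ⟨1, one_mem _, g, ?_, (one_mul g).symm⟩
          refine par_mono M ?_ hg
          rintro x (rfl | hx)
          · exact ⟨Or.inl rfl, c3⟩
          · rw [Set.mem_singleton_iff.1 hx]
            exact ⟨Or.inr rfl, c5⟩

theorem CLset_all (hM : Star M) (T : Finset (Fin n))
    (hT : ∀ a ∈ T, ∀ b ∈ T, a ≠ b → AdjM M a b) : CLset M (T : Set (Fin n)) := by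
  have hsym : ∀ a b, M.M a b = M.M b a := fun a b => M.isSymm.apply b a
  induction T using Finset.strongInduction with
  | H T ih =>
    rcases T.eq_empty_or_nonempty with h0 | ⟨s, hs⟩
    · subst h0
      intro T₁ T₂ _ _ g hg _
      refine ⟨1, one_mem _, 1, one_mem _, ?_⟩
      rw [Finset.coe_empty, Set.image_empty, Subgroup.closure_empty, Subgroup.mem_bot] at hg
      rw [hg, one_mul]
    · have h2 : ∀ a ∈ T, ∀ b ∈ T, a ≠ b → 2 ≤ M.M a b := by
        intro a ha b hb hab
        have h3 := (hT a ha b hb hab).2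
        have h4 := M.off_diagonal a b hab
        omega
      by_cases hc : ∃ t ∈ T, s ≠ t ∧ 3 ≤ M.M s t
      · obtain ⟨t, ht, hst, hm⟩ := hc
        have e : (T : Set (Fin n)) = ({s, t} : Set (Fin n)) ∪ (((T.erase s).erase t : Finset (Fin n)) : Set (Fin n)) := by
          ext x
          simp only [Set.mem_union, Set.mem_insert_iff, Set.mem_singleton_iff, Finset.mem_coe,
            Finset.mem_erase]
          constructor
          · intro hx
            by_cases h3 : x = s
            · exact Or.inl (Or.inl h3)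
            · by_cases h4 : x = t
              · exact Or.inl (Or.inr h4)
              · exact Or.inr ⟨h4, h3, hx⟩
          · rintro ((rfl | rfl) | ⟨_, _, hx⟩)
            · exact hs
            · exact ht
            · exact hx
        rw [e]
        apply CLset_union
        · intro x hx hx'
          rw [Finset.mem_coe, Finset.mem_erase, Finset.mem_erase] at hx'
          rcases hx with rfl | hx
          · exact hx'.2.1 rfl
          · exact hx'.1 hx
        · intro x hx y hy
          rw [Finset.mem_coe, Finset.mem_erase, Finset.mem_erase] at hy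
          obtain ⟨hyt, hys, hy⟩ := hy
          rcases hx with rfl | hx
          · have h3 := h2 x hs y hy (fun h => hys h.symm)
            by_contra h4
            have h5 := hM y x t hys hst hyt (by rw [hsym]; omega) hm
            exact (hT y hy t ht hyt).2 h5
          · rw [Set.mem_singleton_iff.1 hx]
            have h3 := h2 t ht y hy (fun h => hyt h.symm)
            by_contra h4
            have h5 := hM y t s hyt (fun h => hst h.symm) hys (by rw [hsym]; omega) (by rw [hsym]; exact hm)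
            exact (hT y hy s hs hys).2 h5
        · exact CLset_pair M hst hm
        · apply ih
          · refine (Finset.erase_subset _ _).trans_ssubset (Finset.erase_ssubset hs)
          · intro a ha b hb hab
            exact hT a (Finset.mem_of_mem_erase (Finset.mem_of_mem_erase ha)) b
              (Finset.mem_of_mem_erase (Finset.mem_of_mem_erase hb)) hab
      · have e : (T : Set (Fin n)) = ({s} : Set (Fin n)) ∪ ((T.erase s : Finset (Fin n)) : Set (Fin n)) := by
          ext x
          simp only [Set.mem_union, Set.mem_singleton_iff, Finset.mem_coe, Finset.mem_erase]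
          constructor
          · intro hx
            by_cases h3 : x = s
            · exact Or.inl h3
            · exact Or.inr ⟨h3, hx⟩
          · rintro (rfl | ⟨_, hx⟩)
            · exact hs
            · exact hx
        rw [e]
        apply CLset_union
        · intro x hx hx'
          rw [Finset.mem_coe, Finset.mem_erase] at hx'
          exact hx'.1 hx
        · intro x hx y hy
          rw [Set.mem_singleton_iff.1 hx]
          rw [Finset.mem_coe, Finset.mem_erase] at hy
          have h3 := h2 s hs y hy.2 (fun h => hy.1 h.symm)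
          by_contra h4
          exact hc ⟨y, hy.2, fun h => hy.1 h.symm, by omega⟩
        · exact CLset_single M s
        · apply ih _ (Finset.erase_ssubset hs)
          intro a ha b hb hab
          exact hT a (Finset.mem_of_mem_erase ha) b (Finset.mem_of_mem_erase hb) hab

/-- (CL): `hT` says that `T` is a clique -/
theorem CL (hM : Star M) (T : Set (Fin n)) (hT : ∀ a ∈ T, ∀ b ∈ T, a ≠ b → AdjM M a b)
    (T₁ T₂ : Set (Fin n)) (h₁ : T₁ ⊆ T) (h₂ : T₂ ⊆ T) (g : Art M)
    (hg : g ∈ Subgroup.closure (gen M '' T)) (h : ∀ b ∈ T₂, ∀ a ∈ T₁, Psi M g b a = 0) :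
    ∃ u ∈ Subgroup.closure (gen M '' (T \ T₂)), ∃ v ∈ Subgroup.closure (gen M '' (T \ T₁)), g = u * v := by
  classical
  have h1 := CLset_all M hM T.toFinset (by
    intro a ha b hb
    rw [Set.mem_toFinset] at ha hb
    exact hT a ha b hb)
  rw [Set.coe_toFinset] at h1
  exact h1 T₁ T₂ h₁ h₂ g hg h

end

end Pool.Agent.AR
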