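import Mathlib

set_option autoImplicit false

/-! Domains of characteristic zero and cardinality `𝔠` embed in `ℂ`. -/

namespace Pool.Agent.AR

open Cardinal

theorem exists_embed (R : Type) [CommRing R] [IsDomain R] [CharZero R] (hR : #R = 𝔠) :
    ∃ f : R →+* ℂ, Function.Injective f := by
  have h1 : #(FractionRing R) = 𝔠 := by rw [FractionRing.cardinalMk, hR]
  have : CharZero (FractionRing R) :=
    charZero_of_injective_algebraMap (IsFractionRing.injective R (FractionRing R))
  have h2 : #(AlgebraicClosure (FractionRing R)) = 𝔠 := by
    apply le_antisymm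
    · have := Algebra.IsAlgebraic.cardinalMk_le_max (FractionRing R) (AlgebraicClosure (FractionRing R))
      rwa [h1, max_eq_left aleph0_le_continuum] at this
    · rw [← h1]
      exact mk_le_of_injective (algebraMap (FractionRing R) (AlgebraicClosure (FractionRing R))).injective
  have : CharZero (AlgebraicClosure (FractionRing R)) :=
    charZero_of_injective_algebraMap
      (algebraMap (FractionRing R) (AlgebraicClosure (FractionRing R))).injective
  have h3 : Nonempty (AlgebraicClosure (FractionRing R) ≃ ℂ) := by
    rw [← Cardinal.eq, h2, mk_complex]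
  obtain ⟨e⟩ := IsAlgClosed.ringEquiv_of_equiv_of_charZero (by rw [h2]; exact aleph0_lt_continuum) h3
  refine ⟨(e : AlgebraicClosure (FractionRing R) →+* ℂ).comp
    ((algebraMap (FractionRing R) (AlgebraicClosure (FractionRing R))).comp
      (algebraMap R (FractionRing R))), ?_⟩
  exact e.injective.comp ((algebraMap (FractionRing R) (AlgebraicClosure (FractionRing R))).injective.comp
    (IsFractionRing.injective R (FractionRing R)))

theorem card_mv (σ : Type) [Finite σ] (R : Type) [CommRing R] [Nontrivial R] (hR : #R = 𝔠) :
    #(MvPolynomial σ R) = 𝔠 := by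
  apply le_antisymm
  · refine MvPolynomial.cardinalMk_le_max.trans ?_
    rw [hR]
    refine max_le (max_le le_rfl ?_) aleph0_le_continuum
    exact (lt_aleph0_of_finite σ).le.trans aleph0_le_continuum
  · rw [← hR]
    exact mk_le_of_injective (MvPolynomial.C_injective σ R)

theorem card_frac : #(FractionRing (Polynomial ℝ)) = 𝔠 := by
  rw [FractionRing.cardinalMk, Polynomial.cardinalMk_eq_max, mk_real, max_eq_left aleph0_le_continuum]

end Pool.Agent.AR
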