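import Mathlib

set_option autoImplicit false

/-! Artin groups, alternating products, the identities of dihedral Artin groups. -/

namespace Pool.Agent.AR

/-- alternating product `a b a ...` with `n` factors -/
def alt {G : Type*} [Monoid G] : ℕ → G → G → G
  | 0, _, _ => 1
  | n + 1, a, b => a * alt n b a

theorem alt_map {G H : Type*} [Monoid G] [Monoid H] (f : G →* H) (n : ℕ) (a b : G) :
    f (alt n a b) = alt n (f a) (f b) := by
  induction n generalizing a b with
  | zero => simp [alt]
  | succ n ih => simp [alt, ih]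

theorem alt_two {G : Type*} [Monoid G] (n : ℕ) (a b : G) : alt (n + 2) a b = a * b * alt n a b := by
  simp [alt, mul_assoc]

theorem alt_even {G : Type*} [Monoid G] (n : ℕ) (a b : G) : alt (2 * n) a b = (a * b) ^ n := by
  induction n with
  | zero => simp [alt]
  | succ n ih => rw [show 2 * (n + 1) = 2 * n + 2 by ring, alt_two, ih, pow_succ']

theorem alt_odd {G : Type*} [Monoid G] (n : ℕ) (a b : G) : alt (2 * n + 1) a b = (a * b) ^ n * a := by
  induction n with
  | zero => simp [alt]
  | succ n ih =>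
    rw [show 2 * (n + 1) + 1 = 2 * n + 1 + 2 by ring, alt_two, ih, pow_succ']
    simp only [mul_assoc]

theorem alt_odd' {G : Type*} [Monoid G] (n : ℕ) (a b : G) : alt (2 * n + 1) a b = a * (b * a) ^ n := by
  rw [alt, alt_even]

theorem alt_list {G : Type*} [Monoid G] (n : ℕ) (a b : G) :
    ((List.range n).map (fun k => if Even k then a else b)).prod = alt n a b := by
  induction n generalizing a b with
  | zero => simp [alt]
  | succ n ih =>
    rw [List.range_succ_eq_map, List.map_cons, List.prod_cons, List.map_map, alt, ← ih b a]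
    simp only [Even.zero, if_true]
    congr 3
    funext k
    simp only [Function.comp, Nat.succ_eq_add_one]
    by_cases hk : Even k
    · rw [if_pos hk, if_neg (by rw [Nat.even_add_one]; exact not_not.2 hk)]
    · rw [if_neg hk, if_pos (by rw [Nat.even_add_one]; exact hk)]

theorem alt_conj {G : Type*} [Group G] (w : G) (n : ℕ) (a b : G) :
    alt n (w * a * w⁻¹) (w * b * w⁻¹) = w * alt n a b * w⁻¹ := by
  have := alt_map (MulAut.conj w).toMonoidHom n a b
  simpa using this.symm

/-- the relations of the Artin group of `M` -/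
def relSet {n : ℕ} (M : CoxeterMatrix (Fin n)) : Set (FreeGroup (Fin n)) :=
  {r : FreeGroup (Fin n) | ∃ i j : Fin n, M.M i j ≠ 0 ∧
            r = ((List.range (M.M i j)).map
                    (fun k => if Even k then FreeGroup.of i else FreeGroup.of j)).prod *
                (((List.range (M.M i j)).map
                    (fun k => if Even k then FreeGroup.of j else FreeGroup.of i)).prod)⁻¹}

/-- the Artin group -/
abbrev Art {n : ℕ} (M : CoxeterMatrix (Fin n)) : Type := PresentedGroup (relSet M)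

/-- the generators -/
def gen {n : ℕ} (M : CoxeterMatrix (Fin n)) (s : Fin n) : Art M := PresentedGroup.of s

theorem gen_rel {n : ℕ} (M : CoxeterMatrix (Fin n)) (i j : Fin n) (h : M.M i j ≠ 0) :
    alt (M.M i j) (gen M i) (gen M j) = alt (M.M i j) (gen M j) (gen M i) := by
  have h1 : PresentedGroup.mk (relSet M) (((List.range (M.M i j)).map
                    (fun k => if Even k then FreeGroup.of i else FreeGroup.of j)).prod *
                (((List.range (M.M i j)).map
                    (fun k => if Even k then FreeGroup.of j else FreeGroup.of i)).prod)⁻¹) = 1 :=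
    (QuotientGroup.eq_one_iff _).2 (Subgroup.subset_normalClosure ⟨i, j, h, rfl⟩)
  rw [alt_list, alt_list, map_mul, map_inv, alt_map, alt_map] at h1
  exact mul_inv_eq_one.1 h1

/-- universal property -/
def artLift {n : ℕ} {M : CoxeterMatrix (Fin n)} {H : Type*} [Group H] (f : Fin n → H)
    (h : ∀ i j, M.M i j ≠ 0 → alt (M.M i j) (f i) (f j) = alt (M.M i j) (f j) (f i)) : Art M →* H :=
  PresentedGroup.toGroup (f := f) (by
    rintro _ ⟨i, j, hij, rfl⟩
    rw [alt_list, alt_list, map_mul, map_inv, alt_map, alt_map]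
    simp only [FreeGroup.lift_apply_of]
    rw [h i j hij, mul_inv_cancel])

theorem artLift_gen {n : ℕ} {M : CoxeterMatrix (Fin n)} {H : Type*} [Group H] (f : Fin n → H)
    (h : ∀ i j, M.M i j ≠ 0 → alt (M.M i j) (f i) (f j) = alt (M.M i j) (f j) (f i)) (s : Fin n) :
    artLift f h (gen M s) = f s := by
  simp [artLift, gen]

theorem art_top {n : ℕ} (M : CoxeterMatrix (Fin n)) : Subgroup.closure (Set.range (gen M)) = ⊤ :=
  PresentedGroup.closure_range_of _

section dih
variable {G : Type*} [Group G] {s t : G} {m : ℕ}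

theorem U_odd {h : ℕ} (H : alt (2 * h + 1) s t = alt (2 * h + 1) t s) :
    s * (s * t) ^ h * s = (s * t) ^ (h + 1) := by
  rw [alt_odd, alt_odd'] at H
  rw [mul_assoc, H, ← mul_assoc, pow_succ']

theorem U_odd_comm {h : ℕ} (H : alt (2 * h + 1) s t = alt (2 * h + 1) t s) :
    Commute ((s * t) ^ (2 * h + 1)) s := by
  have h1 := U_odd H
  have h2 : s * (s * t) ^ h = (s * t) ^ (h + 1) * s⁻¹ := by rw [← h1]; group
  have h3 : (s * t) ^ h * s = s⁻¹ * (s * t) ^ (h + 1) := by rw [← h1]; group
  unfold Commute SemiconjBy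
  calc (s * t) ^ (2 * h + 1) * s = (s * t) ^ (h + 1) * ((s * t) ^ h * s) := by
        rw [← mul_assoc, ← pow_add]; congr 2; omega
    _ = ((s * t) ^ (h + 1) * s⁻¹) * (s * t) ^ (h + 1) := by rw [h3]; group
    _ = s * ((s * t) ^ h * (s * t) ^ (h + 1)) := by rw [← h2]; group
    _ = s * (s * t) ^ (2 * h + 1) := by rw [← pow_add]; congr 2; omega

theorem U_even_comm {h : ℕ} (H : alt (2 * h) s t = alt (2 * h) t s) :
    Commute ((s * t) ^ h) s := by
  rw [alt_even, alt_even] at H
  unfold Commute SemiconjBy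
  have h1 : (s * t) ^ h * s = s * (t * s) ^ h := by
    have := alt_odd h s t
    rw [alt_odd'] at this
    exact this.symm
  rw [h1, ← H]

/-- (I2) -/
theorem I2 (hm : 1 ≤ m) (H : alt m s t = alt m t s) {k : ℤ} (hk : (m : ℤ) ∣ 2 * k) :
    Commute ((s * t) ^ k) s := by
  rcases Nat.even_or_odd' m with ⟨h, rfl | rfl⟩
  · obtain ⟨c, hc⟩ := hk
    have : k = h * c := by push_cast at hc; linarith
    rw [this, zpow_mul, zpow_natCast]
    exact (U_even_comm H).zpow_left c
  · have h1 : ((2 * h + 1 : ℕ) : ℤ) ∣ k := by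
      refine (Int.isCoprime_iff_gcd_eq_one.2 ?_ : IsCoprime ((2 * h + 1 : ℕ) : ℤ) 2).dvd_of_dvd_mul_left hk
      have : Nat.gcd (2 * h + 1) 2 = 1 := by simp
      exact_mod_cast this
    obtain ⟨c, rfl⟩ := h1
    rw [zpow_mul, zpow_natCast]
    exact (U_odd_comm H).zpow_left c

theorem I2t (hm : 1 ≤ m) (H : alt m s t = alt m t s) {k : ℤ} (hk : (m : ℤ) ∣ 2 * k) :
    Commute ((s * t) ^ k) t := by
  have h1 := I2 hm H hk
  have h2 : Commute ((s * t) ^ k) (s * t) := (Commute.refl (s * t)).zpow_left k
  have h3 : t = s⁻¹ * (s * t) := by group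
  conv_rhs => rw [h3]
  exact h1.inv_right.mul_right h2

/-- (I1) -/
theorem I1 (H : alt m s t = alt m t s) {k : ℤ} (hk : (m : ℤ) ∣ 2 * k + 1) :
    s * (s * t) ^ k * s = (s * t) ^ (k + 1) := by
  obtain ⟨c, hc⟩ := hk
  rcases Nat.even_or_odd' m with ⟨h, rfl | rfl⟩
  · have h2 : 2 * k + 1 = 2 * ((h : ℤ) * c) := by rw [hc]; push_cast; ring
    omega
  · rcases Int.even_or_odd' c with ⟨j, rfl | rfl⟩
    · have h2 : 2 * k + 1 = 2 * ((2 * (h : ℤ) + 1) * j) := by rw [hc]; push_cast; ring
      omega
    · have hk' : k = h + ((2 * h + 1 : ℕ) : ℤ) * j := by push_cast at hc ⊢; linarith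
      have h1 := U_odd H
      have h2 : Commute (((s * t) ^ (2 * h + 1)) ^ j) s := (U_odd_comm H).zpow_left j
      rw [hk', zpow_add, zpow_mul, zpow_natCast, zpow_natCast]
      calc s * ((s * t) ^ h * ((s * t) ^ (2 * h + 1)) ^ j) * s
          = s * (s * t) ^ h * (((s * t) ^ (2 * h + 1)) ^ j * s) := by group
        _ = s * (s * t) ^ h * s * ((s * t) ^ (2 * h + 1)) ^ j := by rw [h2.eq]; group
        _ = (s * t) ^ (h + 1) * ((s * t) ^ (2 * h + 1)) ^ j := by rw [h1]
        _ = _ := by
          rw [← zpow_natCast, ← zpow_natCast, ← zpow_mul, ← zpow_add]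
          congr 1
          push_cast
          ring

theorem I1a (H : alt m s t = alt m t s) {k : ℤ} (hk : (m : ℤ) ∣ 2 * k + 1) :
    (s * t) ^ k * s = t * (s * t) ^ k := by
  have h1 := I1 H hk
  have h2 : s * ((s * t) ^ k * s) = s * (t * (s * t) ^ k) := by
    rw [← mul_assoc, h1, add_comm, zpow_add, zpow_one, mul_assoc]
  exact mul_left_cancel h2

theorem I1c (H : alt m s t = alt m t s) {k : ℤ} (hk : (m : ℤ) ∣ 2 * k - 1) :
    s * (s * t) ^ (k - 1) * s = (s * t) ^ k := by
  have h1 := I1 H (k := k - 1) (by rw [show 2 * (k - 1) + 1 = 2 * k - 1 by ring]; exact hk)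
  rwa [sub_add_cancel] at h1

theorem I1b (H : alt m s t = alt m t s) {k : ℤ} (hk : (m : ℤ) ∣ 2 * k - 1) :
    s * (s * t) ^ k = (s * t) ^ k * t := by
  have h1 := I1c H hk
  calc s * (s * t) ^ k = s * ((s * t) ^ (k - 1) * (s * t)) := by rw [← zpow_add_one, sub_add_cancel]
    _ = s * (s * t) ^ (k - 1) * s * t := by group
    _ = _ := by rw [h1]

end dih

end Pool.Agent.AR
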