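import Pool.Agent.Lib.MP_d24c19_al.C9
import Pool.Agent.Lib.MP_d24c19_al.Grp

set_option autoImplicit false

/-! The data of the twisting theorem, from a representation with sources having the property (CL). -/

namespace Pool.Agent.AR

open MvPolynomial

/-- a representation with sources -/
structure BurData (G : Type) [Group G] (n : ℕ) (K : Type) [CommRing K] where
  gen : Fin n → G
  Adj : Fin n → Fin n → Prop
  symm : ∀ r s, Adj r s → Adj s r
  irr : ∀ s, ¬ Adj s s
  top : Subgroup.closure (Set.range gen) = ⊤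
  rB : G →* (Matrix (Fin n ⊕ Fin n) (Fin n ⊕ Fin n) K)ˣ
  om : ∀ r a, r ≠ a → ∀ i, (rB (gen r) : Matrix (Fin n ⊕ Fin n) (Fin n ⊕ Fin n) K) i (Sum.inr a) =
    (1 : Matrix (Fin n ⊕ Fin n) (Fin n ⊕ Fin n) K) i (Sum.inr a)
  w : ∀ r b, r ≠ b → ∀ j, (rB (gen r) : Matrix (Fin n ⊕ Fin n) (Fin n ⊕ Fin n) K) (Sum.inl b) j =
    (1 : Matrix (Fin n ⊕ Fin n) (Fin n ⊕ Fin n) K) (Sum.inl b) j
  CL : ∀ T : Set (Fin n), (∀ a ∈ T, ∀ b ∈ T, a ≠ b → Adj a b) → ∀ T₁ T₂ : Set (Fin n), T₁ ⊆ T → T₂ ⊆ T →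
    ∀ g ∈ Subgroup.closure (gen '' T),
    (∀ b ∈ T₂, ∀ a ∈ T₁, (rB g : Matrix (Fin n ⊕ Fin n) (Fin n ⊕ Fin n) K) (Sum.inl b) (Sum.inr a) = 0) →
    ∃ u ∈ Subgroup.closure (gen '' (T \ T₂)), ∃ v ∈ Subgroup.closure (gen '' (T \ T₁)), g = u * v

section
variable {G : Type} [Group G] {n : ℕ} {K : Type} [CommRing K]

/-- add a trivial block -/
noncomputable def blk (n : ℕ) (K : Type) [CommRing K] : Matrix (Fin n ⊕ Fin n) (Fin n ⊕ Fin n) K →*
    Matrix ((Fin n ⊕ Fin n) ⊕ Fin n) ((Fin n ⊕ Fin n) ⊕ Fin n) (MvPolynomial (Fin n ⊕ Fin n) K) where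
  toFun A := Matrix.fromBlocks (A.map C) 0 0 1
  map_one' := by
    rw [Matrix.map_one _ (map_zero _) (map_one _), Matrix.fromBlocks_one]
  map_mul' A B := by
    rw [Matrix.fromBlocks_multiply, Matrix.map_mul]
    simp

theorem blk_apply (A : Matrix (Fin n ⊕ Fin n) (Fin n ⊕ Fin n) K) :
    blk n K A = Matrix.fromBlocks (A.map C) 0 0 1 := rfl

open Classical in
/-- the part of `e_s` in the module -/
noncomputable def es0 (Adj : Fin n → Fin n → Prop) (s : Fin n) : Fin n ⊕ Fin n → MvPolynomial (Fin n ⊕ Fin n) K :=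
  Sum.elim (fun _ => 0) (fun a => if Adj s a then 0 else X (Sum.inl a))

open Classical in
/-- the part of `e'_r` in the module -/
noncomputable def er0 (Adj : Fin n → Fin n → Prop) (r : Fin n) : Fin n ⊕ Fin n → MvPolynomial (Fin n ⊕ Fin n) K :=
  Sum.elim (fun b => if Adj r b then 0 else X (Sum.inr b)) (fun _ => 0)

open Classical in
/-- the trivial part of `e_s` -/
noncomputable def es1 (K : Type) [CommRing K] (s : Fin n) : Fin n → MvPolynomial (Fin n ⊕ Fin n) K :=
  fun t => if t = s then 1 else 0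

open Classical in
/-- the trivial part of `e'_r` -/
noncomputable def er1 (K : Type) [CommRing K] (Adj : Fin n → Fin n → Prop) (r : Fin n) :
    Fin n → MvPolynomial (Fin n ⊕ Fin n) K :=
  fun t => if t ≠ r ∧ ¬ Adj r t then 1 else 0

open Classical in
theorem er1_es1 (Adj : Fin n → Fin n → Prop) (r s : Fin n) :
    er1 K Adj r ⬝ᵥ es1 K s = if s ≠ r ∧ ¬ Adj r s then 1 else 0 := by
  unfold es1
  have h : (fun t => if t = s then (1 : MvPolynomial (Fin n ⊕ Fin n) K) else 0) = Pi.single s 1 := by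
    funext t
    by_cases ht : t = s
    · rw [if_pos ht, ht, Pi.single_eq_same]
    · rw [if_neg ht, Pi.single_eq_of_ne ht]
  rw [h, dotProduct_single, mul_one]
  rfl

theorem er0_es0 (Adj : Fin n → Fin n → Prop) (r s : Fin n) :
    (er0 Adj r : Fin n ⊕ Fin n → MvPolynomial (Fin n ⊕ Fin n) K) ⬝ᵥ es0 Adj s = 0 := by
  unfold dotProduct
  apply Finset.sum_eq_zero
  rintro (b | a) _
  · simp [es0]
  · simp [er0]

theorem pair_blk (Adj : Fin n → Fin n → Prop) (A : Matrix (Fin n ⊕ Fin n) (Fin n ⊕ Fin n) K) (r s : Fin n) :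
    Sum.elim (er0 Adj r) (er1 K Adj r) ⬝ᵥ (blk n K A).mulVec (Sum.elim (es0 Adj s) (es1 K s)) =
      er0 Adj r ⬝ᵥ (A.map C).mulVec (es0 Adj s) + er1 K Adj r ⬝ᵥ es1 K s := by
  rw [blk_apply, Matrix.fromBlocks_mulVec]
  simp only [Matrix.zero_mulVec, add_zero, zero_add, Matrix.one_mulVec]
  rw [Sum.elim_comp_inl, Sum.elim_comp_inr, sumElim_dotProduct_sumElim]

theorem eval_pair (Adj : Fin n → Fin n → Prop) (A : Matrix (Fin n ⊕ Fin n) (Fin n ⊕ Fin n) K) (r s : Fin n)
    (f : Fin n ⊕ Fin n → K) :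
    eval f (er0 Adj r ⬝ᵥ (A.map C).mulVec (es0 Adj s)) =
      (fun i => eval f (er0 Adj r i)) ⬝ᵥ A.mulVec (fun i => eval f (es0 Adj s i)) := by
  simp [dotProduct, Matrix.mulVec, map_sum, map_mul]

end

section
variable {G : Type} [Group G] {n : ℕ} {K : Type} [CommRing K] (B : BurData G n K)

theorem BurData.coeff_zero (g : G) (r s a b : Fin n)
    (h : er0 B.Adj r ⬝ᵥ ((B.rB g : Matrix (Fin n ⊕ Fin n) (Fin n ⊕ Fin n) K).map C).mulVec
      (es0 B.Adj s) = 0) (ha : ¬ B.Adj s a) (hb : ¬ B.Adj r b) :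
    (B.rB g : Matrix (Fin n ⊕ Fin n) (Fin n ⊕ Fin n) K) (Sum.inl b) (Sum.inr a) = 0 := by
  classical
  have h1 := congrArg (eval (Sum.elim (fun x => if x = a then (1 : K) else 0)
    (fun x => if x = b then (1 : K) else 0))) h
  rw [eval_pair, map_zero] at h1
  have e1 : (fun i => eval (Sum.elim (fun x => if x = a then (1 : K) else 0)
      (fun x => if x = b then (1 : K) else 0)) (er0 B.Adj r i)) = Pi.single (Sum.inl b) 1 := by
    funext i
    rcases i with x | x
    · by_cases hx : x = b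
      · subst hx
        rw [Pi.single_eq_same]
        simp [er0, hb]
      · rw [Pi.single_eq_of_ne (fun h2 => hx (Sum.inl_injective h2))]
        by_cases h3 : B.Adj r x
        · simp [er0, h3]
        · simp [er0, h3, hx]
    · rw [Pi.single_eq_of_ne Sum.inr_ne_inl]
      simp [er0]
  have e2 : (fun i => eval (Sum.elim (fun x => if x = a then (1 : K) else 0)
      (fun x => if x = b then (1 : K) else 0)) (es0 B.Adj s i)) = Pi.single (Sum.inr a) 1 := by
    funext i
    rcases i with x | x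
    · rw [Pi.single_eq_of_ne Sum.inl_ne_inr]
      simp [es0]
    · by_cases hx : x = a
      · subst hx
        rw [Pi.single_eq_same]
        simp [es0, ha]
      · rw [Pi.single_eq_of_ne (fun h2 => hx (Sum.inr_injective h2))]
        by_cases h3 : B.Adj s x
        · simp [es0, h3]
        · simp [es0, h3, hx]
  rw [e1, e2, Matrix.mulVec_single_one, single_dotProduct, one_mul] at h1
  exact h1

/-- the data -/
noncomputable def BurData.toTw [Nontrivial K] :
    TwData G (Fin n) ((Fin n ⊕ Fin n) ⊕ Fin n) (MvPolynomial (Fin n ⊕ Fin n) K) where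
  gen := B.gen
  Adj := B.Adj
  symm := B.symm
  irr := B.irr
  top := B.top
  ρ₀ := (Units.map (blk n K)).comp B.rB
  e s := Sum.elim (es0 B.Adj s) (es1 K s)
  e' r := Sum.elim (er0 B.Adj r) (er1 K B.Adj r)
  H1 := by
    intro r s hrs
    rw [MonoidHom.comp_apply, Units.coe_map, blk_apply, Matrix.fromBlocks_mulVec]
    simp only [Matrix.zero_mulVec, add_zero, zero_add, Matrix.one_mulVec]
    rw [Sum.elim_comp_inl, Sum.elim_comp_inr]
    congr 1
    funext i
    have h1 : ((B.rB (B.gen r) : Matrix (Fin n ⊕ Fin n) (Fin n ⊕ Fin n) K).map C).mulVec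
        (es0 B.Adj s) i = ((1 : Matrix (Fin n ⊕ Fin n) (Fin n ⊕ Fin n) K).map C).mulVec (es0 B.Adj s) i := by
      unfold Matrix.mulVec dotProduct
      apply Finset.sum_congr rfl
      rintro (b | a) _
      · simp [es0]
      · by_cases ha : B.Adj s a
        · simp [es0, ha]
        · have hra : r ≠ a := by rintro rfl; exact ha (B.symm _ _ hrs)
          change C ((B.rB (B.gen r) : Matrix (Fin n ⊕ Fin n) (Fin n ⊕ Fin n) K) i (Sum.inr a)) * _ =
            C ((1 : Matrix (Fin n ⊕ Fin n) (Fin n ⊕ Fin n) K) i (Sum.inr a)) * _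
          rw [B.om r a hra i]
    rw [h1, Matrix.map_one _ (map_zero _) (map_one _), Matrix.one_mulVec]
  H1' := by
    intro r s hrs
    rw [MonoidHom.comp_apply, Units.coe_map, blk_apply, Matrix.vecMul_fromBlocks]
    simp only [Matrix.vecMul_zero, add_zero, zero_add, Matrix.vecMul_one]
    rw [Sum.elim_comp_inl, Sum.elim_comp_inr]
    congr 1
    funext i
    have h1 : Matrix.vecMul (er0 B.Adj s) ((B.rB (B.gen r) : Matrix (Fin n ⊕ Fin n) (Fin n ⊕ Fin n) K).map C) i =
        Matrix.vecMul (er0 B.Adj s) ((1 : Matrix (Fin n ⊕ Fin n) (Fin n ⊕ Fin n) K).map C) i := by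
      unfold Matrix.vecMul dotProduct
      apply Finset.sum_congr rfl
      rintro (b | a) _
      · by_cases hb : B.Adj s b
        · simp [er0, hb]
        · have hrb : r ≠ b := by rintro rfl; exact hb (B.symm _ _ hrs)
          change _ * C ((B.rB (B.gen r) : Matrix (Fin n ⊕ Fin n) (Fin n ⊕ Fin n) K) (Sum.inl b) i) =
            _ * C ((1 : Matrix (Fin n ⊕ Fin n) (Fin n ⊕ Fin n) K) (Sum.inl b) i)
          rw [B.w r b hrb i]
      · simp [er0]
    rw [h1, Matrix.map_one _ (map_zero _) (map_one _), Matrix.vecMul_one]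
  H2 := by
    classical
    intro r s hrs
    rw [sumElim_dotProduct_sumElim, er0_es0, zero_add, er1_es1, if_neg]
    rintro ⟨h1, h2⟩
    rcases hrs with h3 | h3
    · exact h2 h3
    · exact h1 h3.symm
  H3 := by
    classical
    intro T hT g hg r s h
    rw [MonoidHom.comp_apply, Units.coe_map, pair_blk, er1_es1] at h
    have h1 := congrArg (eval (fun _ => (0 : K))) h
    rw [map_add, eval_pair, map_zero] at h1
    have e1 : (fun i => eval (fun _ => (0 : K)) (er0 B.Adj r i)) = 0 := by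
      funext i
      rcases i with x | x
      · by_cases h3 : B.Adj r x
        · simp [er0, h3]
        · simp [er0, h3]
      · simp [er0]
    rw [e1, zero_dotProduct, zero_add] at h1
    have hrs : B.Adj r s ∨ r = s := by
      by_contra hc
      rw [not_or] at hc
      rw [if_pos ⟨fun h4 => hc.2 h4.symm, hc.1⟩, map_one] at h1
      exact one_ne_zero h1
    refine ⟨hrs, ?_⟩
    rw [if_neg (by
      rintro ⟨h5, h6⟩
      rcases hrs with h7 | h7
      · exact h6 h7
      · exact h5 h7.symm), add_zero] at h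
    obtain ⟨u, hu, v, hv, e⟩ := B.CL T hT {x | x ∈ T ∧ ¬ B.Adj s x} {x | x ∈ T ∧ ¬ B.Adj r x}
      (fun x hx => hx.1) (fun x hx => hx.1) g hg
      (fun b hb a ha => B.coeff_zero g r s a b h ha.2 hb.2)
    refine ⟨u, Subgroup.closure_mono (Set.image_mono ?_) hu, v,
      Subgroup.closure_mono (Set.image_mono ?_) hv, e⟩
    · rintro x ⟨h8, h9⟩
      refine ⟨h8, ?_⟩
      by_contra h10
      exact h9 ⟨h8, h10⟩
    · rintro x ⟨h8, h9⟩
      refine ⟨h8, ?_⟩
      by_contra h10
      exact h9 ⟨h8, h10⟩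
  H4 := by
    intro T hT g hg h
    have h1 : blk n K (B.rB g : Matrix (Fin n ⊕ Fin n) (Fin n ⊕ Fin n) K) = 1 := by
      have := congrArg Units.val h
      exact this
    obtain ⟨u, hu, v, hv, e⟩ := B.CL T hT T T (le_refl _) (le_refl _) g hg (by
      intro b _ a _
      have h2 := congrFun (congrFun h1 (Sum.inl (Sum.inl b))) (Sum.inl (Sum.inr a))
      rw [blk_apply, Matrix.fromBlocks_apply₁₁, Matrix.map_apply, Matrix.one_apply_ne (by simp)] at h2
      exact (C_injective _ _) (by rw [h2, map_zero]))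
    rw [Set.sdiff_self, Set.image_empty, Subgroup.closure_empty, Subgroup.mem_bot] at hu hv
    rw [e, hu, hv, one_mul]

end

/-- the group is presented by relations between two adjacent generators: homomorphisms can be
defined pair by pair -/
def PairLift (G : Type) [Group G] {n : ℕ} (gen : Fin n → G) (Adj : Fin n → Fin n → Prop) : Prop :=
  ∀ (H : Type) [Group H] (f : Fin n → H),
    (∀ r s, Adj r s → ∃ (w : H) (φ : G →* H), f r = w * φ (gen r) * w⁻¹ ∧ f s = w * φ (gen s) * w⁻¹) →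
    ∃ φ : G →* H, ∀ s, φ (gen s) = f s

section
variable {G ι R₀ : Type} [Group G] {n : ℕ} [Fintype ι] [DecidableEq ι] [CommRing R₀]
  (D : TwData G (Fin n) ι R₀)

/-- the constant representation -/
noncomputable def cphi : G →* (Matrix ι ι (MvPolynomial (Fin n) R₀))ˣ :=
  (Units.map (RingHom.mapMatrix (MvPolynomial.C : R₀ →+* MvPolynomial (Fin n) R₀)).toMonoidHom).comp D.ρ₀

theorem TwData.exists_tw (hL : PairLift G D.gen D.Adj) :
    ∃ ρ : G →* (Matrix ι ι (MvPolynomial (Fin n) R₀))ˣ, ∀ s, ρ (D.gen s) = twUnit D s := by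
  apply hL
  intro r s hrs
  obtain ⟨w, h1, h2⟩ := twUnit_conj D hrs
  exact ⟨w, cphi D, h1, h2⟩

theorem TwData.exists_inj [IsDomain R₀] (hL : PairLift G D.gen D.Adj) :
    ∃ ρ : G →* (Matrix ι ι (MvPolynomial (Fin n) R₀))ˣ, Function.Injective ρ := by
  obtain ⟨ρ, hρ⟩ := D.exists_tw hL
  refine ⟨ρ, twisting_theorem D ρ ?_⟩
  intro s
  rw [hρ s]
  exact twUnit_val D s

end

theorem art_lift {n : ℕ} (M : CoxeterMatrix (Fin n)) (Adj : Fin n → Fin n → Prop)
    (hA : ∀ r s, r ≠ s → M.M r s ≠ 0 → Adj r s) : PairLift (Art M) (gen M) Adj := by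
  intro H _ f hf
  refine ⟨artLift f ?_, fun s => artLift_gen _ _ s⟩
  intro i j hij
  by_cases h : i = j
  · rw [h]
  · obtain ⟨w, φ, h1, h2⟩ := hf i j (hA i j h hij)
    rw [h1, h2, alt_conj, alt_conj, ← alt_map, ← alt_map, gen_rel M i j hij]

end Pool.Agent.AR
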