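import Pool.Agent.Lib.MP_d24c19_al.Shape

set_option autoImplicit false

/-! Separation in dihedral parabolic subgroups. -/

namespace Pool.Agent.AR

open Polynomial

/-- comparison of `q^N F` with a polynomial -/
theorem zpow_cmp {N : ℤ} {F P : ℝ[X]} (h : qq ^ N * tK F = tK P) (hF : F.coeff 0 ≠ 0)
    (hP : P.coeff 0 ≠ 0) : F = P := by
  have hq := qq_ne
  have e : ∀ (k : ℕ) (A : ℝ[X]), qq ^ k * tK A = tK (X ^ k * A) := by
    intro k A
    unfold qq
    rw [map_mul, map_pow]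
  have h0 : ∀ (k : ℕ) (A : ℝ[X]), (X ^ (k + 1) * A).coeff 0 = 0 := by
    intro k A
    rw [pow_succ', mul_assoc, coeff_X_mul_zero]
  obtain ⟨k, rfl | rfl⟩ := N.eq_nat_or_neg
  · rw [zpow_natCast, e] at h
    have h1 := tK_inj h
    cases k with
    | zero => rwa [pow_zero, one_mul] at h1
    | succ k => exact absurd (by rw [← h1, h0]) hP
  · have h2 : tK F = qq ^ k * tK P := by
      rw [← h, ← mul_assoc, ← zpow_natCast, ← zpow_add₀ hq, add_neg_cancel, zpow_zero, one_mul]
    rw [e] at h2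
    have h1 := tK_inj h2
    cases k with
    | zero => rwa [pow_zero, one_mul] at h1
    | succ k => exact absurd (by rw [h1, h0]) hF

/-- `q^k (a - b q) = 1 + q` only for `k = 0` -/
theorem cmp_one {k : ℤ} {a b : ℝ} (h : qq ^ k * tK (C a - C b * X) = tK (1 + X)) : k = 0 := by
  have hq := qq_ne
  have e : ∀ (k : ℕ) (A : ℝ[X]), qq ^ k * tK A = tK (X ^ k * A) := by
    intro k A
    unfold qq
    rw [map_mul, map_pow]
  obtain ⟨n, rfl | rfl⟩ := k.eq_nat_or_neg
  · rw [zpow_natCast, e] at h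
    have h1 := tK_inj h
    cases n with
    | zero => rfl
    | succ n =>
      have h2 := congrArg (Polynomial.eval 0) h1
      simp at h2
  · have h2 : tK (C a - C b * X) = qq ^ n * tK (1 + X) := by
      rw [← h, ← mul_assoc, ← zpow_natCast, ← zpow_add₀ hq, add_neg_cancel, zpow_zero, one_mul]
    rw [e] at h2
    have h1 := tK_inj h2
    cases n with
    | zero => rfl
    | succ n =>
      have h3 := congrArg (fun P : ℝ[X] => P.coeff (n + 2)) h1
      rw [mul_add, mul_one, ← pow_succ, coeff_add, coeff_X_pow, coeff_X_pow, if_neg (by omega), if_pos rfl,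
        coeff_sub, coeff_C, if_neg (by omega), coeff_C_mul, coeff_X, if_neg (by omega)] at h3
      norm_num at h3

/-- `q^k (a - b q) = c ≠ 0` only for `k = 0, -1` -/
theorem cmp_two {k : ℤ} {a b c : ℝ} (hc : c ≠ 0) (h : qq ^ k * tK (C a - C b * X) = tK (C c)) :
    k = 0 ∨ k = -1 := by
  have hq := qq_ne
  have e : ∀ (k : ℕ) (A : ℝ[X]), qq ^ k * tK A = tK (X ^ k * A) := by
    intro k A
    unfold qq
    rw [map_mul, map_pow]
  obtain ⟨n, rfl | rfl⟩ := k.eq_nat_or_neg
  · rw [zpow_natCast, e] at h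
    have h1 := tK_inj h
    cases n with
    | zero => exact Or.inl rfl
    | succ n =>
      have h2 := congrArg (Polynomial.eval 0) h1
      simp at h2
      exact absurd h2.symm hc
  · have h2 : tK (C a - C b * X) = qq ^ n * tK (C c) := by
      rw [← h, ← mul_assoc, ← zpow_natCast, ← zpow_add₀ hq, add_neg_cancel, zpow_zero, one_mul]
    rw [e] at h2
    have h1 := tK_inj h2
    rcases n with _ | _ | n
    · exact Or.inl rfl
    · exact Or.inr rfl
    · exfalso
      have h3 := congrArg (fun P : ℝ[X] => P.coeff (n + 2)) h1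
      rw [coeff_mul_C, coeff_X_pow, if_pos rfl,
        coeff_sub, coeff_C, if_neg (by omega), coeff_C_mul, coeff_X, if_neg (by omega)] at h3
      apply hc
      linarith

theorem Rd_zero {G : Type*} [Group G] {m : ℕ} {i0 j0 : ℤ} {s U g : G} {i j : ℤ}
    (h : Rd m i0 j0 s U 0 g i j) : ∃ k : ℤ, g = U ^ k := by
  cases h with
  | base k => exact ⟨k, rfl⟩

section
variable {n : ℕ} (M : CoxeterMatrix (Fin n))

theorem fix_closure {S : Set (Art M)} {v : I0 n → KK}
    (hS : ∀ x ∈ S, (rB M x : Matrix (I0 n) (I0 n) KK).mulVec v = v) {g : Art M}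
    (hg : g ∈ Subgroup.closure S) : (rB M g : Matrix (I0 n) (I0 n) KK).mulVec v = v := by
  induction hg using Subgroup.closure_induction with
  | mem x hx => exact hS x hx
  | one => rw [map_one, Units.val_one, Matrix.one_mulVec]
  | mul x y _ _ hx hy => rw [map_mul, Units.val_mul, ← Matrix.mulVec_mulVec, hy, hx]
  | inv x _ hx =>
    conv_lhs => rw [← hx]
    rw [Matrix.mulVec_mulVec, ← Units.val_mul, ← map_mul, inv_mul_cancel, map_one, Units.val_one,
      Matrix.one_mulVec]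

theorem fix_closure' {S : Set (Art M)} {v : I0 n → KK}
    (hS : ∀ x ∈ S, Matrix.vecMul v (rB M x : Matrix (I0 n) (I0 n) KK) = v) {g : Art M}
    (hg : g ∈ Subgroup.closure S) : Matrix.vecMul v (rB M g : Matrix (I0 n) (I0 n) KK) = v := by
  induction hg using Subgroup.closure_induction with
  | mem x hx => exact hS x hx
  | one => rw [map_one, Units.val_one, Matrix.vecMul_one]
  | mul x y _ _ hx hy => rw [map_mul, Units.val_mul, ← Matrix.vecMul_vecMul, hx, hy]
  | inv x _ hx =>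
    conv_lhs => rw [← hx]
    rw [Matrix.vecMul_vecMul, ← Units.val_mul, ← map_mul, mul_inv_cancel, map_one, Units.val_one,
      Matrix.vecMul_one]

theorem Psi_eq (g : Art M) (b a : Fin n) :
    Psi M g b a = al b ⬝ᵥ (rB M g : Matrix (I0 n) (I0 n) KK).mulVec (om a) := by
  unfold Psi al om
  rw [single_dotProduct, one_mul, Matrix.mulVec_single_one]
  rfl

variable {s t : Fin n}

theorem al_al (s : Fin n) : (al s : I0 n → KK) ⬝ᵥ al s = 1 := by
  unfold al
  rw [dotProduct_single, mul_one, Pi.single_eq_same]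

theorem al_al' (h : s ≠ t) : (al s : I0 n → KK) ⬝ᵥ al t = 0 := by
  unfold al
  rw [dotProduct_single, mul_one, Pi.single_apply, if_neg]
  intro h2
  exact h (Sum.inl_injective h2).symm

theorem al_om (s a : Fin n) : (al s : I0 n → KK) ⬝ᵥ om a = 0 := by
  unfold al om
  rw [dotProduct_single, mul_one, Pi.single_apply, if_neg]
  intro h2
  exact Sum.inr_ne_inl h2

theorem al_vec (h : s ≠ t) (y1 y2 : KK) : al s ⬝ᵥ vec s t y1 y2 = y1 := by
  unfold vec
  rw [dotProduct_add, dotProduct_smul, dotProduct_smul, al_al, al_al' h]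
  simp

/-- the general step: `u` is the vector with `D ω_a + u` fixed by both generators -/
theorem Psi_zero {a : Fin n} {u : I0 n → KK} {g : Art M}
    (hg : g ∈ Subgroup.closure {gen M s, gen M t})
    (hfs : fv M s ⬝ᵥ (DD M s t • om a + u) = 0) (hft : fv M t ⬝ᵥ (DD M s t • om a + u) = 0)
    (h0 : Psi M g s a = 0) :
    al s ⬝ᵥ (rB M g : Matrix (I0 n) (I0 n) KK).mulVec u = al s ⬝ᵥ u := by
  have hfix : (rB M g : Matrix (I0 n) (I0 n) KK).mulVec (DD M s t • om a + u) = DD M s t • om a + u := by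
    apply fix_closure M _ hg
    rintro x (rfl | hx)
    · rw [rB_gen, xm_mulVec, hfs, zero_smul, sub_zero]
    · have hx' : x = gen M t := hx
      rw [hx', rB_gen, xm_mulVec, hft, zero_smul, sub_zero]
  have h1 := congrArg (fun v => al s ⬝ᵥ v) hfix
  rw [Matrix.mulVec_add, Matrix.mulVec_smul, dotProduct_add, dotProduct_add, dotProduct_smul, ← Psi_eq, h0,
    dotProduct_smul, al_om] at h1
  simpa using h1

theorem fix_zpow {x : Art M} {v : I0 n → KK}
    (hx : (rB M x : Matrix (I0 n) (I0 n) KK).mulVec v = v) {g : Art M}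
    (hg : g ∈ Subgroup.zpowers x) : (rB M g : Matrix (I0 n) (I0 n) KK).mulVec v = v := by
  rw [Subgroup.zpowers_eq_closure] at hg
  exact fix_closure M (by intro y hy; rw [Set.mem_singleton_iff.1 hy]; exact hx) hg

theorem fix_zpow' {x : Art M} {v : I0 n → KK}
    (hx : Matrix.vecMul v (rB M x : Matrix (I0 n) (I0 n) KK) = v) {g : Art M}
    (hg : g ∈ Subgroup.zpowers x) : Matrix.vecMul v (rB M g : Matrix (I0 n) (I0 n) KK) = v := by
  rw [Subgroup.zpowers_eq_closure] at hg
  exact fix_closure' M (by intro y hy; rw [Set.mem_singleton_iff.1 hy]; exact hx) hg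

/-- the coordinate is unchanged -/
theorem w_double {u v g : Art M} {y : I0 n → KK} (h : s ≠ t) (hu : u ∈ Subgroup.zpowers (gen M t))
    (hv : (rB M v : Matrix (I0 n) (I0 n) KK).mulVec y = y) :
    al s ⬝ᵥ (rB M (u * g * v) : Matrix (I0 n) (I0 n) KK).mulVec y =
      al s ⬝ᵥ (rB M g : Matrix (I0 n) (I0 n) KK).mulVec y := by
  have h1 := fix_zpow' M (w_fix M h.symm) hu
  rw [map_mul, map_mul, Units.val_mul, Units.val_mul, ← Matrix.mulVec_mulVec, hv, ← Matrix.mulVec_mulVec,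
    Matrix.dotProduct_mulVec, h1]

theorem shape_absurd {m : ℕ} (hm : 2 ≤ m) {r : ℕ} (hr : 1 ≤ r) {i j : ℤ} {F1 F2 P : ℝ[X]}
    (hS : Shape m (r + 1) i j F1 F2) (hi : ¬ (m : ℤ) ∣ i + 1) (hj : ¬ (m : ℤ) ∣ j + 1) {N : ℤ}
    (hP : P.coeff 0 ≠ 0) (hP' : P.natDegree ≤ 1) (h : qq ^ N * tK F1 = tK P) : False := by
  obtain ⟨a, ha, h1, -⟩ := hS.lo
  obtain ⟨b, hb, h2, -⟩ := hS.hi
  have h3 := zpow_cmp h (by rw [h1]; exact mul_ne_zero ha (fun h0 => hi ((sn_eq_zero hm).1 h0))) hP
  rw [h3, coeff_eq_zero_of_natDegree_lt (by omega)] at h2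
  exact mul_ne_zero hb (fun h0 => hj ((sn_eq_zero hm).1 h0)) h2.symm

/-- (i) -/
theorem dih_i (h : s ≠ t) (hm : 3 ≤ M.M s t) {g : Art M} (hg : g ∈ Subgroup.closure {gen M s, gen M t})
    (h0 : Psi M g s s = 0) : g ∈ Subgroup.zpowers (gen M t) := by
  have hm2 : 2 ≤ M.M s t := by omega
  have hq := qq_ne
  have hb := bet_ne s t
  set c : ℝ := cc (M.M s t) with hc
  set A1 : ℝ[X] := 1 + X with hA1
  set A2 : ℝ[X] := C c * X with hA2
  have hA : Shape (M.M s t) 1 0 (-2) A1 A2 := by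
    refine ⟨?_, ?_, ⟨1, one_ne_zero, ?_, ?_⟩, ⟨-1, by norm_num, ?_, ?_⟩⟩
    · rw [hA1]
      refine (natDegree_add_le _ _).trans ?_
      simp
    · rw [hA2]
      refine (natDegree_C_mul_le _ _).trans ?_
      simp
    · rw [hA1, zero_add, sn_one hm2]; simp
    · rw [hA2, sn_zero]; simp
    · rw [hA1, show (-2 : ℤ) + 1 = -1 by norm_num, sn_neg, sn_one hm2]; simp [coeff_one]
    · rw [hA2, show (-2 : ℤ) = -(2) by norm_num, sn_neg, sn_two hm2, coeff_C_mul, coeff_X_one]
      ring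
  have hfs : fv M s ⬝ᵥ (DD M s t • om s + vecP s t A1 A2) = 0 := by
    unfold vecP
    rw [dotProduct_add, dotProduct_smul, fv_om, if_pos rfl, fs_vec M h, hA1, hA2]
    unfold DD cf qq
    simp only [map_add, map_one, map_mul, smul_eq_mul]
    ring
  have hft : fv M t ⬝ᵥ (DD M s t • om s + vecP s t A1 A2) = 0 := by
    unfold vecP
    rw [dotProduct_add, dotProduct_smul, fv_om, if_neg h, ft_vec M h, hA1, hA2]
    unfold DD cf qq
    simp only [map_add, map_one, map_mul, smul_eq_mul]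
    ring
  have h1 := Psi_zero M hg hfs hft h0
  have e1 : al s ⬝ᵥ vecP s t A1 A2 = tK A1 := al_vec h _ _
  -- `t` fixes the vector
  have hfixt : (rB M (gen M t) : Matrix (I0 n) (I0 n) KK).mulVec (vecP s t A1 A2) = vecP s t A1 A2 := by
    rw [dotProduct_add, dotProduct_smul, fv_om, if_neg h, smul_zero, zero_add] at hft
    rw [rB_gen, xm_mulVec, hft, zero_smul, sub_zero]
  obtain ⟨u, hu, v, hv, r, i, j, hR, hend⟩ := exists_Rd (by omega) (gen_rel M s t (by omega))
    (i0 := 0) (j0 := -2) (Or.inl ⟨rfl, rfl, rfl⟩) hg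
  have h2 := w_double M (g := g) h hu (fix_zpow M hfixt hv)
  rw [h1, e1] at h2
  rcases Nat.eq_zero_or_pos r with hr | hr
  · subst hr
    obtain ⟨k, hk⟩ := Rd_zero hR
    rw [hk, Uk_vecP M h hm2, dotProduct_smul] at h2
    have e2 : al s ⬝ᵥ vecP s t (Uk1 (M.M s t) k A1 A2) (Uk2 (M.M s t) k A1 A2) =
        tK (Uk1 (M.M s t) k A1 A2) := al_vec h _ _
    have e3 : Uk1 (M.M s t) k A1 A2 = C (sn (M.M s t) (2 * k + 1)) - C (sn (M.M s t) (2 * k - 1)) * X := by
      have := sn_rec (m := M.M s t) (2 * k)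
      rw [← hc] at this
      have h5 : sn (M.M s t) (2 * k - 1) = c * sn (M.M s t) (2 * k) - sn (M.M s t) (2 * k + 1) := by
        rw [this]; ring
      rw [h5]
      unfold Uk1
      rw [hA1, hA2]
      simp only [map_sub, map_mul]
      ring
    rw [e2, e3, smul_eq_mul, hA1] at h2
    have hk0 := cmp_one h2
    rw [hk0, zpow_zero] at hk
    have hg2 : g = u⁻¹ * v⁻¹ := by
      calc g = u⁻¹ * (u * g * v) * v⁻¹ := by group
        _ = _ := by rw [hk, mul_one]
    rw [hg2]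
    exact mul_mem (inv_mem hu) (inv_mem hv)
  · exfalso
    obtain ⟨N, F1, F2, h3, hS⟩ := Rd_shape M h hm2 hA hR
    rw [h3, dotProduct_smul] at h2
    have e2 : al s ⬝ᵥ vecP s t F1 F2 = tK F1 := al_vec h _ _
    rw [e2, smul_eq_mul] at h2
    refine shape_absurd hm2 hr hS (hend hr).1 (hend hr).2 (P := A1) ?_ ?_ h2
    · rw [hA1]; simp
    · exact hA.deg1

/-- (ii) -/
theorem dih_ii (h : s ≠ t) (hm : 3 ≤ M.M s t) {g : Art M} (hg : g ∈ Subgroup.closure {gen M s, gen M t})
    (h0 : Psi M g s t = 0) : ∃ u ∈ Subgroup.zpowers (gen M t), ∃ v ∈ Subgroup.zpowers (gen M s), g = u * v := by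
  have hm2 : 2 ≤ M.M s t := by omega
  have hq := qq_ne
  have hb := bet_ne s t
  set c : ℝ := cc (M.M s t) with hc
  have hc0 : c ≠ 0 := (cc_pos hm).ne'
  set A1 : ℝ[X] := C c with hA1
  set A2 : ℝ[X] := 1 + X with hA2
  have hA : Shape (M.M s t) 1 1 (-1) A1 A2 := by
    refine ⟨?_, ?_, ⟨1, one_ne_zero, ?_, ?_⟩, ⟨-1, by norm_num, ?_, ?_⟩⟩
    · rw [hA1]; simp
    · rw [hA2]
      refine (natDegree_add_le _ _).trans ?_
      simp
    · rw [hA1, show (1 : ℤ) + 1 = 2 by norm_num, sn_two hm2, ← hc]; simp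
    · rw [hA2, sn_one hm2]; simp
    · rw [hA1, show (-1 : ℤ) + 1 = 0 by norm_num, sn_zero, coeff_C, if_neg one_ne_zero, mul_zero]
    · rw [hA2, sn_neg, sn_one hm2]; simp [coeff_one]
  have hfs : fv M s ⬝ᵥ (DD M s t • om t + bet s t • vecP s t A1 A2) = 0 := by
    unfold vecP
    rw [dotProduct_add, dotProduct_smul, fv_om, if_neg h.symm, dotProduct_smul, fs_vec M h, hA1, hA2]
    unfold cf qq
    simp only [map_add, map_one, smul_eq_mul]
    ring
  have hft : fv M t ⬝ᵥ (DD M s t • om t + bet s t • vecP s t A1 A2) = 0 := by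
    unfold vecP
    rw [dotProduct_add, dotProduct_smul, fv_om, if_pos rfl, dotProduct_smul, ft_vec M h, hA1, hA2]
    unfold DD cf qq
    simp only [map_add, map_one, smul_eq_mul]
    field_simp
    ring
  have h1 := Psi_zero M hg hfs hft h0
  have e1 : al s ⬝ᵥ vecP s t A1 A2 = tK A1 := al_vec h _ _
  rw [Matrix.mulVec_smul, dotProduct_smul, dotProduct_smul, e1, smul_eq_mul, smul_eq_mul] at h1
  have h1' := mul_left_cancel₀ hb h1
  -- `s` fixes the vector
  have hfixs : (rB M (gen M s) : Matrix (I0 n) (I0 n) KK).mulVec (vecP s t A1 A2) = vecP s t A1 A2 := by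
    rw [dotProduct_add, dotProduct_smul, fv_om, if_neg h.symm, smul_zero, zero_add, dotProduct_smul,
      smul_eq_mul, mul_eq_zero, or_iff_right hb] at hfs
    rw [rB_gen, xm_mulVec, hfs, zero_smul, sub_zero]
  obtain ⟨u, hu, v, hv, r, i, j, hR, hend⟩ := exists_Rd (by omega) (gen_rel M s t (by omega))
    (i0 := 1) (j0 := -1) (Or.inr ⟨rfl, rfl, rfl⟩) hg
  have h2 := w_double M (g := g) h hu (fix_zpow M hfixs hv)
  rw [h1'] at h2
  rcases Nat.eq_zero_or_pos r with hr | hr
  · subst hr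
    obtain ⟨k, hk⟩ := Rd_zero hR
    rw [hk, Uk_vecP M h hm2, dotProduct_smul] at h2
    have e2 : al s ⬝ᵥ vecP s t (Uk1 (M.M s t) k A1 A2) (Uk2 (M.M s t) k A1 A2) =
        tK (Uk1 (M.M s t) k A1 A2) := al_vec h _ _
    have e3 : Uk1 (M.M s t) k A1 A2 =
        C (c * sn (M.M s t) (2 * k + 1) - sn (M.M s t) (2 * k)) - C (sn (M.M s t) (2 * k)) * X := by
      unfold Uk1
      rw [hA1, hA2]
      simp only [map_sub, map_mul]
      ring
    rw [e2, e3, smul_eq_mul, hA1] at h2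
    rcases cmp_two hc0 h2 with hk0 | hk0
    · rw [hk0, zpow_zero] at hk
      refine ⟨u⁻¹, inv_mem hu, v⁻¹, inv_mem hv, ?_⟩
      calc g = u⁻¹ * (u * g * v) * v⁻¹ := by group
        _ = _ := by rw [hk, mul_one]
    · rw [hk0, zpow_neg_one, mul_inv_rev] at hk
      refine ⟨u⁻¹ * (gen M t)⁻¹, mul_mem (inv_mem hu) (inv_mem (Subgroup.mem_zpowers _)),
        (gen M s)⁻¹ * v⁻¹, mul_mem (inv_mem (Subgroup.mem_zpowers _)) (inv_mem hv), ?_⟩
      calc g = u⁻¹ * (u * g * v) * v⁻¹ := by group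
        _ = _ := by rw [hk]; group
  · exfalso
    obtain ⟨N, F1, F2, h3, hS⟩ := Rd_shape M h hm2 hA hR
    rw [h3, dotProduct_smul] at h2
    have e2 : al s ⬝ᵥ vecP s t F1 F2 = tK F1 := al_vec h _ _
    rw [e2, smul_eq_mul] at h2
    refine shape_absurd hm2 hr hS (hend hr).1 (hend hr).2 (P := A1) ?_ ?_ h2
    · rw [hA1]; simpa using hc0
    · exact hA.deg1

end

end Pool.Agent.AR
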