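import Mathlib

set_option autoImplicit false

/-!
The data of the generic twisting theorem, for a group `G` generated by `gen s`, `s : S`, with an
adjacency relation (adapted from the files C5-C9 of MP_7c21d5_al, helper35).
-/

namespace Pool.Agent.AR

/-- input of the generic twisting theorem -/
structure TwData (G S ι R₀ : Type) [Group G] [Fintype S] [DecidableEq S] [Fintype ι] [DecidableEq ι]
    [CommRing R₀] where
  gen : S → G
  Adj : S → S → Prop
  symm : ∀ r s, Adj r s → Adj s r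
  irr : ∀ s, ¬ Adj s s
  top : Subgroup.closure (Set.range gen) = ⊤
  ρ₀ : G →* (Matrix ι ι R₀)ˣ
  e : S → ι → R₀
  e' : S → ι → R₀
  H1 : ∀ r s, Adj r s → (ρ₀ (gen r) : Matrix ι ι R₀).mulVec (e s) = e s
  H1' : ∀ r s, Adj r s → Matrix.vecMul (e' s) (ρ₀ (gen r) : Matrix ι ι R₀) = e' s
  H2 : ∀ r s, Adj r s ∨ r = s → dotProduct (e' r) (e s) = 0
  H3 : ∀ T : Set S, (∀ a ∈ T, ∀ b ∈ T, a ≠ b → Adj a b) → ∀ g ∈ Subgroup.closure (gen '' T), ∀ r s,
    dotProduct (e' r) ((ρ₀ g : Matrix ι ι R₀).mulVec (e s)) = 0 →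
      (Adj r s ∨ r = s) ∧ ∃ u ∈ Subgroup.closure (gen '' (T ∩ {x | Adj r x})),
        ∃ v ∈ Subgroup.closure (gen '' (T ∩ {x | Adj s x})), g = u * v
  H4 : ∀ T : Set S, (∀ a ∈ T, ∀ b ∈ T, a ≠ b → Adj a b) → ∀ g ∈ Subgroup.closure (gen '' T),
    ρ₀ g = 1 → g = 1

section
variable {G S ι R₀ : Type} [Group G] [Fintype S] [DecidableEq S] [Fintype ι] [DecidableEq ι]
    [CommRing R₀] (D : TwData G S ι R₀)

/-- parabolic subgroup -/
def TwData.Par (X : Set S) : Subgroup G := Subgroup.closure (D.gen '' X)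

/-- pairwise adjacent -/
def TwData.Clique (T : Set S) : Prop := ∀ a ∈ T, ∀ b ∈ T, a ≠ b → D.Adj a b

/-- constant vectors -/
noncomputable def cv (w : ι → R₀) : ι → MvPolynomial S R₀ := fun i => MvPolynomial.C (w i)

/-- `T_s = 1 + X_s e_s e'_s` -/
noncomputable def Tw (s : S) : Matrix ι ι (MvPolynomial S R₀) :=
  1 + (MvPolynomial.X s : MvPolynomial S R₀) • Matrix.vecMulVec (cv (D.e s)) (cv (D.e' s))

/-- `T_s^-1` -/
noncomputable def Tw' (s : S) : Matrix ι ι (MvPolynomial S R₀) :=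
  1 - (MvPolynomial.X s : MvPolynomial S R₀) • Matrix.vecMulVec (cv (D.e s)) (cv (D.e' s))

/-- a homomorphism `ρ` with `ρ(x_s) = T_s ρ₀(x_s) T_s^-1` -/
def IsTw (ρ : G →* (Matrix ι ι (MvPolynomial S R₀))ˣ) : Prop :=
  ∀ s, (ρ (D.gen s) : Matrix ι ι (MvPolynomial S R₀)) =
    Tw D s * (D.ρ₀ (D.gen s) : Matrix ι ι R₀).map MvPolynomial.C * Tw' D s

/-- put all the variables equal to 0 -/
noncomputable def ev0 : MvPolynomial S R₀ →+* R₀ := MvPolynomial.eval₂Hom (RingHom.id R₀) (fun _ => 0)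

/-- the variable `X_a` becomes the polynomial variable -/
noncomputable def phiA (a : S) : MvPolynomial S R₀ →+* Polynomial (MvPolynomial S R₀) :=
  MvPolynomial.eval₂Hom (Polynomial.C.comp MvPolynomial.C)
    (fun s => if s = a then Polynomial.X else Polynomial.C (MvPolynomial.X s))

/-- `X_a := 0` -/
noncomputable def psiA (a : S) : MvPolynomial S R₀ →+* MvPolynomial S R₀ :=
  MvPolynomial.eval₂Hom MvPolynomial.C (fun s => if s = a then 0 else MvPolynomial.X s)
end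

end Pool.Agent.AR
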