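import Mathlib

set_option autoImplicit false

/-!
# Finitely generated linear groups are residually finite (Malcev), hence Hopfian
-/

namespace Pool.Agent.HopfArtin

/-! ## `ℤ` is a Jacobson ring; residue fields of rings of finite type over `ℤ` are finite -/

theorem int_jacobson : IsJacobsonRing ℤ := by
  rw [isJacobsonRing_iff_prime_eq]
  intro P hP
  by_cases h0 : P = ⊥
  · subst h0
    rw [eq_bot_iff]
    intro n hn
    rw [Ideal.mem_bot]
    by_contra hn0
    obtain ⟨p, hp1, hp2⟩ := Nat.exists_infinite_primes (n.natAbs + 1)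
    have hmax : (Ideal.span {(p : ℤ)}).IsMaximal :=
      PrincipalIdealRing.isMaximal_of_irreducible (Nat.prime_iff_prime_int.1 hp2).irreducible
    have h1 : n ∈ Ideal.span {(p : ℤ)} := by
      have := Ideal.mem_sInf.1 hn (show Ideal.span {(p : ℤ)} ∈ _ from ⟨bot_le, hmax⟩)
      exact this
    rw [Ideal.mem_span_singleton] at h1
    have h2 := Int.natAbs_dvd_natAbs.2 h1
    rw [Int.natAbs_natCast] at h2
    have h3 := Nat.le_of_dvd (Int.natAbs_pos.2 hn0) h2
    omega
  · have hmax : P.IsMaximal := IsPrime.to_maximal_ideal h0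
    exact Ideal.jacobson_eq_self_of_isMaximal

theorem finite_field {F : Type} [Field F] [inst : Algebra ℤ F] (hft : Algebra.FiniteType ℤ F) :
    Finite F := by
  obtain rfl : inst = Ring.toIntAlgebra F := Subsingleton.elim _ _
  have := int_jacobson
  have hfin : Module.Finite ℤ F := finite_of_finite_type_of_isJacobsonRing ℤ F
  obtain ⟨p, hp⟩ := CharP.exists F
  rcases Nat.eq_zero_or_pos p with h0 | h0
  · exfalso
    subst h0
    have : CharZero F := CharP.charP_to_charZero F
    have h1 : IsIntegral ℤ ((2 : F)⁻¹) := Algebra.IsIntegral.isIntegral _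
    have h2 : (2 : F)⁻¹ = algebraMap ℚ F (1 / 2) := by simp
    rw [h2] at h1
    have h3 : IsIntegral ℤ (1 / 2 : ℚ) :=
      (isIntegral_algebraMap_iff (algebraMap ℚ F).injective).1 h1
    obtain ⟨k, hk⟩ := IsIntegrallyClosed.isIntegral_iff.1 h3
    have h4 : (2 * k : ℤ) = 1 := by
      have : (k : ℚ) = 1 / 2 := by rw [← hk]; simp
      have h5 : (2 * k : ℚ) = 1 := by rw [this]; norm_num
      exact_mod_cast h5
    omega
  · have : NeZero p := ⟨h0.ne'⟩
    have htors : Module.IsTorsion ℤ F := by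
      intro x
      refine ⟨⟨(p : ℤ), mem_nonZeroDivisors_of_ne_zero (by exact_mod_cast h0.ne')⟩, ?_⟩
      show (p : ℤ) • x = 0
      rw [zsmul_eq_mul]
      have : ((p : ℤ) : F) = 0 := by
        rw [Int.cast_natCast]; exact CharP.cast_eq_zero F p
      rw [this, zero_mul]
    exact Module.finite_of_fg_torsion F htors

/-! ## Malcev's theorem -/

section
variable {G : Type} [Group G] {ι : Type} [Fintype ι] [DecidableEq ι] {R : Type} [CommRing R]

/-- the elements whose matrix, and the inverse matrix, have all entries in `A` -/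
def entSub (ρ : G →* (Matrix ι ι R)ˣ) (A : Subalgebra ℤ R) : Subgroup G where
  carrier := {g | (∀ i j, (ρ g : Matrix ι ι R) i j ∈ A) ∧ ∀ i j, (ρ g⁻¹ : Matrix ι ι R) i j ∈ A}
  mul_mem' := by
    rintro a b ⟨ha, ha'⟩ ⟨hb, hb'⟩
    refine ⟨fun i j => ?_, fun i j => ?_⟩
    · rw [map_mul, Units.val_mul, Matrix.mul_apply]
      exact sum_mem fun k _ => mul_mem (ha i k) (hb k j)
    · rw [mul_inv_rev, map_mul, Units.val_mul, Matrix.mul_apply]
      exact sum_mem fun k _ => mul_mem (hb' i k) (ha' k j)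
  one_mem' := by
    have h : ∀ i j, ((ρ 1 : (Matrix ι ι R)ˣ) : Matrix ι ι R) i j ∈ A := by
      intro i j
      rw [map_one, Units.val_one, Matrix.one_apply]
      split_ifs
      · exact one_mem _
      · exact zero_mem _
    exact ⟨h, by rw [inv_one]; exact h⟩
  inv_mem' := by
    rintro a ⟨ha, ha'⟩
    exact ⟨ha', by rw [inv_inv]; exact ha⟩

/-- a finitely generated linear group is residually finite -/
theorem malcev [IsDomain R] [Group.FG G] (ρ : G →* (Matrix ι ι R)ˣ) (hρ : Function.Injective ρ)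
    (g : G) (hg : g ≠ 1) : ∃ (Q : Type) (_ : Group Q) (_ : Finite Q) (φ : G →* Q), φ g ≠ 1 := by
  classical
  obtain ⟨S, hS, hfin⟩ := (Group.fg_iff (G := G)).1 inferInstance
  set E : Set R := {x | ∃ s ∈ S, ∃ i j, x = (ρ s : Matrix ι ι R) i j ∨ x = (ρ s⁻¹ : Matrix ι ι R) i j} with hE
  have hEfin : E.Finite := by
    have h1 : E ⊆ (fun t : G × ι × ι => (ρ t.1 : Matrix ι ι R) t.2.1 t.2.2) '' (S ×ˢ Set.univ) ∪
        (fun t : G × ι × ι => (ρ t.1⁻¹ : Matrix ι ι R) t.2.1 t.2.2) '' (S ×ˢ Set.univ) := by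
      rintro x ⟨s, hs, i, j, rfl | rfl⟩
      · exact Or.inl ⟨(s, i, j), ⟨hs, Set.mem_univ _⟩, rfl⟩
      · exact Or.inr ⟨(s, i, j), ⟨hs, Set.mem_univ _⟩, rfl⟩
    exact (((hfin.prod Set.finite_univ).image _).union ((hfin.prod Set.finite_univ).image _)).subset h1
  set A : Subalgebra ℤ R := Algebra.adjoin ℤ E with hA
  have hAft : Algebra.FiniteType ℤ A := by
    rw [← Subalgebra.fg_iff_finiteType]
    exact ⟨hEfin.toFinset, by rw [Set.Finite.coe_toFinset]⟩
  have htop : entSub ρ A = ⊤ := by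
    rw [eq_top_iff, ← hS, Subgroup.closure_le]
    intro s hs
    exact ⟨fun i j => Algebra.subset_adjoin ⟨s, hs, i, j, Or.inl rfl⟩,
      fun i j => Algebra.subset_adjoin ⟨s, hs, i, j, Or.inr rfl⟩⟩
  have hmem : ∀ (x : G) (i j : ι), (ρ x : Matrix ι ι R) i j ∈ A := by
    intro x i j
    have : x ∈ entSub ρ A := by rw [htop]; exact Subgroup.mem_top x
    exact this.1 i j
  -- the representation over `A`
  let ψ : G →* Matrix ι ι A :=
    { toFun := fun x => Matrix.of fun i j => ⟨(ρ x : Matrix ι ι R) i j, hmem x i j⟩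
      map_one' := by
        ext i j
        simp only [map_one, Units.val_one, Matrix.of_apply, Matrix.one_apply]
        split_ifs <;> simp
      map_mul' := by
        intro x y
        ext i j
        simp only [map_mul, Units.val_mul, Matrix.of_apply, Matrix.mul_apply]
        push_cast
        rfl }
  have hψ : ∀ x i j, ((ψ x i j : A) : R) = (ρ x : Matrix ι ι R) i j := fun x i j => rfl
  have hne : ∃ i j, ψ g i j ≠ (1 : Matrix ι ι A) i j := by
    by_contra hcon
    push Not at hcon
    apply hg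
    apply hρ
    rw [map_one]
    apply Units.ext
    ext i j
    rw [← hψ, hcon i j, Units.val_one, Matrix.one_apply, Matrix.one_apply]
    split_ifs <;> simp
  obtain ⟨i, j, hij⟩ := hne
  have hJ : IsJacobsonRing A := by
    have := int_jacobson
    exact isJacobsonRing_of_finiteType (A := ℤ)
  have hbot : (⊥ : Ideal A).jacobson = ⊥ := by
    rw [← Ideal.radical_eq_jacobson]
    exact Ideal.radical_bot_of_isReduced
  obtain ⟨m, hmax, hm⟩ : ∃ m : Ideal A, m.IsMaximal ∧ ψ g i j - (1 : Matrix ι ι A) i j ∉ m := by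
    by_contra hcon
    push Not at hcon
    have : ψ g i j - (1 : Matrix ι ι A) i j ∈ (⊥ : Ideal A).jacobson := by
      rw [Ideal.jacobson, Ideal.mem_sInf]
      rintro J ⟨_, hJmax⟩
      exact hcon J hJmax
    rw [hbot, Ideal.mem_bot, sub_eq_zero] at this
    exact hij this
  have hft : Algebra.FiniteType ℤ (A ⧸ m) :=
    Algebra.FiniteType.of_surjective (Ideal.Quotient.mkₐ ℤ m) (Ideal.Quotient.mkₐ_surjective ℤ m)
  have hfinq : Finite (A ⧸ m) := by
    exact @finite_field (A ⧸ m) (Ideal.Quotient.field m) _ hft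
  have : Finite (Matrix ι ι (A ⧸ m)) := by unfold Matrix; infer_instance
  let χ : G →* Matrix ι ι (A ⧸ m) := ((Ideal.Quotient.mk m).mapMatrix (m := ι) : Matrix ι ι A →+* Matrix ι ι (A ⧸ m)).toMonoidHom.comp ψ
  refine ⟨(Matrix ι ι (A ⧸ m))ˣ, inferInstance, inferInstance, χ.toHomUnits, ?_⟩
  intro h1
  have h2 : χ g = 1 := by
    have := congrArg Units.val h1
    simpa using this
  have h3 := congrFun (congrFun h2 i) j
  apply hm
  rw [← Ideal.Quotient.eq_zero_iff_mem, map_sub, sub_eq_zero]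
  have h4 : χ g i j = Ideal.Quotient.mk m (ψ g i j) := rfl
  rw [← h4, h3, Matrix.one_apply, Matrix.one_apply]
  split_ifs <;> simp

/-- Hopfian: every surjective endomorphism is injective -/
theorem hopfian_of_residual [Group.FG G]
    (h : ∀ g : G, g ≠ 1 → ∃ (Q : Type) (_ : Group Q) (_ : Finite Q) (φ : G →* Q), φ g ≠ 1)
    (f : G →* G) (hf : Function.Surjective f) : Function.Injective f := by
  rw [injective_iff_map_eq_one]
  intro g hg
  by_contra hne
  obtain ⟨Q, _, _, φ, hφ⟩ := h g hne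
  have hfin : Finite (G →* Q) := by
    obtain ⟨S, hS, hSfin⟩ := (Group.fg_iff (G := G)).1 inferInstance
    have := hSfin.to_subtype
    refine Finite.of_injective (fun (ψ : G →* Q) (s : S) => ψ s) ?_
    intro ψ₁ ψ₂ h12
    refine MonoidHom.eq_of_eqOn_dense hS fun s hs => ?_
    exact congrFun h12 ⟨s, hs⟩
  have hinj : Function.Injective (fun ψ : G →* Q => ψ.comp f) := by
    intro ψ₁ ψ₂ h12
    ext x
    obtain ⟨y, rfl⟩ := hf x
    exact DFunLike.congr_fun h12 y
  obtain ⟨ψ, hψ⟩ := Finite.surjective_of_injective hinj φ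
  apply hφ
  rw [← hψ]
  show ψ (f g) = 1
  rw [hg, map_one]

end

end Pool.Agent.HopfArtin
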