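import Pool.Agent.Lib.MP_d24c19_al.Data
import Pool.Agent.Lib.MP_d24c19_al.CL
import Pool.Agent.Lib.MP_d24c19_al.Malcev
import Pool.Agent.Lib.MP_d24c19_al.Cx

set_option autoImplicit false

/-! Linearity over `ℂ`, residual finiteness, Hopf property. -/

namespace Pool.Agent.AR

variable {n : ℕ} (M : CoxeterMatrix (Fin n))

/-- transport of a faithful representation to `GL_N(ℂ)` -/
theorem to_complex {G ι R : Type} [Group G] [Fintype ι] [DecidableEq ι] [CommRing R] [IsDomain R]
    [CharZero R] (hR : Cardinal.mk R = Cardinal.continuum) (ρ : G →* (Matrix ι ι R)ˣ)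
    (hρ : Function.Injective ρ) :
    ∃ (N : ℕ) (φ : G →* Matrix.GeneralLinearGroup (Fin N) ℂ), Function.Injective φ := by
  obtain ⟨f, hf⟩ := exists_embed R hR
  let e : ι ≃ Fin (Fintype.card ι) := Fintype.equivFin ι
  let a : Matrix ι ι R →* Matrix ι ι ℂ := (f.mapMatrix : Matrix ι ι R →+* Matrix ι ι ℂ)
  let b : Matrix ι ι ℂ ≃* Matrix (Fin (Fintype.card ι)) (Fin (Fintype.card ι)) ℂ :=
    (Matrix.reindexAlgEquiv ℂ ℂ e).toMulEquiv
  refine ⟨Fintype.card ι, (Units.map (b.toMonoidHom.comp a)).comp ρ, ?_⟩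
  have ha : Function.Injective a := by
    intro x y hxy
    ext i j
    apply hf
    exact congrFun (congrFun hxy i) j
  have hb : Function.Injective (b.toMonoidHom.comp a) := b.injective.comp ha
  exact (Units.map_injective hb).comp hρ

theorem art_fg : Group.FG (Art M) := by
  rw [Group.fg_iff]
  exact ⟨Set.range (gen M), art_top M, Set.finite_range _⟩

/-- the conclusions, from a faithful representation -/
theorem main_abs {G ι R : Type} [Group G] [Fintype ι] [DecidableEq ι] [CommRing R] [IsDomain R]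
    [CharZero R] (hR : Cardinal.mk R = Cardinal.continuum) (hfg : Group.FG G)
    (ρ : G →* (Matrix ι ι R)ˣ) (hρ : Function.Injective ρ) :
    (∃ (N : ℕ) (φ : G →* Matrix.GeneralLinearGroup (Fin N) ℂ), Function.Injective φ) ∧
    (∀ g : G, g ≠ 1 → ∃ K : Subgroup G, K.Normal ∧ K.FiniteIndex ∧ g ∉ K) ∧
    (∀ f : G →* G, Function.Surjective f → Function.Injective f) ∧
    (∀ H : Subgroup G, H.FG → ∀ f : H →* H, Function.Surjective f → Function.Injective f) := by
  have hres : ∀ g : G, g ≠ 1 →
      ∃ (Q : Type) (_ : Group Q) (_ : Finite Q) (φ : G →* Q), φ g ≠ 1 :=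
    fun g hg => HopfArtin.malcev ρ hρ g hg
  refine ⟨to_complex hR ρ hρ, ?_, fun f hf => HopfArtin.hopfian_of_residual hres f hf, ?_⟩
  · intro g hg
    obtain ⟨Q, _, _, φ, hφ⟩ := hres g hg
    refine ⟨φ.ker, inferInstance, inferInstance, ?_⟩
    rw [MonoidHom.mem_ker]
    exact hφ
  · intro H hH f hf
    have : Group.FG H := (Group.fg_iff_subgroup_fg H).2 hH
    refine HopfArtin.hopfian_of_residual ?_ f hf
    intro g hg
    obtain ⟨Q, i1, i2, φ, hφ⟩ := hres g (fun h => hg (Subtype.ext h))
    exact ⟨Q, i1, i2, φ.comp H.subtype, hφ⟩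

theorem main_bur {G : Type} [Group G] {n : ℕ} {K : Type} [CommRing K] [IsDomain K] [CharZero K]
    (hK : Cardinal.mk K = Cardinal.continuum) (hfg : Group.FG G) (B : BurData G n K)
    (hL : PairLift G B.gen B.Adj) :
    (∃ (N : ℕ) (φ : G →* Matrix.GeneralLinearGroup (Fin N) ℂ), Function.Injective φ) ∧
    (∀ g : G, g ≠ 1 → ∃ K : Subgroup G, K.Normal ∧ K.FiniteIndex ∧ g ∉ K) ∧
    (∀ f : G →* G, Function.Surjective f → Function.Injective f) ∧
    (∀ H : Subgroup G, H.FG → ∀ f : H →* H, Function.Surjective f → Function.Injective f) := by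
  obtain ⟨ρ, hρ⟩ := B.toTw.exists_inj hL
  exact main_abs (card_mv _ _ (card_mv _ _ hK)) hfg ρ hρ

/-- the data of the generalised Burau representation -/
noncomputable def burData (hM : Star M) : BurData (Art M) n KK where
  gen := gen M
  Adj := AdjM M
  symm := by
    intro r s h
    have : M.M s r = M.M r s := M.isSymm.apply r s
    exact ⟨h.1.symm, by rw [this]; exact h.2⟩
  irr := fun s h => h.1 rfl
  top := art_top M
  rB := rB M
  om := by
    intro r a h i
    have h1 := congrFun (om_fix M h) i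
    unfold om at h1
    rw [Matrix.mulVec_single_one] at h1
    change (rB M (gen M r) : Matrix (I0 n) (I0 n) KK) i (Sum.inr a) = _ at h1
    rw [h1, Matrix.one_apply, Pi.single_apply]
  w := by
    intro r b h j
    have h1 := congrFun (w_fix M h) j
    unfold al at h1
    rw [Matrix.single_one_vecMul] at h1
    change (rB M (gen M r) : Matrix (I0 n) (I0 n) KK) (Sum.inl b) j = _ at h1
    rw [h1, Matrix.one_apply, Pi.single_apply]
    by_cases h2 : j = Sum.inl b
    · rw [if_pos h2, if_pos h2.symm]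
    · rw [if_neg h2, if_neg (fun h3 => h2 h3.symm)]
  CL := fun T hT T₁ T₂ h₁ h₂ g hg h => CL M hM T hT T₁ T₂ h₁ h₂ g hg h

/-- the theorem -/
theorem main (hM : Star M) :
    (∃ (N : ℕ) (φ : Art M →* Matrix.GeneralLinearGroup (Fin N) ℂ), Function.Injective φ) ∧
    (∀ g : Art M, g ≠ 1 → ∃ K : Subgroup (Art M), K.Normal ∧ K.FiniteIndex ∧ g ∉ K) ∧
    (∀ f : Art M →* Art M, Function.Surjective f → Function.Injective f) ∧
    (∀ H : Subgroup (Art M), H.FG → ∀ f : H →* H, Function.Surjective f → Function.Injective f) :=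
  main_bur card_frac (art_fg M) (burData M hM) (art_lift M (AdjM M) (fun _ _ h1 h2 => ⟨h1, h2⟩))

end Pool.Agent.AR
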