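import Pool.Agent.Lib.MP_d24c19_al.Grp

set_option autoImplicit false

/-! Words in a dihedral Artin group: reduced words and their states. -/

namespace Pool.Agent.AR

variable {G : Type*} [Group G]

/-- `g` is a word with `r` letters `s^{±1}`, separated by powers of `U` -/
inductive W (s U : G) : ℕ → G → Prop
  | base (k : ℤ) : W s U 0 (U ^ k)
  | pos (r : ℕ) (k : ℤ) (g : G) (h : W s U r g) : W s U (r + 1) (U ^ k * s * g)
  | neg (r : ℕ) (k : ℤ) (g : G) (h : W s U r g) : W s U (r + 1) (U ^ k * s⁻¹ * g)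

theorem W.left {s U : G} {r : ℕ} {g : G} (h : W s U r g) (l : ℤ) : W s U r (U ^ l * g) := by
  cases h with
  | base k => rw [← zpow_add]; exact W.base _
  | pos r k g h =>
    have : U ^ l * (U ^ k * s * g) = U ^ (l + k) * s * g := by rw [zpow_add]; group
    rw [this]; exact W.pos _ _ _ h
  | neg r k g h =>
    have : U ^ l * (U ^ k * s⁻¹ * g) = U ^ (l + k) * s⁻¹ * g := by rw [zpow_add]; group
    rw [this]; exact W.neg _ _ _ h

theorem W.mul {s U : G} {r r' : ℕ} {g g' : G} (h : W s U r g) (h' : W s U r' g') : W s U (r + r') (g * g') := by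
  induction h with
  | base k => rw [zero_add]; exact h'.left k
  | pos r k g h ih =>
    rw [show r + 1 + r' = r + r' + 1 by omega, mul_assoc]
    exact W.pos _ _ _ ih
  | neg r k g h ih =>
    rw [show r + 1 + r' = r + r' + 1 by omega, mul_assoc]
    exact W.neg _ _ _ ih

theorem W.inv {s U : G} {r : ℕ} {g : G} (h : W s U r g) : W s U r g⁻¹ := by
  induction h with
  | base k => rw [← zpow_neg]; exact W.base _
  | pos r k g h ih =>
    have h1 : W s U 1 (s⁻¹ * U ^ (-k)) := by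
      have := W.neg (s := s) (U := U) 0 0 (U ^ (-k)) (W.base _)
      simpa using this
    have h2 : (U ^ k * s * g)⁻¹ = g⁻¹ * (s⁻¹ * U ^ (-k)) := by rw [zpow_neg]; group
    rw [h2]
    exact ih.mul h1
  | neg r k g h ih =>
    have h1 : W s U 1 (s * U ^ (-k)) := by
      have := W.pos (s := s) (U := U) 0 0 (U ^ (-k)) (W.base _)
      simpa using this
    have h2 : (U ^ k * s⁻¹ * g)⁻¹ = g⁻¹ * (s * U ^ (-k)) := by rw [zpow_neg]; group
    rw [h2]
    exact ih.mul h1

theorem exists_W {s t g : G} (hg : g ∈ Subgroup.closure {s, t}) : ∃ r, W s (s * t) r g := by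
  induction hg using Subgroup.closure_induction with
  | mem x hx =>
    rcases hx with rfl | hx
    · refine ⟨1, ?_⟩
      have := W.pos (s := x) (U := x * t) 0 0 ((x * t) ^ (0 : ℤ)) (W.base _)
      simpa using this
    · have hx' : x = t := hx
      subst hx'
      refine ⟨1, ?_⟩
      have := W.neg (s := s) (U := s * x) 0 0 ((s * x) ^ (1 : ℤ)) (W.base _)
      simpa using this
  | one => exact ⟨0, by simpa using W.base (s := s) (U := s * t) 0⟩
  | mul x y _ _ hx hy =>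
    obtain ⟨a, ha⟩ := hx
    obtain ⟨b, hb⟩ := hy
    exact ⟨a + b, ha.mul hb⟩
  | inv x _ hx =>
    obtain ⟨a, ha⟩ := hx
    exact ⟨a, ha.inv⟩

/-- reduced words, with states `(i, j)`, from the state `(i0, j0)` -/
inductive Rd (m : ℕ) (i0 j0 : ℤ) (s U : G) : ℕ → G → ℤ → ℤ → Prop
  | base (k : ℤ) : Rd m i0 j0 s U 0 (U ^ k) (i0 + 2 * k) (j0 + 2 * k)
  | pos (r : ℕ) (k : ℤ) (g : G) (i j : ℤ) (h : Rd m i0 j0 s U r g i j) (hi : ¬ (m : ℤ) ∣ i)
      (hj : ¬ (m : ℤ) ∣ j + 1) : Rd m i0 j0 s U (r + 1) (U ^ k * s * g) (1 + 2 * k) (2 * k)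
  | neg (r : ℕ) (k : ℤ) (g : G) (i j : ℤ) (h : Rd m i0 j0 s U r g i j) (hi : ¬ (m : ℤ) ∣ i - 1)
      (hj : ¬ (m : ℤ) ∣ j) : Rd m i0 j0 s U (r + 1) (U ^ k * s⁻¹ * g) (2 * k) (2 * k - 1)

theorem Rd.toW {m : ℕ} {i0 j0 : ℤ} {s U : G} {r : ℕ} {g : G} {i j : ℤ} (h : Rd m i0 j0 s U r g i j) :
    W s U r g := by
  induction h with
  | base k => exact W.base k
  | pos r k g i j h hi hj ih => exact W.pos _ _ _ ih
  | neg r k g i j h hi hj ih => exact W.neg _ _ _ ih

section
variable {m : ℕ} {s t : G}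

theorem red_pp (H : alt m s t = alt m t s) {k0 k : ℤ} (hk : (m : ℤ) ∣ 2 * k + 1) {r : ℕ} {g : G}
    (h : W s (s * t) r g) : W s (s * t) r ((s * t) ^ k0 * s * ((s * t) ^ k * s * g)) := by
  have h1 := I1 H hk
  have h2 : (s * t) ^ k0 * s * ((s * t) ^ k * s * g) = (s * t) ^ k0 * ((s * (s * t) ^ k * s) * g) := by
    group
  rw [h2, h1]
  exact (h.left _).left _

theorem red_nn (H : alt m s t = alt m t s) {k0 k : ℤ} (hk : (m : ℤ) ∣ 2 * k - 1) {r : ℕ} {g : G}
    (h : W s (s * t) r g) : W s (s * t) r ((s * t) ^ k0 * s⁻¹ * ((s * t) ^ k * s⁻¹ * g)) := by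
  have h1 := I1c H hk
  have h2 : (s * t) ^ k0 * s⁻¹ * ((s * t) ^ k * s⁻¹ * g) = (s * t) ^ k0 * ((s * t) ^ (k - 1) * g) := by
    rw [← h1]; group
  rw [h2]
  exact (h.left _).left _

theorem red_pn (hm : 1 ≤ m) (H : alt m s t = alt m t s) {k0 k : ℤ} (hk : (m : ℤ) ∣ 2 * k) {r : ℕ} {g : G}
    (h : W s (s * t) r g) : W s (s * t) r ((s * t) ^ k0 * s * ((s * t) ^ k * s⁻¹ * g)) := by
  have h1 := (I2 hm H hk).eq
  have h2 : (s * t) ^ k0 * s * ((s * t) ^ k * s⁻¹ * g) = (s * t) ^ k0 * ((s * t) ^ k * g) := by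
    calc _ = (s * t) ^ k0 * ((s * (s * t) ^ k) * s⁻¹ * g) := by group
      _ = _ := by rw [← h1]; group
  rw [h2]
  exact (h.left _).left _

theorem red_np (hm : 1 ≤ m) (H : alt m s t = alt m t s) {k0 k : ℤ} (hk : (m : ℤ) ∣ 2 * k) {r : ℕ} {g : G}
    (h : W s (s * t) r g) : W s (s * t) r ((s * t) ^ k0 * s⁻¹ * ((s * t) ^ k * s * g)) := by
  have h1 := (I2 hm H hk).eq
  have h2 : (s * t) ^ k0 * s⁻¹ * ((s * t) ^ k * s * g) = (s * t) ^ k0 * ((s * t) ^ k * g) := by
    rw [h1]; group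
  rw [h2]
  exact (h.left _).left _

/-- the type of the right end -/
def EndT (s t : G) (i0 j0 : ℤ) (Z : Subgroup G) : Prop :=
  (i0 = 0 ∧ j0 = -2 ∧ Z = Subgroup.zpowers t) ∨ (i0 = 1 ∧ j0 = -1 ∧ Z = Subgroup.zpowers s)

theorem end_pos (hm : 1 ≤ m) (H : alt m s t = alt m t s) {i0 j0 : ℤ} {Z : Subgroup G} (hZ : EndT s t i0 j0 Z)
    {k0 k : ℤ} (hk : (m : ℤ) ∣ i0 + 2 * k ∨ (m : ℤ) ∣ j0 + 2 * k + 1) :
    ∃ v ∈ Z, W s (s * t) 0 ((s * t) ^ k0 * s * (s * t) ^ k * v) := by
  rcases hZ with ⟨rfl, rfl, rfl⟩ | ⟨rfl, rfl, rfl⟩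
  · rcases hk with hk | hk
    · rw [zero_add] at hk
      refine ⟨t, Subgroup.mem_zpowers t, ?_⟩
      have h1 := (I2 hm H hk).eq
      have h2 : (s * t) ^ k0 * s * (s * t) ^ k * t = (s * t) ^ (k0 + (k + 1)) := by
        calc _ = (s * t) ^ k0 * ((s * (s * t) ^ k) * t) := by group
          _ = (s * t) ^ k0 * ((s * t) ^ k * (s * t)) := by rw [← h1]; group
          _ = _ := by rw [zpow_add, zpow_add_one]
      rw [h2]
      exact W.base _
    · have hk' : (m : ℤ) ∣ 2 * k - 1 := by rw [show 2 * k - 1 = -2 + 2 * k + 1 by ring]; exact hk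
      refine ⟨t⁻¹, inv_mem (Subgroup.mem_zpowers t), ?_⟩
      have h1 := I1b H hk'
      have h2 : (s * t) ^ k0 * s * (s * t) ^ k * t⁻¹ = (s * t) ^ (k0 + k) := by
        calc _ = (s * t) ^ k0 * ((s * (s * t) ^ k) * t⁻¹) := by group
          _ = (s * t) ^ k0 * (s * t) ^ k := by rw [h1]; group
          _ = _ := by rw [zpow_add]
      rw [h2]
      exact W.base _
  · rcases hk with hk | hk
    · have hk' : (m : ℤ) ∣ 2 * k + 1 := by rw [add_comm]; exact hk
      refine ⟨s, Subgroup.mem_zpowers s, ?_⟩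
      have h1 := I1 H hk'
      have h2 : (s * t) ^ k0 * s * (s * t) ^ k * s = (s * t) ^ (k0 + (k + 1)) := by
        calc _ = (s * t) ^ k0 * (s * (s * t) ^ k * s) := by group
          _ = _ := by rw [h1, zpow_add _ k0]
      rw [h2]
      exact W.base _
    · have hk' : (m : ℤ) ∣ 2 * k := by rw [show 2 * k = -1 + 2 * k + 1 by ring]; exact hk
      refine ⟨s⁻¹, inv_mem (Subgroup.mem_zpowers s), ?_⟩
      have h1 := (I2 hm H hk').eq
      have h2 : (s * t) ^ k0 * s * (s * t) ^ k * s⁻¹ = (s * t) ^ (k0 + k) := by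
        calc _ = (s * t) ^ k0 * ((s * (s * t) ^ k) * s⁻¹) := by group
          _ = (s * t) ^ k0 * (s * t) ^ k := by rw [← h1]; group
          _ = _ := by rw [zpow_add]
      rw [h2]
      exact W.base _

theorem end_neg (hm : 1 ≤ m) (H : alt m s t = alt m t s) {i0 j0 : ℤ} {Z : Subgroup G} (hZ : EndT s t i0 j0 Z)
    {k0 k : ℤ} (hk : (m : ℤ) ∣ i0 + 2 * k - 1 ∨ (m : ℤ) ∣ j0 + 2 * k) :
    ∃ v ∈ Z, W s (s * t) 0 ((s * t) ^ k0 * s⁻¹ * (s * t) ^ k * v) := by
  rcases hZ with ⟨rfl, rfl, rfl⟩ | ⟨rfl, rfl, rfl⟩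
  · rcases hk with hk | hk
    · have hk' : (m : ℤ) ∣ 2 * k - 1 := by rw [show 2 * k - 1 = 0 + 2 * k - 1 by ring]; exact hk
      refine ⟨t, Subgroup.mem_zpowers t, ?_⟩
      have h1 := I1b H hk'
      have h2 : (s * t) ^ k0 * s⁻¹ * (s * t) ^ k * t = (s * t) ^ (k0 + k) := by
        calc _ = (s * t) ^ k0 * s⁻¹ * ((s * t) ^ k * t) := by group
          _ = (s * t) ^ k0 * (s * t) ^ k := by rw [← h1]; group
          _ = _ := by rw [zpow_add]
      rw [h2]
      exact W.base _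
    · have hk' : (m : ℤ) ∣ 2 * (k - 1) := by rw [show 2 * (k - 1) = -2 + 2 * k by ring]; exact hk
      refine ⟨t⁻¹, inv_mem (Subgroup.mem_zpowers t), ?_⟩
      have h1 := (I2 hm H hk').eq
      have h3 : (s * t) ^ k = (s * t) ^ (k - 1) * (s * t) := by rw [← zpow_add_one, sub_add_cancel]
      have h2 : (s * t) ^ k0 * s⁻¹ * (s * t) ^ k * t⁻¹ = (s * t) ^ (k0 + (k - 1)) := by
        calc _ = (s * t) ^ k0 * s⁻¹ * ((s * t) ^ (k - 1) * s) := by rw [h3]; group
          _ = (s * t) ^ k0 * (s * t) ^ (k - 1) := by rw [h1]; group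
          _ = _ := by rw [zpow_add]
      rw [h2]
      exact W.base _
  · rcases hk with hk | hk
    · have hk' : (m : ℤ) ∣ 2 * k := by rw [show 2 * k = 1 + 2 * k - 1 by ring]; exact hk
      refine ⟨s, Subgroup.mem_zpowers s, ?_⟩
      have h1 := (I2 hm H hk').eq
      have h2 : (s * t) ^ k0 * s⁻¹ * (s * t) ^ k * s = (s * t) ^ (k0 + k) := by
        calc _ = (s * t) ^ k0 * s⁻¹ * ((s * t) ^ k * s) := by group
          _ = (s * t) ^ k0 * (s * t) ^ k := by rw [h1]; group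
          _ = _ := by rw [zpow_add]
      rw [h2]
      exact W.base _
    · have hk' : (m : ℤ) ∣ 2 * k - 1 := by rw [show 2 * k - 1 = -1 + 2 * k by ring]; exact hk
      refine ⟨s⁻¹, inv_mem (Subgroup.mem_zpowers s), ?_⟩
      have h1 := I1c H hk'
      have h2 : (s * t) ^ k0 * s⁻¹ * (s * t) ^ k * s⁻¹ = (s * t) ^ (k0 + (k - 1)) := by
        calc _ = (s * t) ^ k0 * (s⁻¹ * (s * t) ^ k * s⁻¹) := by group
          _ = (s * t) ^ k0 * (s * t) ^ (k - 1) := by rw [← h1]; group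
          _ = _ := by rw [zpow_add]
      rw [h2]
      exact W.base _

theorem min_Rd (hm : 1 ≤ m) (H : alt m s t = alt m t s) {i0 j0 : ℤ} {Z : Subgroup G} (hZ : EndT s t i0 j0 Z)
    {r : ℕ} {g : G} (hW : W s (s * t) r g) (hmin : ∀ r' < r, ∀ v ∈ Z, ¬ W s (s * t) r' (g * v)) :
    ∃ i j, Rd m i0 j0 s (s * t) r g i j := by
  induction hW with
  | base k => exact ⟨_, _, Rd.base k⟩
  | pos r k g h ih =>
    obtain ⟨i, j, hR⟩ := ih (by
      intro r' hr' v hv hW'
      apply hmin (r' + 1) (by omega) v hv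
      rw [mul_assoc]
      exact W.pos _ _ _ hW')
    by_cases hc : (m : ℤ) ∣ i ∨ (m : ℤ) ∣ j + 1
    · exfalso
      cases hR with
      | base k' =>
        obtain ⟨v, hv, hW'⟩ := end_pos hm H hZ (k0 := k) hc
        exact hmin 0 (by omega) v hv hW'
      | pos r' k' g' i' j' h' hi' hj' =>
        have hk : (m : ℤ) ∣ 2 * k' + 1 := by
          rcases hc with hc | hc
          · rw [add_comm]; exact hc
          · exact hc
        apply hmin r' (by omega) 1 (one_mem _)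
        rw [mul_one]
        exact red_pp H hk h'.toW
      | neg r' k' g' i' j' h' hi' hj' =>
        have hk : (m : ℤ) ∣ 2 * k' := by
          rcases hc with hc | hc
          · exact hc
          · rw [sub_add_cancel] at hc; exact hc
        apply hmin r' (by omega) 1 (one_mem _)
        rw [mul_one]
        exact red_pn hm H hk h'.toW
    · rw [not_or] at hc
      exact ⟨_, _, Rd.pos _ _ _ _ _ hR hc.1 hc.2⟩
  | neg r k g h ih =>
    obtain ⟨i, j, hR⟩ := ih (by
      intro r' hr' v hv hW'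
      apply hmin (r' + 1) (by omega) v hv
      rw [mul_assoc]
      exact W.neg _ _ _ hW')
    by_cases hc : (m : ℤ) ∣ i - 1 ∨ (m : ℤ) ∣ j
    · exfalso
      cases hR with
      | base k' =>
        obtain ⟨v, hv, hW'⟩ := end_neg hm H hZ (k0 := k) hc
        exact hmin 0 (by omega) v hv hW'
      | pos r' k' g' i' j' h' hi' hj' =>
        have hk : (m : ℤ) ∣ 2 * k' := by
          rcases hc with hc | hc
          · rw [add_sub_cancel_left] at hc; exact hc
          · exact hc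
        apply hmin r' (by omega) 1 (one_mem _)
        rw [mul_one]
        exact red_np hm H hk h'.toW
      | neg r' k' g' i' j' h' hi' hj' =>
        have hk : (m : ℤ) ∣ 2 * k' - 1 := by
          rcases hc with hc | hc
          · exact hc
          · exact hc
        apply hmin r' (by omega) 1 (one_mem _)
        rw [mul_one]
        exact red_nn H hk h'.toW
    · rw [not_or] at hc
      exact ⟨_, _, Rd.neg _ _ _ _ _ hR hc.1 hc.2⟩

/-- every double coset `<t> g Z` has a reduced word which does not fail at the left end -/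
theorem exists_Rd (hm : 1 ≤ m) (H : alt m s t = alt m t s) {i0 j0 : ℤ} {Z : Subgroup G} (hZ : EndT s t i0 j0 Z)
    {g : G} (hg : g ∈ Subgroup.closure {s, t}) :
    ∃ u ∈ Subgroup.zpowers t, ∃ v ∈ Z, ∃ r i j, Rd m i0 j0 s (s * t) r (u * g * v) i j ∧
      (1 ≤ r → ¬ (m : ℤ) ∣ i + 1 ∧ ¬ (m : ℤ) ∣ j + 1) := by
  classical
  have hex : ∃ r, ∃ u ∈ Subgroup.zpowers t, ∃ v ∈ Z, W s (s * t) r (u * g * v) := by
    obtain ⟨r, hr⟩ := exists_W hg
    exact ⟨r, 1, one_mem _, 1, one_mem _, by rwa [one_mul, mul_one]⟩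
  obtain ⟨u, hu, v, hv, hW⟩ := Nat.find_spec hex
  have hmin : ∀ r' < Nat.find hex, ∀ u ∈ Subgroup.zpowers t, ∀ v ∈ Z, ¬ W s (s * t) r' (u * g * v) :=
    fun r' hr' u hu v hv hW' => Nat.find_min hex hr' ⟨u, hu, v, hv, hW'⟩
  obtain ⟨i, j, hR⟩ := min_Rd hm H hZ hW (by
    intro r' hr' v' hv' hW'
    apply hmin r' hr' u hu (v * v') (mul_mem hv hv')
    rwa [← mul_assoc])
  refine ⟨u, hu, v, hv, Nat.find hex, i, j, hR, ?_⟩
  generalize Nat.find hex = n at hR hmin hW
  generalize hg' : u * g * v = g' at hR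
  intro hn
  rw [← not_or]
  intro hc
  cases hR with
  | base k => omega
  | pos r k g'' i' j' h' hi' hj' =>
    rcases hc with hc | hc
    · have hk : (m : ℤ) ∣ 2 * (k + 1) := by rw [show 2 * (k + 1) = 1 + 2 * k + 1 by ring]; exact hc
      have h1 := (I2t hm H hk).eq
      apply hmin r (by omega) (t * u) (mul_mem (Subgroup.mem_zpowers t) hu) v hv
      have h3 : (s * t) ^ k * s = (s * t) ^ (k + 1) * t⁻¹ := by rw [zpow_add_one]; group
      have h2 : t * u * g * v = (s * t) ^ (k + 1) * g'' := by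
        calc t * u * g * v = t * (u * g * v) := by group
          _ = t * ((s * t) ^ (k + 1) * t⁻¹ * g'') := by rw [hg', h3]
          _ = (t * (s * t) ^ (k + 1)) * t⁻¹ * g'' := by group
          _ = _ := by rw [← h1]; group
      rw [h2]
      exact h'.toW.left _
    · have h1 := I1a H hc
      apply hmin r (by omega) (t⁻¹ * u) (mul_mem (inv_mem (Subgroup.mem_zpowers t)) hu) v hv
      have h2 : t⁻¹ * u * g * v = (s * t) ^ k * g'' := by
        calc t⁻¹ * u * g * v = t⁻¹ * (u * g * v) := by group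
          _ = _ := by rw [hg', h1]; group
      rw [h2]
      exact h'.toW.left _
  | neg r k g'' i' j' h' hi' hj' =>
    rcases hc with hc | hc
    · have h1 := I1a H hc
      apply hmin r (by omega) (t * u) (mul_mem (Subgroup.mem_zpowers t) hu) v hv
      have h2 : t * u * g * v = (s * t) ^ k * g'' := by
        calc t * u * g * v = t * (u * g * v) := by group
          _ = (t * (s * t) ^ k) * s⁻¹ * g'' := by rw [hg']; group
          _ = _ := by rw [← h1]; group
      rw [h2]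
      exact h'.toW.left _
    · have hk : (m : ℤ) ∣ 2 * k := by rw [sub_add_cancel] at hc; exact hc
      have h1 := (I2 hm H hk).eq
      apply hmin r (by omega) (t⁻¹ * u) (mul_mem (inv_mem (Subgroup.mem_zpowers t)) hu) v hv
      have h3 : t⁻¹ * (s⁻¹ * (s * t) ^ k) = (s * t) ^ (k - 1) := by
        rw [show (s * t) ^ k = (s * t) * (s * t) ^ (k - 1) by rw [← zpow_one_add, add_sub_cancel],
          mul_assoc, inv_mul_cancel_left, inv_mul_cancel_left]
      have h4 : (s * t) ^ k * s⁻¹ = s⁻¹ * (s * t) ^ k := by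
        calc (s * t) ^ k * s⁻¹ = s⁻¹ * (s * (s * t) ^ k) * s⁻¹ := by group
          _ = _ := by rw [← h1]; group
      have h2 : t⁻¹ * u * g * v = (s * t) ^ (k - 1) * g'' := by
        calc t⁻¹ * u * g * v = t⁻¹ * (u * g * v) := by group
          _ = t⁻¹ * (s⁻¹ * (s * t) ^ k * g'') := by rw [hg', h4]
          _ = t⁻¹ * (s⁻¹ * (s * t) ^ k) * g'' := (mul_assoc _ _ _).symm
          _ = _ := by rw [h3]
      rw [h2]
      exact h'.toW.left _

end

end Pool.Agent.AR
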