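import Pool.Agent.Lib.MP_d24c19_al.Bur
import Pool.Agent.Lib.MP_d24c19_al.Wd

set_option autoImplicit false

/-! Shapes of pairs of polynomials and the action of the letters. -/

namespace Pool.Agent.AR

open Polynomial

/-- `F` has shape `(d; i, j)` -/
structure Shape (m : ℕ) (d : ℕ) (i j : ℤ) (F1 F2 : ℝ[X]) : Prop where
  deg1 : F1.natDegree ≤ d
  deg2 : F2.natDegree ≤ d
  lo : ∃ a : ℝ, a ≠ 0 ∧ F1.coeff 0 = a * sn m (i + 1) ∧ F2.coeff 0 = a * sn m i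
  hi : ∃ a : ℝ, a ≠ 0 ∧ F1.coeff d = a * sn m (j + 1) ∧ F2.coeff d = a * sn m j

/-- first component of `U^k` -/
noncomputable def Uk1 (m : ℕ) (k : ℤ) (F1 F2 : ℝ[X]) : ℝ[X] := C (sn m (2 * k + 1)) * F1 - C (sn m (2 * k)) * F2

/-- second component of `U^k` -/
noncomputable def Uk2 (m : ℕ) (k : ℤ) (F1 F2 : ℝ[X]) : ℝ[X] := C (sn m (2 * k)) * F1 - C (sn m (2 * k - 1)) * F2

theorem natDegree_CC {d : ℕ} {a b : ℝ} {F1 F2 : ℝ[X]} (h1 : F1.natDegree ≤ d) (h2 : F2.natDegree ≤ d) :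
    (C a * F1 - C b * F2).natDegree ≤ d :=
  (natDegree_sub_le_of_le ((natDegree_C_mul_le _ _).trans h1) ((natDegree_C_mul_le _ _).trans h2)).trans
    (max_self d).le

theorem Shape.U {m : ℕ} (hm : 2 ≤ m) {d : ℕ} {i j : ℤ} {F1 F2 : ℝ[X]} (h : Shape m d i j F1 F2) (k : ℤ) :
    Shape m d (i + 2 * k) (j + 2 * k) (Uk1 m k F1 F2) (Uk2 m k F1 F2) := by
  refine ⟨natDegree_CC h.deg1 h.deg2, natDegree_CC h.deg1 h.deg2, ?_, ?_⟩
  · obtain ⟨a, ha, h1, h2⟩ := h.lo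
    refine ⟨a, ha, ?_, ?_⟩
    · unfold Uk1
      rw [coeff_sub, coeff_C_mul, coeff_C_mul, h1, h2]
      have := sn_add hm (2 * k) i
      rw [show i + 2 * k + 1 = 2 * k + i + 1 by ring, ← this]
      ring
    · unfold Uk2
      rw [coeff_sub, coeff_C_mul, coeff_C_mul, h1, h2]
      have := sn_add hm (2 * k - 1) i
      rw [show i + 2 * k = 2 * k - 1 + i + 1 by ring, ← this, show 2 * k - 1 + 1 = 2 * k by ring]
      ring
  · obtain ⟨a, ha, h1, h2⟩ := h.hi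
    refine ⟨a, ha, ?_, ?_⟩
    · unfold Uk1
      rw [coeff_sub, coeff_C_mul, coeff_C_mul, h1, h2]
      have := sn_add hm (2 * k) j
      rw [show j + 2 * k + 1 = 2 * k + j + 1 by ring, ← this]
      ring
    · unfold Uk2
      rw [coeff_sub, coeff_C_mul, coeff_C_mul, h1, h2]
      have := sn_add hm (2 * k - 1) j
      rw [show j + 2 * k = 2 * k - 1 + j + 1 by ring, ← this, show 2 * k - 1 + 1 = 2 * k by ring]
      ring

theorem Shape.pos {m : ℕ} (hm : 2 ≤ m) {d : ℕ} {i j : ℤ} {F1 F2 : ℝ[X]} (h : Shape m d i j F1 F2)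
    (hi : ¬ (m : ℤ) ∣ i) (hj : ¬ (m : ℤ) ∣ j + 1) :
    Shape m (d + 1) 1 0 (C (cc m) * F2 - X * F1) F2 := by
  have e0 : F2.coeff (d + 1) = 0 := coeff_eq_zero_of_natDegree_lt (by have := h.deg2; omega)
  refine ⟨?_, h.deg2.trans (Nat.le_succ d), ?_, ?_⟩
  · refine (natDegree_sub_le_of_le (m := d + 1) (n := d + 1) ?_ ?_).trans (max_self _).le
    · exact ((natDegree_C_mul_le _ _).trans h.deg2).trans (Nat.le_succ d)
    · refine natDegree_mul_le.trans ?_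
      have := h.deg1
      rw [natDegree_X]
      omega
  · obtain ⟨a, ha, h1, h2⟩ := h.lo
    refine ⟨a * sn m i, mul_ne_zero ha (fun h0 => hi ((sn_eq_zero hm).1 h0)), ?_, ?_⟩
    · rw [coeff_sub, coeff_C_mul, coeff_X_mul_zero, h2, show (1 : ℤ) + 1 = 2 by norm_num, sn_two hm]
      ring
    · rw [h2, sn_one hm, mul_one]
  · obtain ⟨a, ha, h1, h2⟩ := h.hi
    refine ⟨-(a * sn m (j + 1)), neg_ne_zero.2 (mul_ne_zero ha (fun h0 => hj ((sn_eq_zero hm).1 h0))), ?_, ?_⟩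
    · rw [coeff_sub, coeff_C_mul, coeff_X_mul, h1, e0, zero_add, sn_one hm]
      ring
    · rw [e0, sn_zero, mul_zero]

theorem Shape.neg {m : ℕ} (hm : 2 ≤ m) {d : ℕ} {i j : ℤ} {F1 F2 : ℝ[X]} (h : Shape m d i j F1 F2)
    (hi : ¬ (m : ℤ) ∣ i - 1) (hj : ¬ (m : ℤ) ∣ j) :
    Shape m (d + 1) 0 (-1) (C (cc m) * F2 - F1) (X * F2) := by
  have e0 : F2.coeff (d + 1) = 0 := coeff_eq_zero_of_natDegree_lt (by have := h.deg2; omega)
  have e1 : F1.coeff (d + 1) = 0 := coeff_eq_zero_of_natDegree_lt (by have := h.deg1; omega)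
  refine ⟨?_, ?_, ?_, ?_⟩
  · exact (natDegree_sub_le_of_le (((natDegree_C_mul_le _ _).trans h.deg2).trans (Nat.le_succ d))
      (h.deg1.trans (Nat.le_succ d))).trans (max_self _).le
  · refine natDegree_mul_le.trans ?_
    have := h.deg2
    rw [natDegree_X]
    omega
  · obtain ⟨a, ha, h1, h2⟩ := h.lo
    refine ⟨a * sn m (i - 1), mul_ne_zero ha (fun h0 => hi ((sn_eq_zero hm).1 h0)), ?_, ?_⟩
    · rw [coeff_sub, coeff_C_mul, h1, h2, zero_add, sn_one hm, sn_rec]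
      ring
    · rw [coeff_X_mul_zero, sn_zero, mul_zero]
  · obtain ⟨a, ha, h1, h2⟩ := h.hi
    refine ⟨-(a * sn m j), neg_ne_zero.2 (mul_ne_zero ha (fun h0 => hj ((sn_eq_zero hm).1 h0))), ?_, ?_⟩
    · rw [coeff_sub, coeff_C_mul, e0, e1, show (-1 : ℤ) + 1 = 0 by norm_num, sn_zero]
      ring
    · rw [coeff_X_mul, h2, sn_neg, sn_one hm]
      ring

section
variable {n : ℕ} (M : CoxeterMatrix (Fin n)) (s t : Fin n)

/-- the vector `y₁ α_s + β⁻¹ y₂ α_t` -/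
noncomputable def vec (y1 y2 : KK) : I0 n → KK := y1 • al s + ((bet s t)⁻¹ * y2) • al t

variable {s t}

theorem fs_vec (h : s ≠ t) (y1 y2 : KK) : fv M s ⬝ᵥ vec s t y1 y2 = (1 + qq) * y1 - cf M s t * y2 := by
  unfold vec
  have hb := bet_ne s t
  rw [dotProduct_add, dotProduct_smul, dotProduct_smul, fv_al_self, fv_al M h, smul_eq_mul, smul_eq_mul]
  field_simp
  ring

theorem ft_vec (h : s ≠ t) (y1 y2 : KK) :
    fv M t ⬝ᵥ vec s t y1 y2 = (bet s t)⁻¹ * ((1 + qq) * y2 - cf M s t * qq * y1) := by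
  unfold vec
  have hb := bet_ne s t
  rw [dotProduct_add, dotProduct_smul, dotProduct_smul, fv_al_self, fv_al M h.symm, smul_eq_mul,
    smul_eq_mul, cf_symm M t s, ← bet_mul h]
  field_simp
  ring

theorem xs_vec (h : s ≠ t) (y1 y2 : KK) :
    (xm M s).mulVec (vec s t y1 y2) = vec s t (cf M s t * y2 - qq * y1) y2 := by
  rw [xm_mulVec, fs_vec M h]
  unfold vec
  funext i
  simp only [Pi.sub_apply, Pi.add_apply, Pi.smul_apply, smul_eq_mul]
  ring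

theorem xs'_vec (h : s ≠ t) (y1 y2 : KK) :
    (xm' M s).mulVec (vec s t y1 y2) = qq⁻¹ • vec s t (cf M s t * y2 - y1) (qq * y2) := by
  rw [xm'_mulVec, fs_vec M h]
  unfold vec
  have := qq_ne
  have h1 : y1 - qq⁻¹ * ((1 + qq) * y1 - cf M s t * y2) = qq⁻¹ * (cf M s t * y2 - y1) := by
    field_simp
    ring
  have h2 : (bet s t)⁻¹ * y2 = qq⁻¹ * ((bet s t)⁻¹ * (qq * y2)) := by
    field_simp
  rw [smul_add, smul_smul, smul_smul, ← h1, ← h2]
  funext i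
  simp only [Pi.sub_apply, Pi.add_apply, Pi.smul_apply, smul_eq_mul]
  ring

theorem xt_vec (h : s ≠ t) (y1 y2 : KK) :
    (xm M t).mulVec (vec s t y1 y2) = vec s t y1 (qq * (cf M s t * y1 - y2)) := by
  rw [xm_mulVec, ft_vec M h]
  unfold vec
  have h1 : (bet s t)⁻¹ * (qq * (cf M s t * y1 - y2)) =
      (bet s t)⁻¹ * y2 - (bet s t)⁻¹ * ((1 + qq) * y2 - cf M s t * qq * y1) := by ring
  rw [h1]
  funext i
  simp only [Pi.sub_apply, Pi.add_apply, Pi.smul_apply, smul_eq_mul]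
  ring

theorem U_vec (h : s ≠ t) (y1 y2 : KK) :
    (rB M (gen M s * gen M t) : Matrix (I0 n) (I0 n) KK).mulVec (vec s t y1 y2) =
      qq • vec s t ((cf M s t ^ 2 - 1) * y1 - cf M s t * y2) (cf M s t * y1 - y2) := by
  rw [map_mul, Units.val_mul, rB_gen, rB_gen, ← Matrix.mulVec_mulVec, xt_vec M h, xs_vec M h]
  unfold vec
  rw [smul_add, smul_smul, smul_smul]
  congr 2
  · ring
  · ring

/-- vectors with polynomial coordinates -/
noncomputable def vecP (s t : Fin n) (F1 F2 : ℝ[X]) : I0 n → KK := vec s t (tK F1) (tK F2)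

theorem cc_rel (m : ℕ) (hm : 2 ≤ m) : sn m 3 = cc m ^ 2 - 1 := by
  have := sn_rec (m := m) 2
  rw [show (2 : ℤ) + 1 = 3 by norm_num, show (2 : ℤ) - 1 = 1 by norm_num, sn_one hm, sn_two hm] at this
  rw [this]; ring

theorem U_vecP (h : s ≠ t) (hm : 2 ≤ M.M s t) (F1 F2 : ℝ[X]) :
    (rB M (gen M s * gen M t) : Matrix (I0 n) (I0 n) KK).mulVec (vecP s t F1 F2) =
      qq • vecP s t (Uk1 (M.M s t) 1 F1 F2) (Uk2 (M.M s t) 1 F1 F2) := by
  unfold vecP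
  rw [U_vec M h]
  unfold Uk1 Uk2 cf
  rw [show (2 * (1 : ℤ) + 1) = 3 by norm_num, show 2 * (1 : ℤ) = 2 by norm_num,
    show (2 : ℤ) - 1 = 1 by norm_num, cc_rel _ hm, sn_one hm, sn_two hm]
  simp only [map_sub, map_mul, map_pow, map_one, one_mul]

theorem Uk_add (m : ℕ) (hm : 2 ≤ m) (k l : ℤ) (F1 F2 : ℝ[X]) :
    Uk1 m k (Uk1 m l F1 F2) (Uk2 m l F1 F2) = Uk1 m (k + l) F1 F2 ∧
    Uk2 m k (Uk1 m l F1 F2) (Uk2 m l F1 F2) = Uk2 m (k + l) F1 F2 := by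
  have a1 := sn_add hm (2 * k) (2 * l)
  have a2 := sn_add hm (2 * k) (2 * l - 1)
  have a3 := sn_add hm (2 * k - 1) (2 * l)
  have a4 := sn_add hm (2 * k - 1) (2 * l - 1)
  rw [show 2 * k + 2 * l + 1 = 2 * (k + l) + 1 by ring] at a1
  rw [show 2 * l - 1 + 1 = 2 * l by ring, show 2 * k + (2 * l - 1) + 1 = 2 * (k + l) by ring] at a2
  rw [show 2 * k - 1 + 1 = 2 * k by ring, show 2 * k - 1 + 2 * l + 1 = 2 * (k + l) by ring] at a3
  rw [show 2 * l - 1 + 1 = 2 * l by ring, show 2 * k - 1 + 1 = 2 * k by ring,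
    show 2 * k - 1 + (2 * l - 1) + 1 = 2 * (k + l) - 1 by ring] at a4
  unfold Uk1 Uk2
  constructor
  · rw [← a1]
    conv_rhs => rw [← a2]
    simp only [map_sub, map_mul]
    ring
  · rw [← a4]
    conv_rhs => rw [← a3]
    simp only [map_sub, map_mul]
    ring

theorem Uk_zero (m : ℕ) (hm : 2 ≤ m) (F1 F2 : ℝ[X]) : Uk1 m 0 F1 F2 = F1 ∧ Uk2 m 0 F1 F2 = F2 := by
  unfold Uk1 Uk2
  rw [mul_zero, sn_zero, zero_add, zero_sub, sn_neg, sn_one hm]
  constructor <;> simp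

theorem Uk_vecP (h : s ≠ t) (hm : 2 ≤ M.M s t) (k : ℤ) (F1 F2 : ℝ[X]) :
    (rB M ((gen M s * gen M t) ^ k) : Matrix (I0 n) (I0 n) KK).mulVec (vecP s t F1 F2) =
      qq ^ k • vecP s t (Uk1 (M.M s t) k F1 F2) (Uk2 (M.M s t) k F1 F2) := by
  have hq := qq_ne
  induction k using Int.induction_on generalizing F1 F2 with
  | zero =>
    rw [zpow_zero, map_one, Units.val_one, Matrix.one_mulVec, zpow_zero, one_smul,
      (Uk_zero _ hm F1 F2).1, (Uk_zero _ hm F1 F2).2]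
  | succ k ih =>
    rw [add_comm (k : ℤ) 1, zpow_add, zpow_one, map_mul, Units.val_mul, ← Matrix.mulVec_mulVec, ih,
      Matrix.mulVec_smul, U_vecP M h hm, smul_smul, (Uk_add _ hm 1 k F1 F2).1,
      (Uk_add _ hm 1 k F1 F2).2, zpow_add₀ hq, zpow_one, mul_comm]
  | pred k ih =>
    have e : (-(k : ℤ) - 1) = -1 + -(k : ℤ) := by ring
    have h1 : ∀ F1 F2 : ℝ[X], (rB M ((gen M s * gen M t)⁻¹) : Matrix (I0 n) (I0 n) KK).mulVec
        (vecP s t F1 F2) = qq⁻¹ • vecP s t (Uk1 (M.M s t) (-1) F1 F2) (Uk2 (M.M s t) (-1) F1 F2) := by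
      intro F1 F2
      have h2 := U_vecP M h hm (Uk1 (M.M s t) (-1) F1 F2) (Uk2 (M.M s t) (-1) F1 F2)
      rw [(Uk_add _ hm 1 (-1) F1 F2).1, (Uk_add _ hm 1 (-1) F1 F2).2, add_neg_cancel,
        (Uk_zero _ hm F1 F2).1, (Uk_zero _ hm F1 F2).2] at h2
      have h3 : vecP s t F1 F2 = qq⁻¹ • (rB M (gen M s * gen M t) : Matrix (I0 n) (I0 n) KK).mulVec
          (vecP s t (Uk1 (M.M s t) (-1) F1 F2) (Uk2 (M.M s t) (-1) F1 F2)) := by
        rw [h2, smul_smul, inv_mul_cancel₀ hq, one_smul]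
      conv_lhs => rw [h3]
      rw [Matrix.mulVec_smul, Matrix.mulVec_mulVec, ← Units.val_mul, ← map_mul, inv_mul_cancel,
        map_one, Units.val_one, Matrix.one_mulVec]
    rw [e, zpow_add, zpow_neg_one, map_mul, Units.val_mul, ← Matrix.mulVec_mulVec, ih,
      Matrix.mulVec_smul, h1, smul_smul, (Uk_add _ hm (-1) (-(k : ℤ)) F1 F2).1,
      (Uk_add _ hm (-1) (-(k : ℤ)) F1 F2).2, zpow_add₀ hq, zpow_neg_one, mul_comm]

theorem s_vecP (h : s ≠ t) (F1 F2 : ℝ[X]) :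
    (rB M (gen M s) : Matrix (I0 n) (I0 n) KK).mulVec (vecP s t F1 F2) =
      vecP s t (C (cc (M.M s t)) * F2 - X * F1) F2 := by
  unfold vecP
  rw [rB_gen, xs_vec M h]
  unfold cf qq
  simp only [map_sub, map_mul]

theorem s'_vecP (h : s ≠ t) (F1 F2 : ℝ[X]) :
    (rB M (gen M s)⁻¹ : Matrix (I0 n) (I0 n) KK).mulVec (vecP s t F1 F2) =
      qq⁻¹ • vecP s t (C (cc (M.M s t)) * F2 - F1) (X * F2) := by
  unfold vecP
  rw [rB_gen_inv, xs'_vec M h]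
  unfold cf qq
  simp only [map_sub, map_mul]

/-- the action of a reduced word -/
theorem Rd_shape (h : s ≠ t) (hm : 2 ≤ M.M s t) {i0 j0 : ℤ} {A1 A2 : ℝ[X]}
    (hA : Shape (M.M s t) 1 i0 j0 A1 A2) {r : ℕ} {g : Art M} {i j : ℤ}
    (hR : Rd (M.M s t) i0 j0 (gen M s) (gen M s * gen M t) r g i j) :
    ∃ (N : ℤ) (F1 F2 : ℝ[X]), (rB M g : Matrix (I0 n) (I0 n) KK).mulVec (vecP s t A1 A2) =
      qq ^ N • vecP s t F1 F2 ∧ Shape (M.M s t) (r + 1) i j F1 F2 := by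
  have hq := qq_ne
  induction hR with
  | base k => exact ⟨k, _, _, Uk_vecP M h hm k A1 A2, hA.U hm k⟩
  | pos r k g i j _ hi hj ih =>
    obtain ⟨N, F1, F2, h1, h2⟩ := ih
    have h3 := (h2.pos hm hi hj).U hm k
    rw [zero_add] at h3
    refine ⟨N + k, _, _, ?_, h3⟩
    rw [map_mul, map_mul, Units.val_mul, Units.val_mul, ← Matrix.mulVec_mulVec, ← Matrix.mulVec_mulVec, h1,
      Matrix.mulVec_smul, Matrix.mulVec_smul, s_vecP M h, Uk_vecP M h hm, smul_smul, ← zpow_add₀ hq]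
  | neg r k g i j _ hi hj ih =>
    obtain ⟨N, F1, F2, h1, h2⟩ := ih
    have h3 := (h2.neg hm hi hj).U hm k
    rw [zero_add, neg_add_eq_sub] at h3
    refine ⟨N + -1 + k, _, _, ?_, h3⟩
    rw [map_mul, map_mul, Units.val_mul, Units.val_mul, ← Matrix.mulVec_mulVec, ← Matrix.mulVec_mulVec, h1,
      Matrix.mulVec_smul, Matrix.mulVec_smul, s'_vecP M h, Matrix.mulVec_smul, Uk_vecP M h hm, smul_smul,
      smul_smul, ← zpow_neg_one, ← zpow_add₀ hq, ← zpow_add₀ hq]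

end

end Pool.Agent.AR
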